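import Mathlib

/-!
# MP_e3911d_co: increasing cycles in expanding graphs
-/

namespace Pool.Agent.MP_e3911d_co

/-- `D` is a semi-transitive orientation of `G`. -/
def IsSemiTrans {V : Type*} (G : SimpleGraph V) (D : V → V → Prop) : Prop :=
  (∀ u v, D u v → G.Adj u v) ∧
  (∀ u v, G.Adj u v → (D u v ∨ D v u)) ∧
  (∀ u v, D u v → ¬ D v u) ∧
  (∀ v, ¬ Relation.TransGen D v v) ∧
  (∀ k : ℕ, ∀ p : ℕ → V,
    (∀ i j, i ≤ k → j ≤ k → p i = p j → i = j) →
    (∀ i, i < k → D (p i) (p (i + 1))) →
    D (p 0) (p k) →
    ∀ i j, i < j → j ≤ k → D (p i) (p j))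

/-- `G` has a semi-transitive orientation. -/
def SemiTransitive {V : Type*} (G : SimpleGraph V) : Prop := ∃ D, IsSemiTrans G D

theorem SemiTransitive.of_embedding {V W : Type*} {G : SimpleGraph V} {H : SimpleGraph W}
    (f : H ↪g G) (h : SemiTransitive G) : SemiTransitive H := by
  obtain ⟨D, h1, h2, h3, h4, h5⟩ := h
  refine ⟨fun u v => D (f u) (f v), fun u v huv => f.map_adj_iff.1 (h1 _ _ huv),
    fun u v huv => h2 _ _ (f.map_adj_iff.2 huv), fun u v huv => h3 _ _ huv, ?_, ?_⟩
  · intro v hv
    apply h4 (f v)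
    have : ∀ a b, Relation.TransGen (fun u v => D (f u) (f v)) a b →
        Relation.TransGen D (f a) (f b) := by
      intro a b hab
      exact Relation.TransGen.lift f (fun _ _ h => h) _ _ hab
    exact this v v hv
  · intro k p hp hs he i j hij hj
    exact h5 k (fun i => f (p i)) (fun a b ha hb hab => hp a b ha hb (f.injective hab)) hs he i j
      hij hj

/-- Expansion properties used for finding increasing cycles. -/
structure Expander {V : Type*} [DecidableEq V] (G : SimpleGraph V) (c : V → Finset V → ℕ)
    (κ w s : ℕ) : Prop where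
  mono : ∀ (x : V) (B N : Finset V), x ∉ B → (∀ y ∈ B, G.Adj x y → y ∈ N) → c x B ≤ c x N
  many : ∀ B S : Finset V, w ≤ 2 * B.card → (∀ v ∈ S, v ∉ B ∧ c v B < κ) → 4 * S.card ≤ w
  exp : ∀ A N : Finset V, A.Nonempty → A.card ≤ s → N.card ≤ 2 * A.card → Disjoint A N →
    ∃ v ∈ A, c v N < κ
  join : ∀ S T : Finset V, Disjoint S T → s ≤ S.card → s ≤ T.card → ∃ x ∈ S, ∃ y ∈ T, G.Adj x y

section

variable {V : Type*} [DecidableEq V] {G : SimpleGraph V} {c : V → Finset V → ℕ} {κ w s : ℕ}

/-- The good vertices, defined from the far end. -/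
def good (c : V → Finset V → ℕ) (κ : ℕ) (U : ℕ → Finset V) (L : ℕ) : ℕ → Finset V
  | 0 => U L
  | j + 1 => (U (L - (j + 1))).filter (fun v => κ ≤ c v (good c κ U L j))

theorem good_subset (U : ℕ → Finset V) (L j : ℕ) : good c κ U L j ⊆ U (L - j) := by
  cases j with
  | zero => simp [good]
  | succ j => exact Finset.filter_subset _ _

theorem good_card (h : Expander G c κ w s) (U : ℕ → Finset V) (L : ℕ)
    (hd : ∀ i < L, Disjoint (U i) (U (i + 1))) (hc : ∀ i ≤ L, (U i).card = w) :
    ∀ j ≤ L, 4 * ((U (L - j)) \ good c κ U L j).card ≤ w := by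
  intro j
  induction j with
  | zero => intro _; simp [good]
  | succ j ih =>
    intro hj
    have h1 := ih (by omega)
    have hcard : (good c κ U L j).card + ((U (L - j)) \ good c κ U L j).card = w := by
      rw [← hc (L - j) (by omega)]
      have := Finset.card_sdiff_add_card_eq_card (good_subset (c := c) (κ := κ) U L j)
      omega
    refine h.many (good c κ U L j) _ (by omega) ?_
    intro v hv
    rw [Finset.mem_sdiff] at hv
    obtain ⟨hv1, hv2⟩ := hv
    refine ⟨?_, ?_⟩
    · intro hvg
      have h2 : v ∈ U (L - j) := good_subset U L j hvg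
      have h3 := hd (L - (j + 1)) (by omega)
      have h4 : L - (j + 1) + 1 = L - j := by omega
      rw [h4] at h3
      exact Finset.disjoint_left.1 h3 hv1 h2
    · by_contra hcon
      apply hv2
      simp only [good, Finset.mem_filter]
      exact ⟨hv1, by omega⟩

/-- `y` can be reached from `v` along the blocks in `i` steps. -/
def Reach (G : SimpleGraph V) (U : ℕ → Finset V) (v : V) (i : ℕ) (y : V) : Prop :=
  ∃ x : ℕ → V, x 0 = v ∧ x i = y ∧ (∀ j ≤ i, x j ∈ U j) ∧ ∀ j < i, G.Adj (x j) (x (j + 1))

open Classical in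
theorem reach_card (h : Expander G c κ w s) (hs : 1 ≤ s) (U : ℕ → Finset V) (L : ℕ)
    (hd : ∀ i < L, Disjoint (U i) (U (i + 1))) (v : V) (hv : v ∈ good c κ U L L) :
    ∀ i ≤ L, min (2 ^ i) s ≤ ((good c κ U L (L - i)).filter (Reach G U v i)).card := by
  have hv0 : v ∈ U 0 := by
    have := good_subset (c := c) (κ := κ) U L L hv
    simpa using this
  intro i
  induction i with
  | zero =>
    intro _
    have : v ∈ (good c κ U L (L - 0)).filter (Reach G U v 0) := by
      rw [Finset.mem_filter]
      refine ⟨by simpa using hv, fun _ => v, rfl, rfl, ?_, by simp⟩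
      intro j hj
      have : j = 0 := by omega
      subst this
      exact hv0
    have := Finset.card_pos.2 ⟨v, this⟩
    have h2 : min (2 ^ 0) s ≤ 1 := by simp
    omega
  | succ i ih =>
    intro hi
    have h1 := ih (by omega)
    obtain ⟨A, hA1, hA2⟩ := Finset.exists_subset_card_eq h1
    set N := (good c κ U L (L - (i + 1))).filter (Reach G U v (i + 1)) with hN
    have hpos : 0 < min (2 ^ i) s := by
      have : 0 < 2 ^ i := by positivity
      omega
    have hANe : A.Nonempty := Finset.card_pos.1 (by omega)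
    have hAU : A ⊆ U i := by
      intro x hx
      have := hA1 hx
      rw [Finset.mem_filter] at this
      have h2 := good_subset U L (L - i) this.1
      have h3 : L - (L - i) = i := by omega
      rwa [h3] at h2
    have hGU : good c κ U L (L - (i + 1)) ⊆ U (i + 1) := by
      have h2 := good_subset (c := c) (κ := κ) U L (L - (i + 1))
      have h3 : L - (L - (i + 1)) = i + 1 := by omega
      rwa [h3] at h2
    have hdi := hd i (by omega)
    have hdisj : Disjoint A N :=
      Finset.disjoint_of_subset_left hAU (Finset.disjoint_of_subset_right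
        ((Finset.filter_subset _ _).trans hGU) hdi)
    have hlt : 2 * A.card < N.card := by
      by_contra hcon
      obtain ⟨x, hx, hx2⟩ := h.exp A N hANe (by omega) (by omega) hdisj
      have hxA := hA1 hx
      rw [Finset.mem_filter] at hxA
      obtain ⟨hxg, hxr⟩ := hxA
      have h4 : L - i = (L - (i + 1)) + 1 := by omega
      rw [h4] at hxg
      simp only [good, Finset.mem_filter] at hxg
      have hnot : x ∉ good c κ U L (L - (i + 1)) := by
        intro hx3
        exact Finset.disjoint_left.1 hdi (hAU hx) (hGU hx3)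
      have h5 := h.mono x (good c κ U L (L - (i + 1))) N hnot (by
        intro y hy hxy
        rw [hN, Finset.mem_filter]
        refine ⟨hy, ?_⟩
        obtain ⟨z, hz0, hzi, hzU, hzA⟩ := hxr
        refine ⟨fun j => if j ≤ i then z j else y, by simp [hz0], by simp, ?_, ?_⟩
        · intro j hj
          by_cases hji : j ≤ i
          · simp only [hji, if_true]; exact hzU j hji
          · have : j = i + 1 := by omega
            subst this
            simp only [hji, if_false]
            exact hGU hy
        · intro j hj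
          by_cases hji : j + 1 ≤ i
          · have : j ≤ i := by omega
            simp only [hji, this, if_true]
            exact hzA j (by omega)
          · have : j = i := by omega
            subst this
            simp only [le_refl, if_true, hji, if_false]
            rw [hzi]
            exact hxy)
      have := hxg.2
      omega
    have h6 : min (2 ^ (i + 1)) s ≤ 2 * min (2 ^ i) s := by
      rw [pow_succ]
      omega
    omega

theorem one_side (h : Expander G c κ w s) (hs : 1 ≤ s) (L : ℕ) (hL : s ≤ 2 ^ L)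
    (U : ℕ → Finset V) (hd : ∀ i < L, Disjoint (U i) (U (i + 1)))
    (hc : ∀ i ≤ L, (U i).card = w) :
    ∃ bad : Finset V, 4 * bad.card ≤ w ∧ ∀ v ∈ U 0, v ∉ bad →
      ∃ R : Finset V, R ⊆ U L ∧ s ≤ R.card ∧ ∀ y ∈ R, Reach G U v L y := by
  classical
  refine ⟨(U (L - L)) \ good c κ U L L, good_card h U L hd hc L le_rfl, ?_⟩
  intro v hv hvb
  have hvg : v ∈ good c κ U L L := by
    by_contra hcon
    apply hvb
    rw [Finset.mem_sdiff]
    exact ⟨by simpa using hv, hcon⟩
  refine ⟨(good c κ U L (L - L)).filter (Reach G U v L), ?_, ?_, ?_⟩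
  · refine (Finset.filter_subset _ _).trans ?_
    simp [good]
  · have := reach_card h hs U L hd v hvg L le_rfl
    rw [min_eq_right hL] at this
    exact this
  · intro y hy
    exact (Finset.mem_filter.1 hy).2

theorem core_cycle (h : Expander G c κ w s) (hs : 1 ≤ s) (hw : 1 ≤ w) (L : ℕ) (hL1 : 1 ≤ L)
    (hL : s ≤ 2 ^ L) (W : ℕ → Finset V)
    (hd : ∀ i j, i ≤ 2 * L → j ≤ 2 * L → i ≠ j → Disjoint (W i) (W j))
    (hc : ∀ i ≤ 2 * L, (W i).card = w) :
    ∃ x : ℕ → V, (∀ i ≤ 2 * L, x i ∈ W i) ∧ (∀ i < 2 * L, G.Adj (x i) (x (i + 1))) ∧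
      G.Adj (x 0) (x (2 * L)) := by
  obtain ⟨b1, hb1, h1⟩ := one_side h hs L hL (fun i => W (L + i))
    (fun i hi => hd _ _ (by omega) (by omega) (by omega)) (fun i hi => hc _ (by omega))
  obtain ⟨b2, hb2, h2⟩ := one_side h hs L hL (fun i => W (L - i))
    (fun i hi => hd _ _ (by omega) (by omega) (by omega)) (fun i hi => hc _ (by omega))
  have hex : ∃ v ∈ W L, v ∉ b1 ∧ v ∉ b2 := by
    by_contra hcon
    push Not at hcon
    have hsub : W L ⊆ b1 ∪ b2 := by
      intro v hv
      rw [Finset.mem_union]
      by_cases hv1 : v ∈ b1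
      · exact Or.inl hv1
      · exact Or.inr (hcon v hv hv1)
    have h3 := Finset.card_le_card hsub
    have h4 := Finset.card_union_le b1 b2
    rw [hc L (by omega)] at h3
    omega
  obtain ⟨v, hv, hv1, hv2⟩ := hex
  obtain ⟨R1, hR1, hR1s, hR1r⟩ := h1 v (by simpa using hv) hv1
  obtain ⟨R2, hR2, hR2s, hR2r⟩ := h2 v (by simpa using hv) hv2
  have hdR : Disjoint R2 R1 := by
    refine Finset.disjoint_of_subset_left hR2 (Finset.disjoint_of_subset_right hR1 ?_)
    exact hd _ _ (by omega) (by omega) (by omega)
  obtain ⟨a, ha, b, hb, hab⟩ := h.join R2 R1 hdR hR2s hR1s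
  obtain ⟨x, hx0, hxL, hxU, hxA⟩ := hR1r b hb
  obtain ⟨y, hy0, hyL, hyU, hyA⟩ := hR2r a ha
  refine ⟨fun j => if j ≤ L then y (L - j) else x (j - L), ?_, ?_, ?_⟩
  · intro i hi
    by_cases hiL : i ≤ L
    · simp only [hiL, if_true]
      have h6 := hyU (L - i) (by omega)
      have h5 : L - (L - i) = i := by omega
      simp only [h5] at h6
      exact h6
    · simp only [hiL, if_false]
      have h6 := hxU (i - L) (by omega)
      have h5 : L + (i - L) = i := by omega
      simp only [h5] at h6
      exact h6
  · intro i hi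
    by_cases hiL : i + 1 ≤ L
    · have hi2 : i ≤ L := by omega
      simp only [hiL, hi2, if_true]
      have := hyA (L - (i + 1)) (by omega)
      have h5 : L - (i + 1) + 1 = L - i := by omega
      rw [h5] at this
      exact this.symm
    · by_cases hi2 : i ≤ L
      · have hiL2 : i = L := by omega
        subst hiL2
        simp only [le_refl, if_true, hiL, if_false]
        have h5 : i + 1 - i = 1 := by omega
        rw [h5, Nat.sub_self, hy0, ← hx0]
        exact hxA 0 (by omega)
      · simp only [hiL, hi2, if_false]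
        have := hxA (i - L) (by omega)
        have h5 : i - L + 1 = i + 1 - L := by omega
        rw [h5] at this
        exact this
  · have h5 : ¬ (2 * L ≤ L) := by omega
    have h6 : 2 * L - L = L := by omega
    simp only [Nat.zero_le, if_true, h5, if_false, Nat.sub_zero, h6]
    rw [hyL, hxL]
    exact hab

end

/-- A finite acyclic orientation is compatible with a numbering of the vertices. -/
theorem exists_numbering {V : Type*} [Fintype V] (D : V → V → Prop)
    (hD : ∀ v, ¬ Relation.TransGen D v v) :
    ∃ e : V ≃ Fin (Fintype.card V), ∀ u v, D u v → e u < e v := by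
  classical
  have hpo : IsPartialOrder V (Relation.ReflTransGen D) :=
    { refl := fun a => Relation.ReflTransGen.refl
      trans := fun a b c hab hbc => hab.trans hbc
      antisymm := fun a b hab hba => by
        by_contra hne
        rcases Relation.reflTransGen_iff_eq_or_transGen.1 hab with h1 | h1
        · exact hne h1.symm
        · rcases Relation.reflTransGen_iff_eq_or_transGen.1 hba with h2 | h2
          · exact hne h2
          · exact hD a (h1.trans h2) }
  obtain ⟨r, hr, hle⟩ := extend_partialOrder (Relation.ReflTransGen D)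
  let _ : LinearOrder V :=
    { le := r
      le_refl := fun a => refl_of r a
      le_trans := fun a b c hab hbc => trans_of r hab hbc
      le_antisymm := fun a b hab hba => antisymm_of r hab hba
      le_total := fun a b => total_of r a b
      toDecidableLE := Classical.decRel _ }
  refine ⟨(Fintype.orderIsoFinOfCardEq V rfl).symm.toEquiv, ?_⟩
  intro u v huv
  have h1 : u ≤ v := hle _ _ (Relation.ReflTransGen.single huv)
  have h2 : u ≠ v := by
    intro h
    subst h
    exact hD u (Relation.TransGen.single huv)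
  exact (Fintype.orderIsoFinOfCardEq V rfl).symm.lt_iff_lt.2 (lt_of_le_of_ne h1 h2)

theorem clique_of_semiTransitive {V : Type*} [Fintype V] [DecidableEq V] {G : SimpleGraph V}
    {c : V → Finset V → ℕ} {κ w s : ℕ} (hG : SemiTransitive G) (h : Expander G c κ w s)
    (hs : 1 ≤ s) (hw : 1 ≤ w) (L : ℕ) (hL1 : 1 ≤ L) (hL : s ≤ 2 ^ L)
    (hn : (2 * L + 1) * w ≤ Fintype.card V) : ¬ G.CliqueFree (2 * L + 1) := by
  obtain ⟨D, h1, h2, h3, h4, h5⟩ := hG
  obtain ⟨e, he⟩ := exists_numbering D h4
  let W : ℕ → Finset V := fun i =>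
    Finset.univ.filter (fun v => i * w ≤ (e v : ℕ) ∧ (e v : ℕ) < (i + 1) * w)
  have hWmem : ∀ i v, v ∈ W i ↔ i * w ≤ (e v : ℕ) ∧ (e v : ℕ) < (i + 1) * w := by
    intro i v
    simp [W]
  have hcard : ∀ i ≤ 2 * L, (W i).card = w := by
    intro i hi
    have h6 : (W i).card = (Finset.Ico (i * w) ((i + 1) * w)).card := by
      refine Finset.card_bij (fun v _ => (e v : ℕ)) ?_ ?_ ?_
      · intro v hv
        rw [hWmem] at hv
        exact Finset.mem_Ico.2 hv
      · intro a _ b _ hab
        exact e.injective (Fin.ext hab)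
      · intro k hk
        rw [Finset.mem_Ico] at hk
        have hkn : k < Fintype.card V := by
          refine lt_of_lt_of_le hk.2 (le_trans ?_ hn)
          exact Nat.mul_le_mul_right w (by omega)
        refine ⟨e.symm ⟨k, hkn⟩, ?_, ?_⟩
        · rw [hWmem]
          simpa using hk
        · simp
    rw [h6, Nat.card_Ico]
    rw [Nat.add_mul, one_mul, Nat.add_sub_cancel_left]
  have hlt : ∀ i j u v, i < j → u ∈ W i → v ∈ W j → (e u : ℕ) < (e v : ℕ) := by
    intro i j u v hij hu hv
    rw [hWmem] at hu hv
    have : (i + 1) * w ≤ j * w := Nat.mul_le_mul_right w hij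
    omega
  have hdis : ∀ i j, i ≤ 2 * L → j ≤ 2 * L → i ≠ j → Disjoint (W i) (W j) := by
    intro i j _ _ hij
    rw [Finset.disjoint_left]
    intro v hvi hvj
    rcases Nat.lt_or_gt_of_ne hij with h6 | h6
    · exact lt_irrefl _ (hlt i j v v h6 hvi hvj)
    · exact lt_irrefl _ (hlt j i v v h6 hvj hvi)
  obtain ⟨x, hxW, hxA, hx0⟩ := core_cycle h hs hw L hL1 hL W hdis hcard
  have hDxy : ∀ i j, i < j → j ≤ 2 * L → G.Adj (x i) (x j) → D (x i) (x j) := by
    intro i j hij hj hadj
    rcases h2 _ _ hadj with h6 | h6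
    · exact h6
    · exfalso
      have h7 := he _ _ h6
      have h8 := hlt i j _ _ hij (hxW i (by omega)) (hxW j hj)
      have h9 : (e (x j) : ℕ) < (e (x i) : ℕ) := h7
      omega
  have hinj : ∀ i j, i ≤ 2 * L → j ≤ 2 * L → x i = x j → i = j := by
    intro i j hi hj hij
    by_contra hne
    rcases Nat.lt_or_gt_of_ne hne with h6 | h6
    · have := hlt i j _ _ h6 (hxW i hi) (hxW j hj)
      rw [hij] at this
      exact lt_irrefl _ this
    · have := hlt j i _ _ h6 (hxW j hj) (hxW i hi)
      rw [hij] at this
      exact lt_irrefl _ this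
  have hall := h5 (2 * L) x hinj (fun i hi => hDxy i (i + 1) (by omega) (by omega) (hxA i hi))
    (hDxy 0 (2 * L) (by omega) le_rfl hx0)
  intro hfree
  apply hfree ((Finset.range (2 * L + 1)).image x)
  rw [SimpleGraph.isNClique_iff]
  refine ⟨?_, ?_⟩
  · intro a ha b hb hab
    simp only [Finset.coe_image, Finset.coe_range, Set.mem_image, Set.mem_Iio] at ha hb
    obtain ⟨i, hi, rfl⟩ := ha
    obtain ⟨j, hj, rfl⟩ := hb
    have hne : i ≠ j := fun h => hab (by rw [h])
    rcases Nat.lt_or_gt_of_ne hne with h6 | h6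
    · exact h1 _ _ (hall i j h6 (by omega))
    · exact (h1 _ _ (hall j i h6 (by omega))).symm
  · rw [Finset.card_image_of_injOn, Finset.card_range]
    intro i hi j hj hij
    simp only [Finset.coe_range, Set.mem_Iio] at hi hj
    exact hinj i j (by omega) (by omega) hij

end Pool.Agent.MP_e3911d_co
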