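import Mathlib

/-!
# MP_e3911d_co: counting functions
-/

namespace Pool.Agent.MP_e3911d_co

open Classical in
/-- The number of elements with the property `P`, as a real number. -/
noncomputable def num {α : Type*} [Fintype α] (P : α → Prop) : ℝ :=
  ((Finset.univ.filter P).card : ℝ)

theorem num_le_card {α : Type*} [Fintype α] {P : α → Prop} {s : Finset α}
    (h : ∀ x, P x → x ∈ s) : num P ≤ s.card := by
  classical
  unfold num
  refine Nat.cast_le.2 (Finset.card_le_card ?_)
  intro x hx
  rw [Finset.mem_filter] at hx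
  exact h x hx.2

theorem num_mono {α : Type*} [Fintype α] {P Q : α → Prop} (h : ∀ x, P x → Q x) :
    num P ≤ num Q := by
  classical
  exact num_le_card fun x hx => by
    rw [Finset.mem_filter]
    exact ⟨Finset.mem_univ _, h x hx⟩

theorem num_union {α ι : Type*} [Fintype α] (I : Finset ι) (P : ι → α → Prop) :
    num (fun x => ∃ i ∈ I, P i x) ≤ ∑ i ∈ I, num (P i) := by
  classical
  have h1 : num (fun x => ∃ i ∈ I, P i x) ≤
      ((I.biUnion (fun i => Finset.univ.filter (P i))).card : ℝ) := by
    refine num_le_card ?_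
    rintro x ⟨i, hi, h2⟩
    rw [Finset.mem_biUnion]
    exact ⟨i, hi, by rw [Finset.mem_filter]; exact ⟨Finset.mem_univ _, h2⟩⟩
  refine h1.trans ?_
  have h2 : (I.biUnion (fun i => Finset.univ.filter (P i))).card ≤
      ∑ i ∈ I, (Finset.univ.filter (P i)).card := Finset.card_biUnion_le
  unfold num
  refine (Nat.cast_le.2 h2).trans (le_of_eq ?_)
  rw [Nat.cast_sum]

theorem num_nonneg {α : Type*} [Fintype α] (P : α → Prop) : 0 ≤ num P := Nat.cast_nonneg _

/-- The number of coordinates of `g` with value in `B`. -/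
def hits {V : Type*} [DecidableEq V] {d : ℕ} (g : Fin d → V) (B : Finset V) : ℕ :=
  (Finset.univ.filter (fun i => g i ∈ B)).card

section

variable {V : Type*} [DecidableEq V] {d : ℕ}

theorem hits_mono (g : Fin d → V) {B C : Finset V} (h : B ⊆ C) : hits g B ≤ hits g C := by
  unfold hits
  refine Finset.card_le_card ?_
  intro i hi
  rw [Finset.mem_filter] at hi ⊢
  exact ⟨hi.1, h hi.2⟩

variable [Fintype V]

theorem sum_pow_hits (B : Finset V) (x : ℝ) :
    ∑ g : Fin d → V, x ^ hits g B = ((Fintype.card V : ℝ) + (x - 1) * B.card) ^ d := by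
  have h1 : ∀ g : Fin d → V, x ^ hits g B = ∏ i, (if g i ∈ B then x else 1) := by
    intro g
    rw [Finset.prod_ite, Finset.prod_const, Finset.prod_const_one, mul_one]
    rfl
  have h2 : ∑ v : V, (if v ∈ B then x else 1) = (Fintype.card V : ℝ) + (x - 1) * B.card := by
    have h3 : ∀ v : V, (if v ∈ B then x else 1) = 1 + (if v ∈ B then x - 1 else 0) := by
      intro v
      split_ifs <;> ring
    rw [Finset.sum_congr rfl fun v _ => h3 v, Finset.sum_add_distrib]
    rw [Finset.sum_ite_mem, Finset.univ_inter, Finset.sum_const, Finset.sum_const,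
      Finset.card_univ, nsmul_eq_mul, nsmul_eq_mul]
    ring
  rw [Finset.sum_congr rfl fun g _ => h1 g, ← h2, Fintype.sum_pow]

theorem tail (B : Finset V) (hV : 0 < Fintype.card V) {x c : ℝ} (hx : 0 ≤ x) (hc : 0 ≤ c)
    (P : (Fin d → V) → Prop) (h : ∀ g, P g → 1 ≤ c * x ^ hits g B) :
    num P ≤
      c * Real.exp (d * ((x - 1) * B.card / Fintype.card V)) * (Fintype.card V : ℝ) ^ d := by
  classical
  unfold num
  have hV' : (0 : ℝ) < Fintype.card V := by exact_mod_cast hV
  have hB : (B.card : ℝ) ≤ Fintype.card V := by exact_mod_cast Finset.card_le_univ B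
  have h1 : ((Finset.univ.filter P).card : ℝ) ≤ ∑ g : Fin d → V, c * x ^ hits g B := by
    rw [Finset.card_filter]
    push_cast
    refine Finset.sum_le_sum fun g _ => ?_
    split_ifs with hg
    · exact h g hg
    · positivity
  rw [← Finset.mul_sum, sum_pow_hits] at h1
  refine h1.trans ?_
  have h2 : (Fintype.card V : ℝ) + (x - 1) * B.card ≤
      Real.exp ((x - 1) * B.card / Fintype.card V) * Fintype.card V := by
    have h3 := Real.add_one_le_exp ((x - 1) * B.card / Fintype.card V)
    have h4 := mul_le_mul_of_nonneg_right h3 hV'.le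
    refine le_trans (le_of_eq ?_) h4
    field_simp
    ring
  have h5 : 0 ≤ (Fintype.card V : ℝ) + (x - 1) * B.card := by
    nlinarith [Nat.cast_nonneg (α := ℝ) B.card]
  have h6 := pow_le_pow_left₀ h5 h2 d
  rw [mul_pow, ← Real.exp_nat_mul] at h6
  calc c * ((Fintype.card V : ℝ) + (x - 1) * B.card) ^ d
      ≤ c * (Real.exp (d * ((x - 1) * B.card / Fintype.card V)) * (Fintype.card V : ℝ) ^ d) :=
        mul_le_mul_of_nonneg_left h6 hc
    _ = _ := by ring

/-- The rows of a random function are independent. -/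
theorem card_rows (S : Finset V) {b : ℝ} (P : V → (Fin d → V) → Prop)
    (h : ∀ v ∈ S, num (P v) ≤ b * (Fintype.card V : ℝ) ^ d) :
    num (fun f : V → Fin d → V => ∀ v ∈ S, P v (f v)) ≤
      b ^ S.card * (Fintype.card (V → Fin d → V) : ℝ) := by
  classical
  have h1 : num (fun f : V → Fin d → V => ∀ v ∈ S, P v (f v)) ≤
      ((Fintype.piFinset (fun v => if v ∈ S then Finset.univ.filter (P v) else
        Finset.univ)).card : ℝ) := by
    refine num_le_card fun f hf => ?_
    rw [Fintype.mem_piFinset]
    intro v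
    split_ifs with hv
    · rw [Finset.mem_filter]
      exact ⟨Finset.mem_univ _, hf v hv⟩
    · exact Finset.mem_univ _
  refine h1.trans ?_
  rw [Fintype.card_piFinset]
  push_cast
  have h2 : ∀ v : V, (((if v ∈ S then Finset.univ.filter (P v) else Finset.univ :
      Finset (Fin d → V)).card : ℕ) : ℝ) ≤
      (if v ∈ S then b else 1) * (Fintype.card V : ℝ) ^ d := by
    intro v
    split_ifs with hv
    · exact h v hv
    · simp
  refine (Finset.prod_le_prod (fun v _ => by positivity) fun v _ => h2 v).trans ?_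
  rw [Finset.prod_mul_distrib, Finset.prod_ite_mem, Finset.prod_const, Finset.prod_const]
  simp

end

/-- The number of subsets. -/
theorem choose_le (n k : ℕ) (hk : 1 ≤ k) : (n.choose k : ℝ) ≤ (3 * n / k) ^ k := by
  have h1 : (n.choose k : ℝ) ≤ (n : ℝ) ^ k / k.factorial := Nat.choose_le_pow_div k n
  have h2 : (k : ℝ) ^ k / k.factorial ≤ 3 ^ k := by
    have h3 := Real.pow_div_factorial_le_exp (k : ℝ) (by positivity) k
    refine h3.trans ?_
    have h4 : Real.exp k = Real.exp 1 ^ k := by
      rw [← Real.exp_nat_mul, mul_one]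
    rw [h4]
    refine pow_le_pow_left₀ (Real.exp_pos 1).le ?_ k
    have := Real.exp_one_lt_d9
    linarith
  have hk' : (0 : ℝ) < k := by exact_mod_cast hk
  have h5 : (n : ℝ) ^ k / k.factorial = (n / k : ℝ) ^ k * ((k : ℝ) ^ k / k.factorial) := by
    rw [div_pow]
    field_simp
  rw [h5] at h1
  refine h1.trans ?_
  calc (n / k : ℝ) ^ k * ((k : ℝ) ^ k / k.factorial) ≤ (n / k : ℝ) ^ k * 3 ^ k :=
        mul_le_mul_of_nonneg_left h2 (by positivity)
    _ = (3 * n / k) ^ k := by rw [← mul_pow]; ring

end Pool.Agent.MP_e3911d_co
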