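import Pool.Agent.Lib.MP_e3911d_co.Count

/-!
# MP_e3911d_co: short cycles and degrees of the random function
-/

namespace Pool.Agent.MP_e3911d_co

/-- Cyclic successor. -/
def nx {l : ℕ} (j : Fin l) : Fin l :=
  ⟨(j.1 + 1) % l, Nat.mod_lt _ (Nat.lt_of_le_of_lt (Nat.zero_le _) j.2)⟩

theorem nx_injective {l : ℕ} : Function.Injective (nx : Fin l → Fin l) := by
  intro i j h
  have h1 : (i.1 + 1) % l = (j.1 + 1) % l := congrArg Fin.val h
  have hi := i.2
  have hj := j.2
  apply Fin.ext
  rcases Nat.lt_or_ge (i.1 + 1) l with h2 | h2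
  · rw [Nat.mod_eq_of_lt h2] at h1
    rcases Nat.lt_or_ge (j.1 + 1) l with h3 | h3
    · rw [Nat.mod_eq_of_lt h3] at h1
      omega
    · have : j.1 + 1 = l := by omega
      rw [this, Nat.mod_self] at h1
      omega
  · have h4 : i.1 + 1 = l := by omega
    rw [h4, Nat.mod_self] at h1
    rcases Nat.lt_or_ge (j.1 + 1) l with h3 | h3
    · rw [Nat.mod_eq_of_lt h3] at h1
      omega
    · omega

theorem nx_nx_ne {l : ℕ} (hl : 3 ≤ l) (j : Fin l) : nx (nx j) ≠ j := by
  intro h
  have h1 : ((j.1 + 1) % l + 1) % l = j.1 := congrArg Fin.val h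
  have hj := j.2
  rcases Nat.lt_or_ge (j.1 + 1) l with h2 | h2
  · rw [Nat.mod_eq_of_lt h2] at h1
    rcases Nat.lt_or_ge (j.1 + 1 + 1) l with h3 | h3
    · rw [Nat.mod_eq_of_lt h3] at h1
      omega
    · have : j.1 + 1 + 1 = l := by omega
      rw [this, Nat.mod_self] at h1
      omega
  · have h4 : j.1 + 1 = l := by omega
    rw [h4, Nat.mod_self, Nat.mod_eq_of_lt (by omega)] at h1
    omega

theorem num_eq_card {α : Type*} [Fintype α] (P : α → Prop) :
    ∃ F : Finset α, (∀ x, x ∈ F ↔ P x) ∧ num P = (F.card : ℝ) := by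
  classical
  refine ⟨@Finset.filter _ P (fun _ => Classical.propDecidable _) Finset.univ, fun x => ?_, rfl⟩
  simp

theorem num_swap {α β : Type*} [Fintype α] [Fintype β] (R : α → β → Prop) :
    ∑ a, num (fun b => R a b) = ∑ b, num (fun a => R a b) := by
  classical
  unfold num
  have h1 : ∀ a, (((Finset.univ.filter (fun b => R a b)).card : ℕ) : ℝ) =
      ∑ b, if R a b then (1 : ℝ) else 0 := by
    intro a
    rw [Finset.card_filter]
    push_cast
    rfl
  have h2 : ∀ b, (((Finset.univ.filter (fun a => R a b)).card : ℕ) : ℝ) =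
      ∑ a, if R a b then (1 : ℝ) else 0 := by
    intro b
    rw [Finset.card_filter]
    push_cast
    rfl
  rw [Finset.sum_congr rfl fun a _ => h1 a, Finset.sum_congr rfl fun b _ => h2 b]
  exact Finset.sum_comm

theorem num_or {α : Type*} [Fintype α] (P Q : α → Prop) :
    num (fun x => P x ∨ Q x) ≤ num P + num Q := by
  classical
  have h1 : num (fun x => P x ∨ Q x) ≤
      ((Finset.univ.filter P ∪ Finset.univ.filter Q).card : ℝ) := by
    refine num_le_card fun x hx => ?_
    rw [Finset.mem_union, Finset.mem_filter, Finset.mem_filter]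
    rcases hx with hx | hx
    · exact Or.inl ⟨Finset.mem_univ _, hx⟩
    · exact Or.inr ⟨Finset.mem_univ _, hx⟩
  refine h1.trans ?_
  unfold num
  have := Finset.card_union_le (Finset.univ.filter P) (Finset.univ.filter Q)
  exact_mod_cast this

theorem markov {α : Type*} [Fintype α] (h : α → ℝ) (h0 : ∀ x, 0 ≤ h x) {E : ℝ}
    (hE : ∑ x, h x ≤ E) {M : ℝ} : num (fun x => M < h x) * M ≤ E := by
  classical
  refine le_trans ?_ hE
  rcases le_total M 0 with hM | hM
  · exact le_trans (mul_nonpos_of_nonneg_of_nonpos (num_nonneg _) hM)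
      (Finset.sum_nonneg fun x _ => h0 x)
  · have h1 : num (fun x => M < h x) * M = ∑ x ∈ Finset.univ.filter (fun x => M < h x), M := by
      rw [Finset.sum_const, nsmul_eq_mul]
      unfold num
      rfl
    rw [h1]
    refine le_trans (Finset.sum_le_sum (g := h) ?_) ?_
    · intro x hx
      rw [Finset.mem_filter] at hx
      exact hx.2.le
    · exact Finset.sum_le_sum_of_subset_of_nonneg (Finset.filter_subset _ _) fun x _ _ => h0 x

section

variable {V : Type*} [Fintype V] {d : ℕ}

/-- Prescribing the values at distinct coordinates. -/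
theorem fix_coords [DecidableEq V] {ι : Type*} [Fintype ι] (c : ι → V × Fin d)
    (hc : Function.Injective c)
    (y : ι → V) : num (fun f : V → Fin d → V => ∀ j, f (c j).1 (c j).2 = y j) *
      (Fintype.card V : ℝ) ^ Fintype.card ι ≤ (Fintype.card (V → Fin d → V) : ℝ) := by
  classical
  obtain ⟨F, hF⟩ : ∃ F : Finset (V → Fin d → V),
      ∀ f, f ∈ F ↔ ∀ j, f (c j).1 (c j).2 = y j :=
    ⟨Finset.univ.filter (fun f : V → Fin d → V => ∀ j, f (c j).1 (c j).2 = y j), fun f => by
      rw [Finset.mem_filter]
      exact ⟨fun h => h.2, fun h => ⟨Finset.mem_univ _, h⟩⟩⟩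
  have h0 : num (fun f : V → Fin d → V => ∀ j, f (c j).1 (c j).2 = y j) ≤ (F.card : ℝ) :=
    num_le_card fun f hf => (hF f).2 hf
  have h1 : (F ×ˢ (Finset.univ : Finset (ι → V))).card ≤
      (Finset.univ : Finset (V → Fin d → V)).card := by
    refine Finset.card_le_card_of_injOn
      (fun z v i => Function.extend c z.2 (fun w => z.1 w.1 w.2) (v, i))
      (fun _ _ => Finset.mem_univ _) ?_
    rintro ⟨f, g⟩ hf ⟨f', g'⟩ hf' h
    rw [Finset.mem_coe, Finset.mem_product, hF] at hf hf'
    have h2 : ∀ w : V × Fin d, Function.extend c g (fun w => f w.1 w.2) w =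
        Function.extend c g' (fun w => f' w.1 w.2) w := by
      intro w
      exact congrFun (congrFun h w.1) w.2
    have h3 : g = g' := by
      funext j
      have := h2 (c j)
      rwa [hc.extend_apply, hc.extend_apply] at this
    have h4 : f = f' := by
      funext v i
      by_cases hj : ∃ j, c j = (v, i)
      · obtain ⟨j, hj⟩ := hj
        have e1 := hf.1 j
        have e2 := hf'.1 j
        simp only [hj] at e1 e2
        rw [e1, e2]
      · have := h2 (v, i)
        rwa [Function.extend_apply' _ _ _ hj, Function.extend_apply' _ _ _ hj] at this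
    rw [h3, h4]
  rw [Finset.card_product, Finset.card_univ, Finset.card_univ, Fintype.card_fun] at h1
  have h2 : ((F.card * Fintype.card V ^ Fintype.card ι : ℕ) : ℝ) ≤
      (Fintype.card (V → Fin d → V) : ℝ) := Nat.cast_le.2 h1
  rw [Nat.cast_mul, Nat.cast_pow] at h2
  exact le_trans (mul_le_mul_of_nonneg_right h0 (by positivity)) h2

/-- `p` is a closed sequence of distinct vertices, the adjacencies being those given by `e`. -/
def Ev (f : V → Fin d → V) {l : ℕ} (p : Fin l → V) (e : Fin l → Bool × Fin d) : Prop :=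
  Function.Injective p ∧ ∀ j, ((e j).1 = true ∧ f (p j) (e j).2 = p (nx j)) ∨
    ((e j).1 = false ∧ f (p (nx j)) (e j).2 = p j)

theorem num_ev [DecidableEq V] {l : ℕ} (hl : 3 ≤ l) (p : Fin l → V) (e : Fin l → Bool × Fin d) :
    num (fun f : V → Fin d → V => Ev f p e) * (Fintype.card V : ℝ) ^ l ≤
      (Fintype.card (V → Fin d → V) : ℝ) := by
  classical
  set c : Fin l → V × Fin d := fun j => (if (e j).1 = true then p j else p (nx j), (e j).2) with hc
  set y : Fin l → V := fun j => if (e j).1 = true then p (nx j) else p j with hy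
  have hev : ∀ f : V → Fin d → V, Ev f p e → ∀ j, f (c j).1 (c j).2 = y j := by
    intro f hf j
    rcases hf.2 j with ⟨h1, h2⟩ | ⟨h1, h2⟩
    · simp only [hc, hy, h1, if_true]
      exact h2
    · simp only [hc, hy, h1, Bool.false_eq_true, if_false]
      exact h2
  by_cases hinj : Function.Injective c
  · have h1 := fix_coords c hinj y
    rw [Fintype.card_fin] at h1
    refine le_trans (mul_le_mul_of_nonneg_right ?_ (by positivity)) h1
    exact num_mono fun f hf => hev f hf
  · have h0 : num (fun f : V → Fin d → V => Ev f p e) ≤ 0 := by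
      have : num (fun f : V → Fin d → V => Ev f p e) ≤
          ((∅ : Finset (V → Fin d → V)).card : ℝ) := by
        refine num_le_card fun f hf => ?_
        exfalso
        apply hinj
        intro i j hij
        have hpi := hf.1
        have h1 : (c i).1 = (c j).1 := congrArg Prod.fst hij
        have h2 : y i = y j := by
          rw [← hev f hf i, ← hev f hf j, hij]
        by_cases hi : (e i).1 = true
        · by_cases hj : (e j).1 = true
          · simp only [hc, hi, hj, if_true] at h1
            exact hpi h1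
          · exfalso
            simp only [hc, hy, hi, hj, if_true] at h1 h2
            simp only [Bool.false_eq_true, if_false] at h1 h2
            have h3 := hpi h1
            have h4 := hpi h2
            rw [h3] at h4
            exact nx_nx_ne hl j h4
        · by_cases hj : (e j).1 = true
          · exfalso
            simp only [hc, hy, hi, hj, if_true] at h1 h2
            simp only [Bool.false_eq_true, if_false] at h1 h2
            have h3 := hpi h1
            have h4 := hpi h2
            rw [← h3] at h4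
            exact nx_nx_ne hl i h4.symm
          · simp only [hc, hi, hj] at h1
            simp only [Bool.false_eq_true, if_false] at h1
            exact nx_injective (hpi h1)
      simpa using this
    have h1 : num (fun f : V → Fin d → V => Ev f p e) * (Fintype.card V : ℝ) ^ l ≤ 0 :=
      mul_nonpos_of_nonpos_of_nonneg h0 (by positivity)
    exact h1.trans (Nat.cast_nonneg _)

/-- The number of short closed sequences. -/
noncomputable def shorts (g : ℕ) (f : V → Fin d → V) : ℝ :=
  ∑ l ∈ Finset.Ico 3 g,
    num (fun x : (Fin l → V) × (Fin l → Bool × Fin d) => Ev f x.1 x.2)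

theorem shorts_nonneg (g : ℕ) (f : V → Fin d → V) : 0 ≤ shorts g f :=
  Finset.sum_nonneg fun _ _ => num_nonneg _

theorem geom_le {x : ℝ} (hx : 2 ≤ x) (g : ℕ) : ∑ l ∈ Finset.Ico 3 g, x ^ l ≤ x ^ g := by
  have h : ∀ g : ℕ, ∑ l ∈ Finset.range g, x ^ l ≤ x ^ g := by
    intro g
    induction g with
    | zero => simp
    | succ g ih =>
      rw [Finset.sum_range_succ, pow_succ]
      have : 0 ≤ x ^ g := by positivity
      nlinarith
  refine le_trans (Finset.sum_le_sum_of_subset_of_nonneg ?_ fun l _ _ => by positivity) (h g)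
  intro l hl
  rw [Finset.mem_Ico] at hl
  rw [Finset.mem_range]
  exact hl.2

theorem sum_shorts [DecidableEq V] (hV : 0 < Fintype.card V) (hd : 1 ≤ d) (g : ℕ) :
    ∑ f : V → Fin d → V, shorts g f ≤
      (2 * d : ℝ) ^ g * (Fintype.card (V → Fin d → V) : ℝ) := by
  classical
  have hV' : (0 : ℝ) < Fintype.card V := by exact_mod_cast hV
  unfold shorts
  rw [Finset.sum_comm]
  have h1 : ∀ l ∈ Finset.Ico 3 g, ∑ f : V → Fin d → V,
      num (fun x : (Fin l → V) × (Fin l → Bool × Fin d) => Ev f x.1 x.2) ≤
      (2 * d : ℝ) ^ l * (Fintype.card (V → Fin d → V) : ℝ) := by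
    intro l hl
    rw [Finset.mem_Ico] at hl
    rw [num_swap]
    have hn : (0 : ℝ) < (Fintype.card V : ℝ) ^ l := by positivity
    have h2 : ∀ x : (Fin l → V) × (Fin l → Bool × Fin d),
        num (fun f : V → Fin d → V => Ev f x.1 x.2) ≤
          (Fintype.card (V → Fin d → V) : ℝ) / (Fintype.card V : ℝ) ^ l := by
      intro x
      rw [le_div_iff₀ hn]
      exact num_ev hl.1 x.1 x.2
    refine le_trans (Finset.sum_le_sum fun x _ => h2 x) ?_
    rw [Finset.sum_const, Finset.card_univ, nsmul_eq_mul, Fintype.card_prod, Fintype.card_fun,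
      Fintype.card_fun, Fintype.card_prod, Fintype.card_bool, Fintype.card_fin, Fintype.card_fin]
    rw [Nat.cast_mul, Nat.cast_pow, Nat.cast_pow, Nat.cast_mul]
    generalize (Fintype.card (V → Fin d → V) : ℝ) = N
    apply le_of_eq
    field_simp
    push_cast
    ring
  refine le_trans (Finset.sum_le_sum h1) ?_
  rw [← Finset.sum_mul]
  refine mul_le_mul_of_nonneg_right (geom_le ?_ g) (Nat.cast_nonneg _)
  have : (1 : ℝ) ≤ d := by exact_mod_cast hd
  linarith

theorem bad_short [DecidableEq V] (hV : 0 < Fintype.card V) (hd : 1 ≤ d) (g : ℕ) :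
    num (fun f : V → Fin d → V => 8 * (2 * d : ℝ) ^ g < shorts g f) ≤
      1 / 8 * (Fintype.card (V → Fin d → V) : ℝ) := by
  have h1 := markov (fun f : V → Fin d → V => shorts g f) (fun f => shorts_nonneg g f)
    (sum_shorts hV hd g) (M := 8 * (2 * d : ℝ) ^ g)
  have hp : (0 : ℝ) < (2 * d : ℝ) ^ g := by
    have : (1 : ℝ) ≤ d := by exact_mod_cast hd
    positivity
  generalize (Fintype.card (V → Fin d → V) : ℝ) = N at h1 ⊢
  generalize num (fun f : V → Fin d → V => 8 * (2 * d : ℝ) ^ g < shorts g f) = x at h1 ⊢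
  have h2 : (2 * d : ℝ) ^ g * (8 * x) ≤ (2 * d : ℝ) ^ g * N := by linarith
  have h3 := le_of_mul_le_mul_left h2 hp
  linarith

/-- The number of coordinates with value `x`. -/
noncomputable def indeg (f : V → Fin d → V) (x : V) : ℝ :=
  num (fun z : V × Fin d => f z.1 z.2 = x)

theorem high_indeg [DecidableEq V] (hd : 1 ≤ d) (f : V → Fin d → V) :
    num (fun x : V => 8 * (d : ℝ) < indeg f x) ≤ 1 / 8 * (Fintype.card V : ℝ) := by
  classical
  have h0 : ∑ x, indeg f x ≤ (Fintype.card V : ℝ) * d := by
    unfold indeg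
    rw [num_swap (fun (x : V) (z : V × Fin d) => f z.1 z.2 = x)]
    have h1 : ∀ z : V × Fin d, num (fun x : V => f z.1 z.2 = x) ≤ 1 := by
      intro z
      have : num (fun x : V => f z.1 z.2 = x) ≤ (({f z.1 z.2} : Finset V).card : ℝ) := by
        refine num_le_card fun x hx => ?_
        rw [Finset.mem_singleton]
        exact hx.symm
      simpa using this
    refine le_trans (Finset.sum_le_sum fun z _ => h1 z) ?_
    rw [Finset.sum_const, Finset.card_univ, nsmul_eq_mul, mul_one, Fintype.card_prod,
      Fintype.card_fin, Nat.cast_mul]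
  have h1 := markov (fun x => indeg f x) (fun x => num_nonneg _) h0 (M := 8 * (d : ℝ))
  have hd' : (0 : ℝ) < d := by exact_mod_cast hd
  have h2 : (d : ℝ) * (8 * num (fun x : V => 8 * (d : ℝ) < indeg f x)) ≤
      d * (Fintype.card V : ℝ) := by linarith
  have h3 := le_of_mul_le_mul_left h2 hd'
  linarith

end

end Pool.Agent.MP_e3911d_co
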