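import Pool.Agent.Lib.MP_e3911d_co.Graph

/-!
# MP_e3911d_co: existence of the graph
-/

namespace Pool.Agent.MP_e3911d_co

theorem exists_good {V : Type*} [DecidableEq V] [Fintype V] {a t g : ℕ} (ha : 1 ≤ a)
    (hV : Fintype.card V = 64 * 2 ^ t * 2 ^ a) :
    ∃ f : V → Fin (1024 * a * 2 ^ a) → V,
      (¬ ∃ B S : Finset V, B.card = 32 * 2 ^ t ∧
        S.card = 16 * 2 ^ t ∧ ∀ v ∈ S, hits (f v) B < 128 * a) ∧
      (¬ ∃ B S : Finset V, B.card = 2 ^ t ∧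
        S.card = 2 ^ t ∧ ∀ v ∈ S, hits (f v) B = 0) ∧
      (¬ ∃ α ∈ Finset.Icc 1 (2 ^ t),
        ∃ B S : Finset V, B.card = 2 * α ∧ S.card = α ∧
          ∀ v ∈ S, 128 * a ≤ hits (f v) B) ∧
      shorts g f ≤ 8 * (2 * ((1024 * a * 2 ^ a : ℕ) : ℝ)) ^ g := by
  by_contra hcon
  have hV0 : 0 < Fintype.card V := by rw [hV]; positivity
  have hd : 1 ≤ 1024 * a * 2 ^ a := by
    have : 1 ≤ 2 ^ a := Nat.one_le_two_pow
    nlinarith
  have h1 := bad_many (V := V) (d := 1024 * a * 2 ^ a) ha hV rfl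
  have h2 := bad_join (V := V) (d := 1024 * a * 2 ^ a) ha hV rfl
  have h3 := bad_exp (V := V) (d := 1024 * a * 2 ^ a) ha hV rfl
  have h4 := bad_short (V := V) (d := 1024 * a * 2 ^ a) hV0 hd g
  have h5 : ∀ f : V → Fin (1024 * a * 2 ^ a) → V,
      (∃ B S : Finset V, B.card = 32 * 2 ^ t ∧
        S.card = 16 * 2 ^ t ∧ ∀ v ∈ S, hits (f v) B < 128 * a) ∨
      ((∃ B S : Finset V, B.card = 2 ^ t ∧
        S.card = 2 ^ t ∧ ∀ v ∈ S, hits (f v) B = 0) ∨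
      ((∃ α ∈ Finset.Icc 1 (2 ^ t),
        ∃ B S : Finset V, B.card = 2 * α ∧ S.card = α ∧
          ∀ v ∈ S, 128 * a ≤ hits (f v) B) ∨
      8 * (2 * ((1024 * a * 2 ^ a : ℕ) : ℝ)) ^ g < shorts g f)) := by
    intro f
    by_contra h
    rw [not_or, not_or, not_or, not_lt] at h
    exact hcon ⟨f, h.1, h.2.1, h.2.2.1, h.2.2.2⟩
  obtain ⟨F, hF, hFc⟩ := num_eq_card (fun f : V → Fin (1024 * a * 2 ^ a) → V =>
      (∃ B S : Finset V, B.card = 32 * 2 ^ t ∧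
        S.card = 16 * 2 ^ t ∧ ∀ v ∈ S, hits (f v) B < 128 * a) ∨
      ((∃ B S : Finset V, B.card = 2 ^ t ∧
        S.card = 2 ^ t ∧ ∀ v ∈ S, hits (f v) B = 0) ∨
      ((∃ α ∈ Finset.Icc 1 (2 ^ t),
        ∃ B S : Finset V, B.card = 2 * α ∧ S.card = α ∧
          ∀ v ∈ S, 128 * a ≤ hits (f v) B) ∨
      8 * (2 * ((1024 * a * 2 ^ a : ℕ) : ℝ)) ^ g < shorts g f)))
  have h6 : F = Finset.univ := Finset.eq_univ_iff_forall.2 fun f => (hF f).2 (h5 f)
  rw [h6, Finset.card_univ] at hFc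
  have h7 := num_or (fun f : V → Fin (1024 * a * 2 ^ a) → V =>
      (∃ B S : Finset V, B.card = 32 * 2 ^ t ∧
        S.card = 16 * 2 ^ t ∧ ∀ v ∈ S, hits (f v) B < 128 * a)) (fun f =>
      ((∃ B S : Finset V, B.card = 2 ^ t ∧
        S.card = 2 ^ t ∧ ∀ v ∈ S, hits (f v) B = 0) ∨
      ((∃ α ∈ Finset.Icc 1 (2 ^ t),
        ∃ B S : Finset V, B.card = 2 * α ∧ S.card = α ∧
          ∀ v ∈ S, 128 * a ≤ hits (f v) B) ∨
      8 * (2 * ((1024 * a * 2 ^ a : ℕ) : ℝ)) ^ g < shorts g f)))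
  have h8 := num_or (fun f : V → Fin (1024 * a * 2 ^ a) → V =>
      (∃ B S : Finset V, B.card = 2 ^ t ∧
        S.card = 2 ^ t ∧ ∀ v ∈ S, hits (f v) B = 0)) (fun f =>
      ((∃ α ∈ Finset.Icc 1 (2 ^ t),
        ∃ B S : Finset V, B.card = 2 * α ∧ S.card = α ∧
          ∀ v ∈ S, 128 * a ≤ hits (f v) B) ∨
      8 * (2 * ((1024 * a * 2 ^ a : ℕ) : ℝ)) ^ g < shorts g f))
  have h9 := num_or (fun f : V → Fin (1024 * a * 2 ^ a) → V =>
      (∃ α ∈ Finset.Icc 1 (2 ^ t),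
        ∃ B S : Finset V, B.card = 2 * α ∧ S.card = α ∧
          ∀ v ∈ S, 128 * a ≤ hits (f v) B)) (fun f =>
      8 * (2 * ((1024 * a * 2 ^ a : ℕ) : ℝ)) ^ g < shorts g f)
  have hne : Nonempty V := Fintype.card_pos_iff.1 hV0
  have hpos : (0 : ℝ) < (Fintype.card (V → Fin (1024 * a * 2 ^ a) → V) : ℝ) := by
    have : 0 < Fintype.card (V → Fin (1024 * a * 2 ^ a) → V) := Fintype.card_pos
    exact_mod_cast this
  rw [hFc] at h7
  generalize (Fintype.card (V → Fin (1024 * a * 2 ^ a) → V) : ℝ) = N at h1 h2 h3 h4 h7 hpos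
  linarith

theorem exists_graph {a t g : ℕ} (hg : 4 ≤ g) (ha : 1 ≤ a) (ht : 1 ≤ t)
    (h1 : 4 * t + 2 ≤ 2 ^ a) (h2 : (2 * (1024 * a * 2 ^ a)) ^ g ≤ 2 ^ t) :
    ∃ (n : ℕ) (H : SimpleGraph (Fin n)), n ≤ 64 * 2 ^ t * 2 ^ a ∧
      (∀ l, 3 ≤ l → l < g → ¬ Short H l) ∧ ¬ SemiTransitive H ∧
      ∀ x, ((H.neighborSet x).ncard : ℝ) ≤ 9 * ((1024 * a * 2 ^ a : ℕ) : ℝ) := by
  classical
  obtain ⟨f, e1, e2, e3, e4⟩ := exists_good (V := Fin (64 * 2 ^ t * 2 ^ a)) (a := a) (t := t)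
    (g := g) ha (Fintype.card_fin _)
  have hd : 1 ≤ 1024 * a * 2 ^ a := by
    have : 1 ≤ 2 ^ a := Nat.one_le_two_pow
    nlinarith
  generalize hdd : 1024 * a * 2 ^ a = d at f e1 e2 e3 e4 hd h2
  obtain ⟨F, hF, hFc⟩ := num_eq_card (fun x => Start f g x ∨ 8 * (d : ℝ) < indeg f x)
  have h3 : (F.card : ℝ) ≤ 32 * 2 ^ t * 2 ^ a := by
    rw [← hFc]
    have h4 := num_or (Start f g) (fun x => 8 * (d : ℝ) < indeg f x)
    have h5 := num_start f g
    have h6 := high_indeg hd f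
    rw [Fintype.card_fin] at h6
    push_cast at h6
    have h7 : (2 * (d : ℝ)) ^ g ≤ 2 ^ t := by exact_mod_cast h2
    have h8 : (2 : ℝ) ^ t * 2 ≤ 2 ^ t * 2 ^ a := by
      refine mul_le_mul_of_nonneg_left ?_ (by positivity)
      calc (2 : ℝ) = 2 ^ 1 := (pow_one 2).symm
        _ ≤ 2 ^ a := pow_le_pow_right₀ (by norm_num) ha
    nlinarith
  have h3' : F.card ≤ 32 * 2 ^ t * 2 ^ a := by exact_mod_cast h3
  set P : Fin (64 * 2 ^ t * 2 ^ a) → Prop := fun x => x ∉ F with hP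
  set H₀ : SimpleGraph {x // P x} := (gr f).comap Subtype.val with hH₀
  have hcard : Fintype.card {x // P x} = 64 * 2 ^ t * 2 ^ a - F.card := by
    have h5 : Fintype.card {x // P x} = (Fᶜ).card := by
      rw [Fintype.card_subtype]
      congr 1
      ext x
      simp [hP]
    rw [h5, Finset.card_compl, Fintype.card_fin]
  have hcard1 : 32 * 2 ^ t * 2 ^ a ≤ Fintype.card {x // P x} := by
    rw [hcard]
    have e : 64 * 2 ^ t * 2 ^ a = 32 * 2 ^ t * 2 ^ a + 32 * 2 ^ t * 2 ^ a := by ring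
    exact Nat.le_sub_of_add_le ((Nat.add_le_add_left h3' _).trans (le_of_eq e.symm))
  have hcard2 : Fintype.card {x // P x} ≤ 64 * 2 ^ t * 2 ^ a := by
    rw [hcard]
    exact Nat.sub_le _ _
  -- no short closed sequences
  have hshort : ∀ l, 3 ≤ l → l < g → ¬ Short H₀ l := by
    rintro l hl hlg ⟨p, hp, hadj⟩
    have hp' : Function.Injective (fun j => (p j).1) := Subtype.val_injective.comp hp
    obtain ⟨e, he⟩ := ev_of_short f (fun j => (p j).1) hp' (fun j => hadj j)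
    have hl0 : 0 < l := by omega
    apply (p ⟨0, hl0⟩).2
    rw [hF]
    left
    exact ⟨l, Finset.mem_Ico.2 ⟨hl, hlg⟩, fun j => (p j).1, e, he, hl0, rfl⟩
  have hexp := expander_sub (a := a) (t := t) f P (by
    rw [Fintype.card_fin]
    have : 1 ≤ 2 ^ a := Nat.one_le_two_pow
    nlinarith [Nat.zero_le (2 ^ t)]) e1 e2 e3
  have hns : ¬ SemiTransitive H₀ := by
    intro hs
    have h5 := clique_of_semiTransitive hs hexp Nat.one_le_two_pow
      (Nat.succ_le_of_lt (by positivity)) t ht le_rfl (by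
      refine le_trans ?_ hcard1
      calc (2 * t + 1) * (64 * 2 ^ t) = 32 * 2 ^ t * (4 * t + 2) := by ring
        _ ≤ 32 * 2 ^ t * 2 ^ a := Nat.mul_le_mul_left _ h1)
    apply h5
    exact (cliqueFree_of_not_short (hshort 3 le_rfl (by omega))).mono (by omega)
  have hdeg : ∀ x, ((H₀.neighborSet x).ncard : ℝ) ≤ 9 * (d : ℝ) := by
    intro x
    apply degree_le f P x
    have hx : x.1 ∉ F := x.2
    rw [hF, not_or, not_lt] at hx
    exact hx.2
  let φ := Fintype.equivFin {x // P x}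
  let ψ : SimpleGraph.comap φ.symm H₀ ≃g H₀ := SimpleGraph.Iso.comap φ.symm H₀
  refine ⟨Fintype.card {x // P x}, SimpleGraph.comap φ.symm H₀, hcard2, ?_, ?_, ?_⟩
  · rintro l hl hlg ⟨p, hp, hadj⟩
    exact hshort l hl hlg ⟨fun j => φ.symm (p j), φ.symm.injective.comp hp, fun j => hadj j⟩
  · intro hs
    exact hns (hs.of_embedding ψ.symm.toEmbedding)
  · intro x
    refine le_trans ?_ (hdeg (φ.symm x))
    have h5 : (SimpleGraph.comap φ.symm H₀).neighborSet x =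
        φ.symm ⁻¹' (H₀.neighborSet (φ.symm x)) := rfl
    rw [h5]
    have h6 : (φ.symm ⁻¹' (H₀.neighborSet (φ.symm x))).ncard =
        (H₀.neighborSet (φ.symm x)).ncard := by
      rw [← Set.ncard_image_of_injective _ φ.symm.injective,
        Set.image_preimage_eq _ φ.symm.surjective]
    rw [h6]

end Pool.Agent.MP_e3911d_co
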