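import Pool.Agent.Lib.MP_e3911d_co.Cyc

/-!
# MP_e3911d_co: closed sequences and girth
-/

namespace Pool.Agent.MP_e3911d_co

open SimpleGraph

/-- `G` has a closed sequence of `l` distinct vertices. -/
def Short {V : Type*} (G : SimpleGraph V) (l : ℕ) : Prop :=
  ∃ p : Fin l → V, Function.Injective p ∧ ∀ j, G.Adj (p j) (p (nx j))

theorem short_of_cycle {V : Type*} {G : SimpleGraph V} {u : V} (w : G.Walk u u)
    (hw : w.IsCycle) : Short G w.length := by
  have h3 := hw.three_le_length
  refine ⟨fun j => w.getVert j.1, ?_, ?_⟩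
  · intro i j hij
    have hi := i.2
    have hj := j.2
    have h1 : i.1 ∈ {i | i ≤ w.length - 1} := by
      rw [Set.mem_ofPred_eq]
      omega
    have h2 : j.1 ∈ {i | i ≤ w.length - 1} := by
      rw [Set.mem_ofPred_eq]
      omega
    exact Fin.ext (hw.getVert_injOn' h1 h2 hij)
  · intro j
    have hj := j.2
    show G.Adj (w.getVert j.1) (w.getVert (nx j).1)
    have h1 := w.adj_getVert_succ j.2
    by_cases h : j.1 + 1 < w.length
    · have e : (nx j).1 = j.1 + 1 := Nat.mod_eq_of_lt h
      rw [e]
      exact h1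
    · have e : j.1 + 1 = w.length := by omega
      have e2 : (nx j).1 = 0 := by
        show (j.1 + 1) % w.length = 0
        rw [e, Nat.mod_self]
      rw [e2, Walk.getVert_zero]
      rw [e, Walk.getVert_length] at h1
      exact h1

theorem le_egirth_of_not_short {V : Type*} {G : SimpleGraph V} {g : ℕ}
    (h : ∀ l, 3 ≤ l → l < g → ¬ Short G l) : (g : ℕ∞) ≤ G.egirth := by
  rw [le_egirth]
  intro a w hw
  by_contra hcon
  rw [not_le] at hcon
  have h1 : w.length < g := by exact_mod_cast hcon
  exact h w.length hw.three_le_length h1 (short_of_cycle w hw)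

theorem cliqueFree_of_not_short {V : Type*} {G : SimpleGraph V} (h : ¬ Short G 3) :
    G.CliqueFree 3 := by
  classical
  intro s hs
  rw [is3Clique_iff] at hs
  obtain ⟨a, b, c, hab, hac, hbc, -⟩ := hs
  apply h
  refine ⟨![a, b, c], ?_, ?_⟩
  · intro i j hij
    fin_cases i <;> fin_cases j <;> simp_all
  · intro j
    fin_cases j
    · exact hab
    · exact hbc
    · exact hac.symm

theorem short_sum {V W : Type*} {G : SimpleGraph V} {H : SimpleGraph W} {l : ℕ} (hl : 0 < l)
    (h : Short (G ⊕g H) l) : Short G l ∨ Short H l := by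
  obtain ⟨p, hp, hadj⟩ := h
  have h1 : ∀ j, (p (nx j)).isLeft = (p j).isLeft := by
    intro j
    have := hadj j
    revert this
    rcases p j with x | x <;> rcases p (nx j) with y | y <;> intro hxy
    · rfl
    · exact absurd hxy (by simp)
    · exact absurd hxy (by simp)
    · rfl
  have h2 : ∀ m (hm : m < l), (p ⟨m, hm⟩).isLeft = (p ⟨0, hl⟩).isLeft := by
    intro m
    induction m with
    | zero => intro _; rfl
    | succ m ih =>
      intro hm
      have e : nx ⟨m, by omega⟩ = (⟨m + 1, hm⟩ : Fin l) := by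
        apply Fin.ext
        show (m + 1) % l = m + 1
        exact Nat.mod_eq_of_lt hm
      rw [← e, h1, ih]
  by_cases h0 : (p ⟨0, hl⟩).isLeft = true
  · left
    have h3 : ∀ j, ∃ x, p j = Sum.inl x := by
      intro j
      have := h2 j.1 j.2
      rw [h0] at this
      rcases hpj : p j with x | x
      · exact ⟨x, rfl⟩
      · exfalso
        have e : (⟨j.1, j.2⟩ : Fin l) = j := rfl
        rw [e, hpj] at this
        simp at this
    choose q hq using h3
    refine ⟨q, ?_, ?_⟩
    · intro i j hij
      apply hp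
      rw [hq, hq, hij]
    · intro j
      have := hadj j
      rw [hq, hq] at this
      exact sum_adj_inl.1 this
  · right
    have h3 : ∀ j, ∃ x, p j = Sum.inr x := by
      intro j
      have := h2 j.1 j.2
      rcases hpj : p j with x | x
      · exfalso
        have e : (⟨j.1, j.2⟩ : Fin l) = j := rfl
        rw [e, hpj] at this
        exact h0 (by rw [← this]; rfl)
      · exact ⟨x, rfl⟩
    choose q hq using h3
    refine ⟨q, ?_, ?_⟩
    · intro i j hij
      apply hp
      rw [hq, hq, hij]
    · intro j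
      have := hadj j
      rw [hq, hq] at this
      exact sum_adj_inr.1 this

theorem not_short_cycleGraph {g l : ℕ} (hl : 3 ≤ l) (hlg : l < g) :
    ¬ Short (cycleGraph g) l := by
  obtain ⟨n, rfl⟩ : ∃ n, g = n + 2 := ⟨g - 2, by omega⟩
  rintro ⟨p, hp, hadj⟩
  have hns : ¬ Function.Surjective p := by
    intro hs
    have := Fintype.card_le_of_surjective p hs
    rw [Fintype.card_fin, Fintype.card_fin] at this
    omega
  have hr : ∃ r, ∀ j, p j ≠ r := by
    by_contra hcon
    apply hns
    intro r
    by_contra h2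
    exact hcon ⟨r, fun j hj => h2 ⟨j, hj⟩⟩
  obtain ⟨r, hr⟩ := hr
  have : Nonempty (Fin l) := ⟨⟨0, by omega⟩⟩
  obtain ⟨j, hj⟩ := Finite.exists_min (fun j : Fin l => (p j - r).val)
  have hsurj : Function.Surjective (nx : Fin l → Fin l) :=
    Finite.injective_iff_surjective.1 nx_injective
  obtain ⟨k, hk⟩ := hsurj j
  have hpos : p j - r ≠ 0 := sub_ne_zero.2 (hr j)
  have hv : (p j - r - 1).val = (p j - r).val - 1 := Fin.val_sub_one_of_ne_zero hpos
  have hpos' : (p j - r).val ≠ 0 := fun h => hpos (Fin.ext h)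
  have hlow : ∀ i, p i ≠ p j - 1 := by
    intro i hi
    have h1 := hj i
    simp only [hi] at h1
    have e : p j - 1 - r = p j - r - 1 := by abel
    rw [e, hv] at h1
    omega
  have a1 := hadj k
  rw [hk, cycleGraph_adj] at a1
  have a2 := hadj j
  rw [cycleGraph_adj] at a2
  have b1 : p k = p j + 1 := by
    rcases a1 with a | a
    · rw [← a]; abel
    · exfalso
      apply hlow k
      rw [← a]; abel
  have b2 : p (nx j) = p j + 1 := by
    rcases a2 with a | a
    · exfalso
      apply hlow (nx j)
      rw [← a]; abel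
    · rw [← a]; abel
  have b3 : k = nx j := hp (b1.trans b2.symm)
  rw [b3] at hk
  exact nx_nx_ne hl j hk

theorem egirth_sum_cycleGraph {W : Type*} {H : SimpleGraph W} {g : ℕ} (hg : 3 ≤ g)
    (h : ∀ l, 3 ≤ l → l < g → ¬ Short H l) : (H ⊕g cycleGraph g).egirth = (g : ℕ∞) := by
  apply le_antisymm
  · obtain ⟨m, rfl⟩ : ∃ m, g = m + 3 := ⟨g - 3, by omega⟩
    have h1 : (cycleGraph (m + 3)).egirth ≤ ((m + 3 : ℕ) : ℕ∞) := by
      have := egirth_le_length (cycleGraph.isCycle_cycle (n := m))
      rwa [cycleGraph.length_cycle] at this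
    have h2 : cycleGraph (m + 3) ⊑ H ⊕g cycleGraph (m + 3) :=
      ⟨(Embedding.sumInr : cycleGraph (m + 3) ↪g H ⊕g cycleGraph (m + 3)).toCopy⟩
    exact h2.egirth_le.trans h1
  · apply le_egirth_of_not_short
    intro l hl hlg hs
    rcases short_sum (by omega) hs with hs | hs
    · exact h l hl hlg hs
    · exact not_short_cycleGraph hl hlg hs

end Pool.Agent.MP_e3911d_co
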