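import Pool.Agent.Lib.MP_e3911d_co.Count

/-!
# MP_e3911d_co: the random function has the expansion properties
-/

namespace Pool.Agent.MP_e3911d_co

section

variable {V : Type*} [DecidableEq V] [Fintype V] {d : ℕ}

theorem union_pairs (β σ : ℕ) {b : ℝ} (Q : Finset V → (Fin d → V) → Prop)
    (h : ∀ B : Finset V, B.card = β → num (Q B) ≤ b * (Fintype.card V : ℝ) ^ d) :
    num (fun f : V → Fin d → V => ∃ B S : Finset V, B.card = β ∧ S.card = σ ∧
      ∀ v ∈ S, Q B (f v)) ≤
      ((Fintype.card V).choose β : ℝ) * ((Fintype.card V).choose σ : ℝ) * b ^ σ *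
        (Fintype.card (V → Fin d → V) : ℝ) := by
  set I := (Finset.univ : Finset V).powersetCard β ×ˢ (Finset.univ : Finset V).powersetCard σ
    with hI
  have h1 : num (fun f : V → Fin d → V => ∃ B S : Finset V, B.card = β ∧ S.card = σ ∧
      ∀ v ∈ S, Q B (f v)) ≤ num (fun f : V → Fin d → V => ∃ p ∈ I, ∀ v ∈ p.2, Q p.1 (f v)) := by
    refine num_mono ?_
    rintro f ⟨B, S, hB, hS, h2⟩
    refine ⟨(B, S), ?_, h2⟩
    rw [hI, Finset.mem_product, Finset.mem_powersetCard, Finset.mem_powersetCard]
    exact ⟨⟨Finset.subset_univ _, hB⟩, Finset.subset_univ _, hS⟩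
  have h4 : ∀ p ∈ I, num (fun f : V → Fin d → V => ∀ v ∈ p.2, Q p.1 (f v)) ≤
      b ^ σ * (Fintype.card (V → Fin d → V) : ℝ) := by
    intro p hp
    rw [hI, Finset.mem_product, Finset.mem_powersetCard, Finset.mem_powersetCard] at hp
    have := card_rows p.2 (b := b) (fun _ => Q p.1) (fun v _ => h p.1 hp.1.2)
    rw [hp.2.2] at this
    exact this
  have h5 := num_union I (fun (p : Finset V × Finset V) (f : V → Fin d → V) =>
    ∀ v ∈ p.2, Q p.1 (f v))
  have h6 := Finset.sum_le_sum h4
  rw [Finset.sum_const, hI, Finset.card_product, Finset.card_powersetCard,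
    Finset.card_powersetCard, Finset.card_univ, nsmul_eq_mul] at h6
  rw [Nat.cast_mul] at h6
  exact (h1.trans (h5.trans h6)).trans (le_of_eq (mul_assoc _ _ _).symm)

theorem pow_small {q : ℝ} (h0 : 0 ≤ q) (h1 : q ≤ 1 / 8) {σ : ℕ} (hσ : 1 ≤ σ) :
    q ^ σ ≤ 1 / 8 := by
  have := pow_le_pow_of_le_one h0 (by linarith) hσ
  rw [pow_one] at this
  exact this.trans h1

theorem bad_many {a t : ℕ} (ha : 1 ≤ a) (hV : Fintype.card V = 64 * 2 ^ t * 2 ^ a)
    (hd : d = 1024 * a * 2 ^ a) :
    num (fun f : V → Fin d → V => ∃ B S : Finset V, B.card = 32 * 2 ^ t ∧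
      S.card = 16 * 2 ^ t ∧ ∀ v ∈ S, hits (f v) B < 128 * a) ≤
      1 / 8 * (Fintype.card (V → Fin d → V) : ℝ) := by
  set N : ℝ := (Fintype.card (V → Fin d → V) : ℝ) with hN
  have hN0 : 0 ≤ N := Nat.cast_nonneg _
  set A : ℝ := 2 ^ a with hA
  have hA0 : 0 < A := by rw [hA]; positivity
  set s : ℝ := 2 ^ t with hs
  have hs0 : 0 < s := by rw [hs]; positivity
  have hV' : (Fintype.card V : ℝ) = 64 * s * A := by rw [hV]; push_cast; rfl
  have hV0 : 0 < Fintype.card V := by rw [hV]; positivity
  have hd' : (d : ℝ) = 1024 * a * A := by rw [hd]; push_cast; rfl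
  set b : ℝ := 2 ^ (128 * a) * Real.exp (-(256 * a)) with hb
  have hb0 : 0 ≤ b := by rw [hb]; positivity
  have h1 := union_pairs (V := V) (d := d) (32 * 2 ^ t) (16 * 2 ^ t)
    (b := b)
    (fun B g => hits g B < 128 * a) (by
      intro B hB
      have h2 := tail (d := d) B hV0 (x := 1 / 2) (c := 2 ^ (128 * a)) (by norm_num)
        (by positivity) (fun g => hits g B < 128 * a) (by
          intro g hg
          rw [one_div, inv_pow]
          have h3 : (2 : ℝ) ^ hits g B ≤ 2 ^ (128 * a) := pow_le_pow_right₀ (by norm_num) hg.le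
          have h4 : (0 : ℝ) < 2 ^ hits g B := by positivity
          rw [← div_eq_mul_inv, one_le_div h4]
          exact h3)
      refine h2.trans (le_of_eq ?_)
      rw [hb, hV', hd', hB]
      congr 3
      push_cast
      rw [← hs]
      field_simp
      ring)
  refine h1.trans ?_
  have hσ1 : 1 ≤ 16 * 2 ^ t := by
    have : 1 ≤ 2 ^ t := Nat.one_le_two_pow
    omega
  have h2 := choose_le (Fintype.card V) (32 * 2 ^ t) (by omega)
  have h3 := choose_le (Fintype.card V) (16 * 2 ^ t) hσ1
  have h4 : (3 * (Fintype.card V : ℝ) / ((32 * 2 ^ t : ℕ) : ℝ)) ^ (32 * 2 ^ t) =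
      ((6 * A) ^ 2) ^ (16 * 2 ^ t) := by
    rw [← pow_mul]
    have e1 : 2 * (16 * 2 ^ t) = 32 * 2 ^ t := by ring
    rw [e1]
    congr 1
    rw [hV']
    push_cast
    rw [← hs]
    field_simp
    ring
  have h5 : (3 * (Fintype.card V : ℝ) / ((16 * 2 ^ t : ℕ) : ℝ)) ^ (16 * 2 ^ t) =
      (12 * A) ^ (16 * 2 ^ t) := by
    congr 1
    rw [hV']
    push_cast
    rw [← hs]
    field_simp
    ring
  rw [h4] at h2
  rw [h5] at h3
  have h6 : ((Fintype.card V).choose (32 * 2 ^ t) : ℝ) *
      ((Fintype.card V).choose (16 * 2 ^ t) : ℝ) * b ^ (16 * 2 ^ t) ≤ 1 / 8 := by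
    calc ((Fintype.card V).choose (32 * 2 ^ t) : ℝ) *
        ((Fintype.card V).choose (16 * 2 ^ t) : ℝ) * b ^ (16 * 2 ^ t)
        ≤ ((6 * A) ^ 2) ^ (16 * 2 ^ t) * (12 * A) ^ (16 * 2 ^ t) * b ^ (16 * 2 ^ t) := by
          gcongr
      _ = ((6 * A) ^ 2 * (12 * A) * b) ^ (16 * 2 ^ t) := by rw [← mul_pow, ← mul_pow]
      _ ≤ 1 / 8 := by
          refine pow_small (by positivity) ?_ hσ1
          have e1 : Real.exp (-(256 * a)) ≤ (1 / 2) ^ (256 * a) := by
            have e2 : Real.exp (-(256 * a)) = (Real.exp (-1)) ^ (256 * a) := by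
              rw [← Real.exp_nat_mul]
              congr 1
              push_cast
              ring
            rw [e2]
            refine pow_le_pow_left₀ (Real.exp_pos _).le ?_ _
            rw [Real.exp_neg, one_div]
            refine inv_anti₀ (by norm_num) ?_
            have := Real.exp_one_gt_d9
            linarith
          calc (6 * A) ^ 2 * (12 * A) * b
              ≤ (6 * A) ^ 2 * (12 * A) * (2 ^ (128 * a) * (1 / 2) ^ (256 * a)) := by
                rw [hb]
                gcongr
            _ = 432 * ((1 / 2) ^ 125) ^ a := by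
                rw [hA]
                have e3 : (1 / 2 : ℝ) ^ (256 * a) = ((1 / 2) ^ a) ^ 256 := by
                  rw [← pow_mul]; congr 1; ring
                have e4 : (2 : ℝ) ^ (128 * a) = (2 ^ a) ^ 128 := by
                  rw [← pow_mul]; congr 1; ring
                have e5 : ((1 / 2 : ℝ) ^ 125) ^ a = ((1 / 2) ^ a) ^ 125 := by
                  rw [← pow_mul, ← pow_mul]; congr 1; ring
                have e6 : (2 : ℝ) ^ a * (1 / 2) ^ a = 1 := by
                  rw [← mul_pow]; norm_num
                rw [e3, e4, e5]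
                set y : ℝ := 2 ^ a
                set z : ℝ := (1 / 2) ^ a
                have e7 : y ^ 131 * z ^ 131 = 1 := by rw [← mul_pow, e6, one_pow]
                calc (6 * y) ^ 2 * (12 * y) * (y ^ 128 * z ^ 256)
                    = 432 * (y ^ 131 * z ^ 131) * z ^ 125 := by ring
                  _ = _ := by rw [e7, mul_one]
            _ ≤ 432 * ((1 / 2) ^ 125) ^ 1 := by
                gcongr 432 * ?_
                exact pow_le_pow_of_le_one (by positivity) (by norm_num) ha
            _ ≤ 1 / 8 := by norm_num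
  exact mul_le_mul_of_nonneg_right h6 hN0

theorem bad_join {a t : ℕ} (ha : 1 ≤ a) (hV : Fintype.card V = 64 * 2 ^ t * 2 ^ a)
    (hd : d = 1024 * a * 2 ^ a) :
    num (fun f : V → Fin d → V => ∃ B S : Finset V, B.card = 2 ^ t ∧
      S.card = 2 ^ t ∧ ∀ v ∈ S, hits (f v) B = 0) ≤
      1 / 8 * (Fintype.card (V → Fin d → V) : ℝ) := by
  set N : ℝ := (Fintype.card (V → Fin d → V) : ℝ) with hN
  have hN0 : 0 ≤ N := Nat.cast_nonneg _
  set A : ℝ := 2 ^ a with hA
  have hA0 : 0 < A := by rw [hA]; positivity
  set s : ℝ := 2 ^ t with hs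
  have hs0 : 0 < s := by rw [hs]; positivity
  have hV' : (Fintype.card V : ℝ) = 64 * s * A := by rw [hV]; push_cast; rfl
  have hV0 : 0 < Fintype.card V := by rw [hV]; positivity
  have hd' : (d : ℝ) = 1024 * a * A := by rw [hd]; push_cast; rfl
  set b : ℝ := Real.exp (-(16 * a)) with hb
  have hb0 : 0 ≤ b := by rw [hb]; positivity
  have h1 := union_pairs (V := V) (d := d) (2 ^ t) (2 ^ t) (b := b)
    (fun B g => hits g B = 0) (by
      intro B hB
      have h2 := tail (d := d) B hV0 (x := 0) (c := 1) le_rfl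
        (by positivity) (fun g => hits g B = 0) (by
          intro g hg
          rw [hg]
          norm_num)
      refine h2.trans (le_of_eq ?_)
      rw [hb, hV', hd', hB, one_mul]
      congr 2
      push_cast
      rw [← hs]
      field_simp
      ring)
  refine h1.trans ?_
  have hσ1 : 1 ≤ 2 ^ t := Nat.one_le_two_pow
  have h3 := choose_le (Fintype.card V) (2 ^ t) hσ1
  have h5 : (3 * (Fintype.card V : ℝ) / ((2 ^ t : ℕ) : ℝ)) ^ (2 ^ t) =
      (192 * A) ^ (2 ^ t) := by
    congr 1
    rw [hV']
    push_cast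
    rw [← hs]
    field_simp
    ring
  rw [h5] at h3
  have h6 : ((Fintype.card V).choose (2 ^ t) : ℝ) *
      ((Fintype.card V).choose (2 ^ t) : ℝ) * b ^ (2 ^ t) ≤ 1 / 8 := by
    calc ((Fintype.card V).choose (2 ^ t) : ℝ) *
        ((Fintype.card V).choose (2 ^ t) : ℝ) * b ^ (2 ^ t)
        ≤ (192 * A) ^ (2 ^ t) * (192 * A) ^ (2 ^ t) * b ^ (2 ^ t) := by
          gcongr
      _ = ((192 * A) * (192 * A) * b) ^ (2 ^ t) := by rw [← mul_pow, ← mul_pow]
      _ ≤ 1 / 8 := by
          refine pow_small (by positivity) ?_ hσ1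
          have e1 : b ≤ ((10 / 27) ^ 16) ^ a := by
            have e2 : b = ((Real.exp (-1)) ^ 16) ^ a := by
              rw [hb, ← pow_mul, ← Real.exp_nat_mul]
              congr 1
              push_cast
              ring
            rw [e2]
            refine pow_le_pow_left₀ (by positivity) ?_ _
            refine pow_le_pow_left₀ (Real.exp_pos _).le ?_ _
            rw [Real.exp_neg]
            have := Real.exp_one_gt_d9
            rw [inv_le_comm₀ (Real.exp_pos _) (by norm_num)]
            norm_num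
            linarith
          calc (192 * A) * (192 * A) * b
              ≤ (192 * A) * (192 * A) * ((10 / 27) ^ 16) ^ a := by
                gcongr
            _ = 36864 * (4 * (10 / 27) ^ 16) ^ a := by
                rw [hA, mul_pow]
                have e3 : (4 : ℝ) ^ a = 2 ^ a * 2 ^ a := by
                  rw [← mul_pow]; norm_num
                rw [e3]
                ring
            _ ≤ 36864 * (4 * (10 / 27) ^ 16) ^ 1 := by
                gcongr 36864 * ?_
                exact pow_le_pow_of_le_one (by positivity) (by norm_num) ha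
            _ ≤ 1 / 8 := by norm_num
  exact mul_le_mul_of_nonneg_right h6 hN0

theorem geom_small (s : ℕ) : ∑ α ∈ Finset.Icc 1 s, (1 / 16 : ℝ) ^ α ≤ 1 / 8 := by
  have h : ∀ s : ℕ, ∑ α ∈ Finset.Icc 1 s, (1 / 16 : ℝ) ^ α = 1 / 15 * (1 - (1 / 16) ^ s) := by
    intro s
    induction s with
    | zero => simp
    | succ s ih =>
      rw [Finset.sum_Icc_succ_top (by omega), ih, pow_succ]
      ring
  rw [h]
  have : (0 : ℝ) < (1 / 16) ^ s := by positivity
  linarith

theorem bad_exp {a t : ℕ} (ha : 1 ≤ a) (hV : Fintype.card V = 64 * 2 ^ t * 2 ^ a)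
    (hd : d = 1024 * a * 2 ^ a) :
    num (fun f : V → Fin d → V => ∃ α ∈ Finset.Icc 1 (2 ^ t),
      ∃ B S : Finset V, B.card = 2 * α ∧ S.card = α ∧
        ∀ v ∈ S, 128 * a ≤ hits (f v) B) ≤
      1 / 8 * (Fintype.card (V → Fin d → V) : ℝ) := by
  set N : ℝ := (Fintype.card (V → Fin d → V) : ℝ) with hN
  have hN0 : 0 ≤ N := Nat.cast_nonneg _
  set A : ℝ := 2 ^ a with hA
  have hA0 : 0 < A := by rw [hA]; positivity
  set s : ℝ := 2 ^ t with hs
  have hs0 : 0 < s := by rw [hs]; positivity
  have hV' : (Fintype.card V : ℝ) = 64 * s * A := by rw [hV]; push_cast; rfl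
  have hV0 : 0 < Fintype.card V := by rw [hV]; positivity
  have hd' : (d : ℝ) = 1024 * a * A := by rw [hd]; push_cast; rfl
  have key : ∀ α ∈ Finset.Icc 1 (2 ^ t), num (fun f : V → Fin d → V =>
      ∃ B S : Finset V, B.card = 2 * α ∧ S.card = α ∧
        ∀ v ∈ S, 128 * a ≤ hits (f v) B) ≤ (1 / 16) ^ α * N := by
    intro α hα
    rw [Finset.mem_Icc] at hα
    have hα0 : (0 : ℝ) < α := by exact_mod_cast hα.1
    have hαs : (α : ℝ) ≤ s := by rw [hs]; exact_mod_cast hα.2
    set r : ℝ := α / s with hr
    have hr0 : 0 < r := by positivity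
    have hr1 : r ≤ 1 := by rw [hr, div_le_one hs0]; exact hαs
    set b : ℝ := (3 / 4 * r) ^ (128 * a) with hb
    have hb0 : 0 ≤ b := by rw [hb]; positivity
    have h1 := union_pairs (V := V) (d := d) (2 * α) α (b := b)
      (fun B g => 128 * a ≤ hits g B) (by
        intro B hB
        have hx1 : (1 : ℝ) ≤ 4 / r := by
          rw [le_div_iff₀ hr0]
          linarith
        have h2 := tail (d := d) B hV0 (x := 4 / r) (c := ((4 / r) ^ (128 * a))⁻¹)
          (by positivity) (by positivity) (fun g => 128 * a ≤ hits g B) (by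
            intro g hg
            have h3 : (4 / r) ^ (128 * a) ≤ (4 / r) ^ hits g B := pow_le_pow_right₀ hx1 hg
            have h4 : 0 < (4 / r) ^ (128 * a) := by positivity
            rw [inv_mul_eq_div, one_le_div h4]
            exact h3)
        refine h2.trans ?_
        have h5 : ((4 / r) ^ (128 * a))⁻¹ *
            Real.exp (d * ((4 / r - 1) * B.card / Fintype.card V)) ≤ b := by
          have h6 : (d : ℝ) * ((4 / r - 1) * B.card / Fintype.card V) ≤ (128 * a : ℕ) * 1 := by
            rw [hd', hB, hV']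
            push_cast
            have h7 : (1024 * a * A) * ((4 / r - 1) * (2 * α) / (64 * s * A)) =
                128 * a - 32 * a * r := by
              have e1 : (α : ℝ) = r * s := by rw [hr]; field_simp
              rw [e1]
              field_simp
              ring
            rw [h7]
            have : 0 ≤ 32 * (a : ℝ) * r := by positivity
            linarith
          have h8 := Real.exp_le_exp.2 h6
          rw [Real.exp_nat_mul (1:ℝ) (128 * a)] at h8
          calc ((4 / r) ^ (128 * a))⁻¹ *
                Real.exp (d * ((4 / r - 1) * B.card / Fintype.card V))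
              ≤ ((4 / r) ^ (128 * a))⁻¹ * Real.exp 1 ^ (128 * a) :=
                mul_le_mul_of_nonneg_left h8 (by positivity)
            _ ≤ ((4 / r) ^ (128 * a))⁻¹ * 3 ^ (128 * a) := by
                refine mul_le_mul_of_nonneg_left ?_ (by positivity)
                refine pow_le_pow_left₀ (Real.exp_pos _).le ?_ _
                have := Real.exp_one_lt_d9
                linarith
            _ = b := by
                rw [hb, ← inv_pow, ← mul_pow]
                congr 1
                field_simp
        exact mul_le_mul_of_nonneg_right h5 (by positivity))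
    refine h1.trans ?_
    have h2 := choose_le (Fintype.card V) (2 * α) (by omega)
    have h3 := choose_le (Fintype.card V) α hα.1
    have h4 : (3 * (Fintype.card V : ℝ) / ((2 * α : ℕ) : ℝ)) ^ (2 * α) =
        ((96 * A / r) ^ 2) ^ α := by
      rw [← pow_mul]
      congr 1
      rw [hV', hr]
      push_cast
      field_simp
      ring
    have h5 : (3 * (Fintype.card V : ℝ) / (α : ℝ)) ^ α = (192 * A / r) ^ α := by
      congr 1
      rw [hV', hr]
      field_simp
      ring
    rw [h4] at h2
    rw [h5] at h3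
    refine mul_le_mul_of_nonneg_right ?_ hN0
    calc ((Fintype.card V).choose (2 * α) : ℝ) * ((Fintype.card V).choose α : ℝ) * b ^ α
        ≤ ((96 * A / r) ^ 2) ^ α * (192 * A / r) ^ α * b ^ α := by
          gcongr
      _ = ((96 * A / r) ^ 2 * (192 * A / r) * b) ^ α := by rw [← mul_pow, ← mul_pow]
      _ ≤ (1 / 16) ^ α := by
          refine pow_le_pow_left₀ (by positivity) ?_ _
          have e1 : b ≤ (3 / 4) ^ (128 * a) * r ^ 3 := by
            rw [hb, mul_pow]
            refine mul_le_mul_of_nonneg_left ?_ (by positivity)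
            exact pow_le_pow_of_le_one hr0.le hr1 (by omega)
          calc (96 * A / r) ^ 2 * (192 * A / r) * b
              ≤ (96 * A / r) ^ 2 * (192 * A / r) * ((3 / 4) ^ (128 * a) * r ^ 3) := by
                gcongr
            _ = 1769472 * (8 * (3 / 4) ^ 128) ^ a := by
                rw [hA, mul_pow, pow_mul]
                have e3 : (8 : ℝ) ^ a = (2 ^ a) ^ 3 := by
                  rw [← pow_mul, mul_comm, pow_mul]; norm_num
                rw [e3]
                field_simp
                ring
            _ ≤ 1769472 * (8 * (3 / 4) ^ 128) ^ 1 := by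
                gcongr 1769472 * ?_
                exact pow_le_pow_of_le_one (by positivity) (by norm_num) ha
            _ ≤ 1 / 16 := by norm_num
  refine (num_union (Finset.Icc 1 (2 ^ t)) fun α (f : V → Fin d → V) =>
    ∃ B S : Finset V, B.card = 2 * α ∧ S.card = α ∧ ∀ v ∈ S, 128 * a ≤ hits (f v) B).trans ?_
  refine (Finset.sum_le_sum key).trans ?_
  rw [← Finset.sum_mul]
  exact mul_le_mul_of_nonneg_right (geom_small _) hN0

end

end Pool.Agent.MP_e3911d_co
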