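import Pool.Agent.Lib.MP_e3911d_co.Core
import Pool.Agent.Lib.MP_e3911d_co.Rand
import Pool.Agent.Lib.MP_e3911d_co.Girth

/-!
# MP_e3911d_co: the graph of a function
-/

namespace Pool.Agent.MP_e3911d_co

section

variable {V : Type*} {d : ℕ}

/-- The graph of a function. -/
def gr (f : V → Fin d → V) : SimpleGraph V where
  Adj x y := x ≠ y ∧ ∃ i, f x i = y ∨ f y i = x
  symm := ⟨fun _ _ h => ⟨h.1.symm, h.2.imp fun _ hi => hi.symm⟩⟩
  loopless := ⟨fun _ h => h.1 rfl⟩

variable [DecidableEq V] [Fintype V]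

/-- The induced subgraphs have the expansion properties. -/
theorem expander_sub {a t : ℕ} (f : V → Fin d → V) (P : V → Prop)
    (hV : 2 * 2 ^ t ≤ Fintype.card V)
    (h1 : ¬ ∃ B S : Finset V, B.card = 32 * 2 ^ t ∧
      S.card = 16 * 2 ^ t ∧ ∀ v ∈ S, hits (f v) B < 128 * a)
    (h2 : ¬ ∃ B S : Finset V, B.card = 2 ^ t ∧
      S.card = 2 ^ t ∧ ∀ v ∈ S, hits (f v) B = 0)
    (h3 : ¬ ∃ α ∈ Finset.Icc 1 (2 ^ t),
      ∃ B S : Finset V, B.card = 2 * α ∧ S.card = α ∧
        ∀ v ∈ S, 128 * a ≤ hits (f v) B) :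
    Expander ((gr f).comap (Subtype.val : {x // P x} → V))
      (fun x B => hits (f x.1) (B.map (Function.Embedding.subtype P))) (128 * a) (64 * 2 ^ t)
      (2 ^ t) where
  mono := by
    intro x B N hx hB
    show hits (f x.1) (B.map _) ≤ hits (f x.1) (N.map _)
    unfold hits
    refine Finset.card_le_card ?_
    intro i hi
    rw [Finset.mem_filter, Finset.mem_map] at hi ⊢
    obtain ⟨-, y, hy, hyi⟩ := hi
    refine ⟨Finset.mem_univ _, y, hB y hy ?_, hyi⟩
    rw [SimpleGraph.comap_adj]
    refine ⟨?_, i, Or.inl hyi.symm⟩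
    intro hxy
    apply hx
    rwa [Subtype.ext hxy]
  many := by
    intro B S hB hS
    by_contra hcon
    apply h1
    obtain ⟨B', hB', hB'c⟩ := Finset.exists_subset_card_eq (s := B) (n := 32 * 2 ^ t) (by omega)
    obtain ⟨S', hS', hS'c⟩ := Finset.exists_subset_card_eq (s := S) (n := 16 * 2 ^ t) (by omega)
    refine ⟨B'.map (Function.Embedding.subtype P), S'.map (Function.Embedding.subtype P),
      by rw [Finset.card_map, hB'c], by rw [Finset.card_map, hS'c], ?_⟩
    intro v hv
    rw [Finset.mem_map] at hv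
    obtain ⟨w, hw, rfl⟩ := hv
    refine lt_of_le_of_lt ?_ (hS w (hS' hw)).2
    exact hits_mono _ (Finset.map_subset_map.2 hB')
  exp := by
    intro A N hA hAs hN _
    by_contra hcon
    have hcon' : ∀ v ∈ A, 128 * a ≤
        hits (f v.1) (N.map (Function.Embedding.subtype P)) := by
      intro v hv
      by_contra h
      exact hcon ⟨v, hv, by omega⟩
    apply h3
    have hA1 : 1 ≤ A.card := Finset.card_pos.2 hA
    refine ⟨A.card, Finset.mem_Icc.2 ⟨hA1, hAs⟩, ?_⟩
    obtain ⟨B, hNB, -, hB⟩ := Finset.exists_subsuperset_card_eq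
      (s := N.map (Function.Embedding.subtype P)) (t := Finset.univ) (n := 2 * A.card)
      (Finset.subset_univ _) (by rw [Finset.card_map]; exact hN)
      (by rw [Finset.card_univ]; omega)
    refine ⟨B, A.map (Function.Embedding.subtype P), hB, by rw [Finset.card_map], ?_⟩
    intro v hv
    rw [Finset.mem_map] at hv
    obtain ⟨w, hw, rfl⟩ := hv
    exact (hcon' w hw).trans (hits_mono _ hNB)
  join := by
    intro S T hST hS hT
    by_contra hcon
    apply h2
    obtain ⟨T', hT', hT'c⟩ := Finset.exists_subset_card_eq (s := T) (n := 2 ^ t) hT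
    obtain ⟨S', hS', hS'c⟩ := Finset.exists_subset_card_eq (s := S) (n := 2 ^ t) hS
    refine ⟨T'.map (Function.Embedding.subtype P), S'.map (Function.Embedding.subtype P),
      by rw [Finset.card_map, hT'c], by rw [Finset.card_map, hS'c], ?_⟩
    intro v hv
    rw [Finset.mem_map] at hv
    obtain ⟨w, hw, rfl⟩ := hv
    by_contra hne
    have hpos : 0 < hits (f w.1) (T'.map (Function.Embedding.subtype P)) :=
      Nat.pos_of_ne_zero hne
    unfold hits at hpos
    obtain ⟨i, hi⟩ := Finset.card_pos.1 hpos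
    rw [Finset.mem_filter, Finset.mem_map] at hi
    obtain ⟨-, y, hy, hyi⟩ := hi
    apply hcon
    refine ⟨w, hS' hw, y, hT' hy, ?_⟩
    rw [SimpleGraph.comap_adj]
    refine ⟨?_, i, Or.inl hyi.symm⟩
    intro hwy
    have : w = y := Subtype.ext hwy
    subst this
    exact Finset.disjoint_left.1 hST (hS' hw) (hT' hy)

omit [DecidableEq V] [Fintype V] in
/-- A closed sequence in the graph gives the event of the counting. -/
theorem ev_of_short (f : V → Fin d → V) {l : ℕ} (p : Fin l → V) (hp : Function.Injective p)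
    (h : ∀ j, (gr f).Adj (p j) (p (nx j))) : ∃ e : Fin l → Bool × Fin d, Ev f p e := by
  choose h1 i hi using h
  classical
  refine ⟨fun j => (if f (p j) (i j) = p (nx j) then true else false, i j), hp, fun j => ?_⟩
  by_cases hj : f (p j) (i j) = p (nx j)
  · left
    simp only [hj, if_true, and_self]
  · right
    simp only [hj, if_false, true_and]
    exact (hi j).resolve_left hj

/-- Starting vertices of short closed sequences. -/
def Start (f : V → Fin d → V) (g : ℕ) (x : V) : Prop :=
  ∃ l ∈ Finset.Ico 3 g, ∃ (p : Fin l → V) (e : Fin l → Bool × Fin d),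
    Ev f p e ∧ ∃ h : 0 < l, p ⟨0, h⟩ = x

omit [DecidableEq V] in
theorem num_start (f : V → Fin d → V) (g : ℕ) : num (Start f g) ≤ shorts g f := by
  unfold Start shorts
  refine (num_union (Finset.Ico 3 g) (fun l (x : V) => ∃ (p : Fin l → V)
    (e : Fin l → Bool × Fin d), Ev f p e ∧ ∃ h : 0 < l, p ⟨0, h⟩ = x)).trans ?_
  refine Finset.sum_le_sum fun l hl => ?_
  rw [Finset.mem_Ico] at hl
  have hl0 : 0 < l := by omega
  classical
  obtain ⟨Y, hY⟩ : ∃ Y : Finset ((Fin l → V) × (Fin l → Bool × Fin d)),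
      (∀ y, y ∈ Y ↔ Ev f y.1 y.2) ∧
      num (fun x : (Fin l → V) × (Fin l → Bool × Fin d) => Ev f x.1 x.2) = (Y.card : ℝ) := by
    refine ⟨Finset.univ.filter (fun y => Ev f y.1 y.2), fun y => by simp, ?_⟩
    unfold num
    rfl
  rw [hY.2]
  refine le_trans (num_le_card (s := Y.image (fun y => y.1 ⟨0, hl0⟩)) ?_)
    (Nat.cast_le.2 Finset.card_image_le)
  rintro x ⟨p, e, he, h, rfl⟩
  rw [Finset.mem_image]
  exact ⟨(p, e), (hY.1 _).2 he, rfl⟩

theorem degree_le (f : V → Fin d → V) (P : V → Prop) (x : {x // P x})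
    (hx : indeg f x.1 ≤ 8 * (d : ℝ)) :
    ((((gr f).comap (Subtype.val : {x // P x} → V)).neighborSet x).ncard : ℝ) ≤ 9 * d := by
  classical
  obtain ⟨F, hF, hFc⟩ := num_eq_card (fun z : V × Fin d => f z.1 z.2 = x.1)
  set T : Finset V := (Finset.univ : Finset (Fin d)).image (f x.1) ∪ F.image Prod.fst with hT
  have h1 : (((gr f).comap (Subtype.val : {x // P x} → V)).neighborSet x).ncard ≤ T.card := by
    rw [← Set.ncard_image_of_injective _ Subtype.val_injective, ← Set.ncard_coe_finset]
    refine Set.ncard_le_ncard ?_ (Finset.finite_toSet _)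
    rintro _ ⟨y, hy, rfl⟩
    rw [SimpleGraph.mem_neighborSet, SimpleGraph.comap_adj] at hy
    obtain ⟨-, i, hi⟩ := hy
    rw [Finset.mem_coe, hT, Finset.mem_union, Finset.mem_image, Finset.mem_image]
    rcases hi with hi | hi
    · exact Or.inl ⟨i, Finset.mem_univ _, hi⟩
    · exact Or.inr ⟨(y.1, i), (hF _).2 hi, rfl⟩
  have h2 : (T.card : ℝ) ≤ d + indeg f x.1 := by
    have h3 : T.card ≤ d + F.card := by
      refine (Finset.card_union_le _ _).trans (add_le_add ?_ Finset.card_image_le)
      exact Finset.card_image_le.trans (by simp)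
    unfold indeg
    rw [hFc]
    exact_mod_cast h3
  have h1' : ((((gr f).comap (Subtype.val : {x // P x} → V)).neighborSet x).ncard : ℝ) ≤
      T.card := by exact_mod_cast h1
  linarith

end

end Pool.Agent.MP_e3911d_co
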