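import Mathlib

/-!
# MP_e3911d_co: Janson's inequality for random subsets of a finite set
-/

set_option autoImplicit false

open Finset

namespace Pool.Agent.Lib.MP_e3911d_co

section
variable {α : Type} [Fintype α] [DecidableEq α]

/-- probability of the set `A` if every element is chosen with probability `p` -/
noncomputable def wt (p : ℝ) (A : Finset α) : ℝ := ∏ e, if e ∈ A then p else 1 - p

/-- expectation of `f` -/
noncomputable def Ex (p : ℝ) (f : Finset α → ℝ) : ℝ := ∑ A, wt p A * f A

variable {p : ℝ}

theorem wt_nonneg (h0 : 0 ≤ p) (h1 : p ≤ 1) (A : Finset α) : 0 ≤ wt p A := by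
  unfold wt
  refine prod_nonneg fun e _ => ?_
  split_ifs
  · exact h0
  · linarith

theorem wt_mul (A B : Finset α) : wt p A * wt p B = wt p (A ∩ B) * wt p (A ∪ B) := by
  unfold wt
  rw [← prod_mul_distrib, ← prod_mul_distrib]
  refine prod_congr rfl fun e _ => ?_
  by_cases h1 : e ∈ A <;> by_cases h2 : e ∈ B <;> simp [h1, h2] <;> ring

theorem Ex_split (e : α) (f : Finset α → ℝ) :
    Ex p f = ∑ t ∈ (univ.erase e).powerset,
      (∏ x ∈ univ.erase e, if x ∈ t then p else 1 - p) * ((1 - p) * f t + p * f (insert e t)) := by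
  unfold Ex
  have h1 : (univ : Finset (Finset α)) = (insert e (univ.erase e)).powerset := by
    rw [insert_erase (mem_univ e), powerset_univ]
  rw [h1, sum_powerset_insert (notMem_erase e univ), ← sum_add_distrib]
  refine sum_congr rfl fun t ht => ?_
  have het : e ∉ t := fun h => notMem_erase e univ (mem_powerset.1 ht h)
  have h2 : wt p t = (∏ x ∈ univ.erase e, if x ∈ t then p else 1 - p) * (1 - p) := by
    unfold wt
    rw [← prod_erase_mul univ _ (mem_univ e)]
    simp [het]
  have h3 : wt p (insert e t) = (∏ x ∈ univ.erase e, if x ∈ t then p else 1 - p) * p := by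
    unfold wt
    rw [← prod_erase_mul univ _ (mem_univ e)]
    have : ∀ x ∈ univ.erase e, (if x ∈ insert e t then p else 1 - p) =
        if x ∈ t then p else 1 - p := by
      intro x hx
      have : x ≠ e := ne_of_mem_erase hx
      simp [mem_insert, this]
    rw [prod_congr rfl this]
    simp
  rw [h2, h3]
  ring

theorem Ex_one : Ex p (fun _ : Finset α => (1 : ℝ)) = 1 := by
  unfold Ex wt
  have h := prod_add (fun _ : α => p) (fun _ => 1 - p) univ
  rw [powerset_univ] at h
  have h1 : ∏ _i : α, (p + (1 - p)) = 1 := by simp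
  rw [h1] at h
  refine Eq.trans (sum_congr rfl fun A _ => ?_) h.symm
  rw [mul_one, prod_ite]
  congr 1
  · congr 1
    ext x; simp
  · congr 1
    ext x; simp

theorem Ex_mono (h0 : 0 ≤ p) (h1 : p ≤ 1) {f g : Finset α → ℝ} (h : ∀ A, f A ≤ g A) :
    Ex p f ≤ Ex p g := by
  unfold Ex
  exact sum_le_sum fun A _ => mul_le_mul_of_nonneg_left (h A) (wt_nonneg h0 h1 A)

theorem Ex_nonneg (h0 : 0 ≤ p) (h1 : p ≤ 1) {f : Finset α → ℝ} (h : ∀ A, 0 ≤ f A) :
    0 ≤ Ex p f := by
  unfold Ex
  exact sum_nonneg fun A _ => mul_nonneg (wt_nonneg h0 h1 A) (h A)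

theorem Ex_add (f g : Finset α → ℝ) : Ex p (fun A => f A + g A) = Ex p f + Ex p g := by
  unfold Ex
  rw [← sum_add_distrib]
  exact sum_congr rfl fun A _ => by ring

theorem Ex_sub (f g : Finset α → ℝ) : Ex p (fun A => f A - g A) = Ex p f - Ex p g := by
  unfold Ex
  rw [← sum_sub_distrib]
  exact sum_congr rfl fun A _ => by ring

theorem Ex_smul (c : ℝ) (f : Finset α → ℝ) : Ex p (fun A => c * f A) = c * Ex p f := by
  unfold Ex
  rw [mul_sum]
  exact sum_congr rfl fun A _ => by ring

theorem Ex_sum {ι : Type} (s : Finset ι) (f : ι → Finset α → ℝ) :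
    Ex p (fun A => ∑ i ∈ s, f i A) = ∑ i ∈ s, Ex p (f i) := by
  unfold Ex
  rw [sum_comm]
  refine sum_congr rfl fun A _ => ?_
  rw [mul_sum]

theorem Ex_mem (e : α) (f : Finset α → ℝ) (hf : ∀ A, f (insert e A) = f A) :
    Ex p (fun A => (if e ∈ A then (1 : ℝ) else 0) * f A) = p * Ex p f := by
  rw [Ex_split e, Ex_split e f, mul_sum]
  refine sum_congr rfl fun t ht => ?_
  have het : e ∉ t := fun h => notMem_erase e univ (mem_powerset.1 ht h)
  rw [hf t]
  simp [het, hf t]
  ring

/-- indicator of `C ⊆ A` -/
noncomputable def ind (C : Finset α) (A : Finset α) : ℝ := if C ⊆ A then 1 else 0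

theorem ind_nonneg (C A : Finset α) : 0 ≤ ind C A := by
  unfold ind; split_ifs <;> norm_num

theorem ind_le_one (C A : Finset α) : ind C A ≤ 1 := by
  unfold ind; split_ifs <;> norm_num

theorem ind_mono (C : Finset α) {A B : Finset α} (h : A ⊆ B) : ind C A ≤ ind C B := by
  unfold ind
  split_ifs with h1 h2
  · exact le_refl _
  · exact absurd (h1.trans h) h2
  · norm_num
  · exact le_refl _

theorem ind_union (C D A : Finset α) : ind (C ∪ D) A = ind C A * ind D A := by
  unfold ind
  by_cases h1 : C ⊆ A <;> by_cases h2 : D ⊆ A <;> simp [h1, h2, union_subset_iff]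

theorem Ex_ind_mul (C : Finset α) (f : Finset α → ℝ) (hf : ∀ e ∈ C, ∀ A, f (insert e A) = f A) :
    Ex p (fun A => ind C A * f A) = p ^ C.card * Ex p f := by
  induction C using Finset.induction_on generalizing f with
  | empty =>
    simp [ind]
  | insert e C he ih =>
    have h1 : (fun A => ind (insert e C) A * f A) =
        fun A => (if e ∈ A then (1 : ℝ) else 0) * (ind C A * f A) := by
      funext A
      unfold ind
      by_cases h1 : e ∈ A <;> by_cases h2 : C ⊆ A <;> simp [h1, h2, insert_subset_iff]
    rw [h1, Ex_mem e (fun A => ind C A * f A), ih, card_insert_of_notMem he]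
    · ring
    · exact fun e' he' => hf e' (mem_insert_of_mem he')
    · intro A
      rw [hf e (mem_insert_self _ _)]
      congr 1
      unfold ind
      have : C ⊆ insert e A ↔ C ⊆ A := by
        constructor
        · intro h x hx
          rcases mem_insert.1 (h hx) with h' | h'
          · exact absurd (h' ▸ hx) he
          · exact h'
        · exact fun h => h.trans (subset_insert _ _)
      simp [this]

theorem Ex_ind (C : Finset α) : Ex p (ind C) = p ^ C.card := by
  have h := Ex_ind_mul (p := p) C (fun _ => 1) (fun _ _ _ => rfl)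
  rw [Ex_one, mul_one] at h
  rw [← h]
  congr 1
  funext A
  rw [mul_one]

/-- Harris: an increasing event and a decreasing event are negatively correlated -/
theorem harris (h0 : 0 ≤ p) (h1 : p ≤ 1) (C : Finset α) (f : Finset α → ℝ)
    (hf0 : ∀ A, 0 ≤ f A) (hf1 : ∀ A, f A ≤ 1) (hf : ∀ A B, A ⊆ B → f B ≤ f A) :
    Ex p (fun A => ind C A * f A) ≤ p ^ C.card * Ex p f := by
  have h := fkg (μ := fun A : Finset α => wt p A) (f := fun A => ind C A)
    (g := fun A => 1 - f A) (fun A => wt_nonneg h0 h1 A) (fun A => ind_nonneg C A)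
    (fun A => by have := hf1 A; simp only [Pi.zero_apply]; linarith)
    (fun A B hAB => ind_mono C hAB)
    (fun A B hAB => by have := hf A B hAB; simp only; linarith)
    (fun A B => (wt_mul A B).le)
  have e1 : (∑ A : Finset α, wt p A * ind C A) = p ^ C.card := Ex_ind C
  have e2 : (∑ A : Finset α, wt p A * (1 - f A)) = 1 - Ex p f := by
    have := Ex_sub (p := p) (fun _ : Finset α => (1 : ℝ)) f
    rw [Ex_one] at this
    exact this
  have e3 : (∑ A : Finset α, wt p A) = 1 := by
    have := Ex_one (α := α) (p := p)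
    unfold Ex at this
    simpa using this
  have e4 : (∑ A : Finset α, wt p A * (ind C A * (1 - f A))) =
      p ^ C.card - Ex p (fun A => ind C A * f A) := by
    have := Ex_sub (p := p) (ind C) (fun A => ind C A * f A)
    rw [Ex_ind] at this
    rw [← this]
    unfold Ex
    exact sum_congr rfl fun A _ => by ring
  rw [e1, e2, e3, e4] at h
  nlinarith [h]

variable {ι : Type} [DecidableEq ι]

open Classical in
/-- indicator of: no `C i`, `i ∈ s`, is contained in `A` -/
noncomputable def non (C : ι → Finset α) (s : Finset ι) (A : Finset α) : ℝ :=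
  if ∀ i ∈ s, ¬ C i ⊆ A then 1 else 0

theorem non_nonneg (C : ι → Finset α) (s : Finset ι) (A : Finset α) : 0 ≤ non C s A := by
  unfold non; split_ifs <;> norm_num

theorem non_le_one (C : ι → Finset α) (s : Finset ι) (A : Finset α) : non C s A ≤ 1 := by
  unfold non; split_ifs <;> norm_num

theorem non_anti (C : ι → Finset α) (s : Finset ι) {A B : Finset α} (h : A ⊆ B) :
    non C s B ≤ non C s A := by
  unfold non
  split_ifs with h1 h2
  · exact le_refl _
  · exact absurd (fun i hi h3 => h1 i hi (h3.trans h)) h2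
  · norm_num
  · exact le_refl _

theorem janson_step (h0 : 0 ≤ p) (h1 : p ≤ 1) (C : ι → Finset α) (s : Finset ι) (m : ι) :
    Ex p (non C (insert m s)) ≤ Ex p (non C s) * (1 - (p ^ (C m).card -
      ∑ j ∈ s.filter (fun j => ¬ Disjoint (C j) (C m)), p ^ (C m ∪ C j).card)) := by
  classical
  set I := s.filter (fun j => Disjoint (C j) (C m)) with hI
  set J := s.filter (fun j => ¬ Disjoint (C j) (C m)) with hJ
  have k1 : ∀ A, non C (insert m s) A = non C s A - ind (C m) A * non C s A := by
    intro A
    unfold non ind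
    by_cases h2 : C m ⊆ A <;> by_cases h3 : ∀ i ∈ s, ¬ C i ⊆ A
    · have h4 : ¬ ∀ i ∈ insert m s, ¬ C i ⊆ A := fun h => h m (mem_insert_self _ _) h2
      rw [if_neg h4, if_pos h3, if_pos h2]; ring
    · have h4 : ¬ ∀ i ∈ insert m s, ¬ C i ⊆ A := fun h => h m (mem_insert_self _ _) h2
      rw [if_neg h4, if_neg h3]; ring
    · have h4 : ∀ i ∈ insert m s, ¬ C i ⊆ A := by
        intro i hi
        rcases mem_insert.1 hi with h | h
        · rw [h]; exact h2
        · exact h3 i h
      rw [if_pos h4, if_pos h3, if_neg h2]; ring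
    · have h4 : ¬ ∀ i ∈ insert m s, ¬ C i ⊆ A := fun h =>
        h3 fun i hi => h i (mem_insert_of_mem hi)
      rw [if_neg h4, if_neg h3]; ring
  have k2 : ∀ A, ind (C m) A * non C I A - ∑ j ∈ J, ind (C m ∪ C j) A * non C I A ≤
      ind (C m) A * non C s A := by
    intro A
    by_cases h2 : C m ⊆ A
    · have e1 : ind (C m) A = 1 := by unfold ind; rw [if_pos h2]
      by_cases h3 : ∀ i ∈ I, ¬ C i ⊆ A
      · have e2 : non C I A = 1 := by unfold non; rw [if_pos h3]
        by_cases h4 : ∀ i ∈ J, ¬ C i ⊆ A
        · have e3 : non C s A = 1 := by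
            unfold non
            rw [if_pos]
            intro i hi
            by_cases hd : Disjoint (C i) (C m)
            · exact h3 i (mem_filter.2 ⟨hi, hd⟩)
            · exact h4 i (mem_filter.2 ⟨hi, hd⟩)
          rw [e1, e2, e3]
          have : 0 ≤ ∑ j ∈ J, ind (C m ∪ C j) A * 1 :=
            sum_nonneg fun j _ => mul_nonneg (ind_nonneg _ _) zero_le_one
          linarith
        · push Not at h4
          obtain ⟨j, hj, hjA⟩ := h4
          have e4 : (1 : ℝ) ≤ ∑ j ∈ J, ind (C m ∪ C j) A * non C I A := by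
            have : ind (C m ∪ C j) A * non C I A = 1 := by
              rw [e2]
              unfold ind
              rw [if_pos (union_subset h2 hjA)]; ring
            rw [← this]
            exact single_le_sum (f := fun j => ind (C m ∪ C j) A * non C I A)
              (fun j _ => mul_nonneg (ind_nonneg _ _) (non_nonneg _ _ _)) hj
          rw [e1, e2] at *
          have := non_nonneg C s A
          linarith
      · have e2 : non C I A = 0 := by unfold non; rw [if_neg h3]
        rw [e2]
        simp only [mul_zero, sum_const_zero, sub_zero]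
        exact mul_nonneg (ind_nonneg _ _) (non_nonneg _ _ _)
    · have e1 : ind (C m) A = 0 := by unfold ind; rw [if_neg h2]
      rw [e1]
      have : 0 ≤ ∑ j ∈ J, ind (C m ∪ C j) A * non C I A :=
        sum_nonneg fun j _ => mul_nonneg (ind_nonneg _ _) (non_nonneg _ _ _)
      linarith
  have k3 : Ex p (fun A => ind (C m) A * non C I A) = p ^ (C m).card * Ex p (non C I) := by
    refine Ex_ind_mul _ _ ?_
    intro e he A
    unfold non
    have : (∀ i ∈ I, ¬ C i ⊆ insert e A) ↔ ∀ i ∈ I, ¬ C i ⊆ A := by
      constructor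
      · exact fun h i hi h' => h i hi (h'.trans (subset_insert _ _))
      · intro h i hi h'
        refine h i hi fun x hx => ?_
        rcases mem_insert.1 (h' hx) with h'' | h''
        · exfalso
          exact (disjoint_left.1 (mem_filter.1 hi).2) hx (h'' ▸ he)
        · exact h''
    simp only [this]
  have k4 : ∀ j ∈ J, Ex p (fun A => ind (C m ∪ C j) A * non C I A) ≤
      p ^ (C m ∪ C j).card * Ex p (non C I) := fun j _ =>
    harris h0 h1 _ _ (non_nonneg C I) (non_le_one C I) (fun A B => non_anti C I)
  have k5 : Ex p (non C s) ≤ Ex p (non C I) := by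
    refine Ex_mono h0 h1 fun A => ?_
    unfold non
    split_ifs with h2 h3
    · exact le_refl _
    · exact absurd (fun i hi => h2 i (mem_filter.1 hi).1) h3
    · norm_num
    · exact le_refl _
  have k6 : Ex p (non C (insert m s)) = Ex p (non C s) - Ex p (fun A => ind (C m) A * non C s A) := by
    rw [← Ex_sub]
    congr 1
    funext A
    exact k1 A
  have k7 : p ^ (C m).card * Ex p (non C I) - ∑ j ∈ J, p ^ (C m ∪ C j).card * Ex p (non C I) ≤
      Ex p (fun A => ind (C m) A * non C s A) := by
    refine le_trans ?_ (Ex_mono h0 h1 k2)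
    rw [Ex_sub, Ex_sum, k3]
    have := sum_le_sum k4
    linarith
  have k8 : 0 ≤ Ex p (fun A => ind (C m) A * non C s A) :=
    Ex_nonneg h0 h1 fun A => mul_nonneg (ind_nonneg _ _) (non_nonneg _ _ _)
  have k9 : 0 ≤ Ex p (non C s) := Ex_nonneg h0 h1 (non_nonneg C s)
  rw [← sum_mul] at k7
  set b := p ^ (C m).card - ∑ j ∈ J, p ^ (C m ∪ C j).card with hb
  have k10 : Ex p (non C s) * b ≤ Ex p (fun A => ind (C m) A * non C s A) := by
    by_cases hb0 : 0 ≤ b
    · refine le_trans (mul_le_mul_of_nonneg_right k5 hb0) ?_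
      have : Ex p (non C I) * b = p ^ (C m).card * Ex p (non C I) -
          (∑ j ∈ J, p ^ (C m ∪ C j).card) * Ex p (non C I) := by rw [hb]; ring
      rw [this]; exact k7
    · push Not at hb0
      exact le_trans (mul_nonpos_of_nonneg_of_nonpos k9 hb0.le) k8
  rw [k6]
  linarith [k10]

/-- Janson's inequality in the form used here -/
theorem janson (h0 : 0 ≤ p) (h1 : p ≤ 1) (C : ι → Finset α) (s : Finset ι)
    (hs : ∀ m ∈ s, ∑ j ∈ (s.erase m).filter (fun j => ¬ Disjoint (C j) (C m)),
      p ^ (C m ∪ C j).card ≤ p ^ (C m).card / 2) :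
    Ex p (non C s) ≤ Real.exp (-(∑ m ∈ s, p ^ (C m).card) / 2) := by
  classical
  have main : ∀ t : Finset ι, t ⊆ s →
      Ex p (non C t) ≤ Real.exp (-(∑ m ∈ t, p ^ (C m).card) / 2) := by
    intro t
    induction t using Finset.induction_on with
    | empty =>
      intro _
      have : Ex p (non C ∅) = 1 := by
        have : non C (∅ : Finset ι) = fun _ => (1 : ℝ) := by
          funext A; unfold non; simp
        rw [this, Ex_one]
      rw [this]; simp
    | insert m t hm ih =>
      intro hts
      have ih' := ih fun x hx => hts (mem_insert_of_mem hx)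
      have hmst := hs m (hts (mem_insert_self _ _))
      have h3 : ∑ j ∈ t.filter (fun j => ¬ Disjoint (C j) (C m)), p ^ (C m ∪ C j).card ≤
          p ^ (C m).card / 2 := by
        refine le_trans (sum_le_sum_of_subset_of_nonneg ?_ fun j _ _ => pow_nonneg h0 _) hmst
        intro j hj
        rw [mem_filter] at hj ⊢
        exact ⟨mem_erase.2 ⟨fun h => hm (h ▸ hj.1), hts (mem_insert_of_mem hj.1)⟩, hj.2⟩
      have h4 := janson_step h0 h1 C t m
      have h5 : 0 ≤ Ex p (non C t) := Ex_nonneg h0 h1 (non_nonneg C t)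
      refine le_trans h4 ?_
      have h6 : (1 - (p ^ (C m).card -
          ∑ j ∈ t.filter (fun j => ¬ Disjoint (C j) (C m)), p ^ (C m ∪ C j).card)) ≤
          Real.exp (-(p ^ (C m).card) / 2) := by
        have := Real.add_one_le_exp (-(p ^ (C m).card) / 2)
        linarith
      refine le_trans (mul_le_mul_of_nonneg_left h6 h5) ?_
      rw [sum_insert hm]
      have : -(p ^ (C m).card + ∑ x ∈ t, p ^ (C x).card) / 2 =
          -(∑ x ∈ t, p ^ (C x).card) / 2 + -(p ^ (C m).card) / 2 := by ring
      rw [this, Real.exp_add]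
      exact mul_le_mul_of_nonneg_right ih' (Real.exp_pos _).le
  exact main s (Subset.refl s)

end

end Pool.Agent.Lib.MP_e3911d_co
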