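import Pool.Agent.Lib.MP_e3911d_co.Core

/-!
# MP_e3911d_co: pseudorandom graphs
-/

namespace Pool.Agent.MP_e3911d_co

open Classical in
/-- The number of edges between two disjoint sets (of pairs in `S × T` that are edges). -/
noncomputable def edges {V : Type*} (G : SimpleGraph V) (S T : Finset V) : ℕ :=
  ((S ×ˢ T).filter (fun q => G.Adj q.1 q.2)).card

/-- `G` is `(p, β)`-bijumbled. -/
def Jumbled {V : Type*} (G : SimpleGraph V) (p β : ℝ) : Prop :=
  ∀ S T : Finset V, Disjoint S T →
    |(edges G S T : ℝ) - p * (S.card * T.card)| ≤ β * Real.sqrt (S.card * T.card)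

open Classical in
/-- The number of neighbours of `v` in `B`. -/
noncomputable def nb {V : Type*} (G : SimpleGraph V) (v : V) (B : Finset V) : ℕ :=
  (B.filter (fun y => G.Adj v y)).card

theorem edges_eq_sum {V : Type*} (G : SimpleGraph V) (S T : Finset V) :
    edges G S T = ∑ v ∈ S, nb G v T := by
  classical
  unfold edges nb
  rw [Finset.card_filter, Finset.sum_product]
  refine Finset.sum_congr rfl fun v _ => ?_
  rw [Finset.card_filter]

section

variable {V : Type*} [DecidableEq V] {G : SimpleGraph V} {p β : ℝ}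

theorem expander_of_jumbled (hJ : Jumbled G p β) (hp : 0 < p) {ν : ℝ} (hν : 1 ≤ ν)
    (hβ : β = ν * p) {w s κ : ℕ} (hw : 14 * ν + 8 < w) (hs1 : ν < s) (hs2 : (s : ℝ) ≤ ν + 1)
    (hκ : κ = ⌈p * w / 4⌉₊) : Expander G (nb G) κ w s := by
  classical
  have hβ0 : 0 < β := by rw [hβ]; positivity
  refine ⟨?_, ?_, ?_, ?_⟩
  · intro x B N _ h
    unfold nb
    refine Finset.card_le_card ?_
    intro y hy
    rw [Finset.mem_filter] at hy ⊢
    exact ⟨h y hy.1 hy.2, hy.2⟩
  · intro B S hB hS
    have hdis : Disjoint S B := by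
      rw [Finset.disjoint_left]
      intro v hv
      exact (hS v hv).1
    have h1 := (abs_le.1 (hJ S B hdis)).1
    have h2 : (edges G S B : ℝ) ≤ S.card * (p * w / 4) := by
      rw [edges_eq_sum]
      push_cast
      have : ∀ v ∈ S, (nb G v B : ℝ) ≤ p * w / 4 := by
        intro v hv
        have := (hS v hv).2
        rw [hκ, Nat.lt_ceil] at this
        exact this.le
      calc ∑ v ∈ S, (nb G v B : ℝ) ≤ ∑ _v ∈ S, p * w / 4 := Finset.sum_le_sum this
        _ = S.card * (p * w / 4) := by rw [Finset.sum_const, nsmul_eq_mul]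
    have hB' : (w : ℝ) ≤ 2 * B.card := by exact_mod_cast hB
    set a : ℝ := (S.card : ℝ) with ha
    set b : ℝ := (B.card : ℝ) with hb
    have ha0 : 0 ≤ a := by positivity
    have hb0 : 0 ≤ b := by positivity
    have hX : Real.sqrt (a * b) * Real.sqrt (a * b) = a * b :=
      Real.mul_self_sqrt (by positivity)
    set X := Real.sqrt (a * b) with hXd
    have hX0 : 0 ≤ X := Real.sqrt_nonneg _
    have h3 : a * (p * w / 4) ≤ p * (a * b) / 2 := by
      have : a * (p * w / 4) = (a * p / 4) * w := by ring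
      rw [this]
      have h4 : (a * p / 4) * w ≤ (a * p / 4) * (2 * b) :=
        mul_le_mul_of_nonneg_left hB' (by positivity)
      linarith [h4, show (a * p / 4) * (2 * b) = p * (a * b) / 2 by ring]
    have h5 : p * (X * X) / 2 ≤ ν * p * X := by
      rw [hX]
      rw [hβ] at h1
      linarith
    have h6 : X ≤ 2 * ν := by
      rcases hX0.eq_or_lt with h0 | h0
      · rw [← h0]; linarith
      · have : X * (p * X) ≤ (2 * ν) * (p * X) := by nlinarith
        exact le_of_mul_le_mul_right this (by positivity)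
    have h7 : a * b ≤ 4 * ν ^ 2 := by
      rw [← hX]; nlinarith
    have h8 : 4 * a ≤ w := by
      by_contra hcon
      push Not at hcon
      have hw0 : (0 : ℝ) < w := by linarith
      have h9 : a * w ≤ 8 * ν ^ 2 := by nlinarith
      nlinarith
    have : ((4 * S.card : ℕ) : ℝ) ≤ w := by push_cast; linarith
    exact_mod_cast this
  · intro A N hA hAs hN hdis
    by_contra hcon
    push Not at hcon
    have h1 := (abs_le.1 (hJ A N hdis)).2
    have h2 : (A.card : ℝ) * (p * w / 4) ≤ edges G A N := by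
      rw [edges_eq_sum]
      push_cast
      have : ∀ v ∈ A, p * w / 4 ≤ (nb G v N : ℝ) := by
        intro v hv
        have := hcon v hv
        rw [hκ] at this
        exact Nat.ceil_le.1 this
      calc (A.card : ℝ) * (p * w / 4) = ∑ _v ∈ A, p * w / 4 := by
            rw [Finset.sum_const, nsmul_eq_mul]
        _ ≤ ∑ v ∈ A, (nb G v N : ℝ) := Finset.sum_le_sum this
    have hN' : (N.card : ℝ) ≤ 2 * A.card := by exact_mod_cast hN
    have hAs' : (A.card : ℝ) ≤ s := by exact_mod_cast hAs
    have hA0 : (0 : ℝ) < A.card := by exact_mod_cast Finset.card_pos.2 hA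
    set a : ℝ := (A.card : ℝ) with ha
    set b : ℝ := (N.card : ℝ) with hb
    have hb0 : 0 ≤ b := by positivity
    have hX : Real.sqrt (a * b) ≤ 3 / 2 * a := by
      rw [Real.sqrt_le_left (by positivity)]
      nlinarith
    have h3 : a * (p * w / 4) ≤ p * (a * (2 * a)) + ν * p * (3 / 2 * a) := by
      have h4 : p * (a * b) ≤ p * (a * (2 * a)) := by
        apply mul_le_mul_of_nonneg_left _ hp.le
        exact mul_le_mul_of_nonneg_left hN' hA0.le
      have h5 : β * Real.sqrt (a * b) ≤ β * (3 / 2 * a) :=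
        mul_le_mul_of_nonneg_left hX hβ0.le
      rw [hβ] at h5 h1
      linarith
    have h6 : (a * p) * (w / 4) ≤ (a * p) * (2 * a + 3 / 2 * ν) := by
      linarith [h3, show (a * p) * (w / 4 : ℝ) = a * (p * w / 4) by ring,
        show (a * p) * (2 * a + 3 / 2 * ν) = p * (a * (2 * a)) + ν * p * (3 / 2 * a) by ring]
    have h7 : (w : ℝ) / 4 ≤ 2 * a + 3 / 2 * ν := le_of_mul_le_mul_left h6 (by positivity)
    linarith
  · intro S T hdis hS hT
    by_contra hcon
    push Not at hcon
    have h1 := (abs_le.1 (hJ S T hdis)).1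
    have h2 : edges G S T = 0 := by
      unfold edges
      rw [Finset.card_eq_zero, Finset.filter_eq_empty_iff]
      intro q hq
      rw [Finset.mem_product] at hq
      exact hcon q.1 hq.1 q.2 hq.2
    rw [h2] at h1
    have hS' : (s : ℝ) ≤ S.card := by exact_mod_cast hS
    have hT' : (s : ℝ) ≤ T.card := by exact_mod_cast hT
    set a : ℝ := (S.card : ℝ) with ha
    set b : ℝ := (T.card : ℝ) with hb
    have hX : Real.sqrt (a * b) * Real.sqrt (a * b) = a * b :=
      Real.mul_self_sqrt (by positivity)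
    have hXs : ν < Real.sqrt (a * b) := by
      apply Real.lt_sqrt_of_sq_lt
      nlinarith
    set X := Real.sqrt (a * b) with hXd
    rw [← hX, hβ] at h1
    push_cast at h1
    nlinarith [mul_pos hp (by linarith : (0 : ℝ) < X), mul_pos (mul_pos hp (by linarith : (0 : ℝ) < X)) (sub_pos.2 hXs)]

theorem log_bound {x : ℝ} (hx : 50 ≤ x) : (28 : ℝ) / 5 ≤ Real.logb 2 x := by
  rw [Real.le_logb_iff_rpow_le (by norm_num) (by linarith)]
  have h1 : (2 : ℝ) ^ ((28 : ℝ) / 5) = ((2 : ℝ) ^ (28 : ℕ)) ^ ((1 : ℝ) / 5) := by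
    rw [← Real.rpow_natCast, ← Real.rpow_mul (by norm_num)]
    norm_num
  rw [h1]
  have h2 : ((2 : ℝ) ^ (28 : ℕ)) ^ ((1 : ℝ) / 5) ≤ (((50 : ℝ)) ^ (5 : ℕ)) ^ ((1 : ℝ) / 5) := by
    apply Real.rpow_le_rpow (by positivity) (by norm_num) (by norm_num)
  have h3 : (((50 : ℝ)) ^ (5 : ℕ)) ^ ((1 : ℝ) / 5) = 50 := by
    rw [← Real.rpow_natCast, ← Real.rpow_mul (by norm_num)]
    norm_num
  linarith

/-- Pseudorandom graphs without large cliques have no semi-transitive orientation. -/
theorem not_semiTransitive_of_jumbled [Fintype V] (hp : 0 < p) (hβ : 0 < β)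
    (hJ : Jumbled G p β) (hn : 2 ≤ Fintype.card V)
    (hK : 50 * β * Real.logb 2 (Fintype.card V) ≤ p * Fintype.card V)
    (m : ℕ) (hmn : m ≤ Fintype.card V) (hm : 30 * β * m ≤ p * Fintype.card V)
    (hfree : G.CliqueFree m) : ¬ SemiTransitive G := by
  classical
  intro hG
  set n : ℝ := (Fintype.card V : ℝ) with hnd
  have hn2 : (2 : ℝ) ≤ n := by rw [hnd]; exact_mod_cast hn
  -- a nonadjacent pair
  have hpβ : p ≤ β := by
    obtain ⟨U, _, hU⟩ := Finset.exists_subset_card_eq
      (s := (Finset.univ : Finset V)) (n := m) (by simpa using hmn)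
    have hU2 := hfree U
    rw [SimpleGraph.isNClique_iff, not_and_or] at hU2
    rcases hU2 with h1 | h1
    · rw [SimpleGraph.isClique_iff, Set.Pairwise] at h1
      push Not at h1
      obtain ⟨x, _, y, _, hxy, hadj⟩ := h1
      have h2 := (abs_le.1 (hJ {x} {y} (by simpa using hxy))).1
      have h3 : edges G {x} {y} = 0 := by
        unfold edges
        rw [Finset.card_eq_zero, Finset.filter_eq_empty_iff]
        intro q hq
        simp only [Finset.mem_product, Finset.mem_singleton] at hq
        rw [hq.1, hq.2]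
        exact hadj
      rw [h3] at h2
      simp at h2
      linarith
    · exact absurd hU h1
  set ν : ℝ := β / p with hνd
  have hν1 : 1 ≤ ν := by rw [hνd, le_div_iff₀ hp]; linarith
  have hβν : β = ν * p := by rw [hνd]; field_simp
  set K : ℝ := n / ν with hKd
  have hν0 : 0 < ν := by linarith
  have hnK : n = K * ν := by rw [hKd]; field_simp
  have hK1 : 50 * Real.logb 2 n ≤ K := by
    rw [hKd, le_div_iff₀ hν0]
    have : (50 * Real.logb 2 n * ν) * p ≤ n * p := by
      rw [hβν] at hK; linarith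
    exact le_of_mul_le_mul_right this hp
  have hK2 : 30 * (m : ℝ) ≤ K := by
    rw [hKd, le_div_iff₀ hν0]
    have : (30 * (m : ℝ) * ν) * p ≤ n * p := by
      rw [hβν] at hm; linarith
    exact le_of_mul_le_mul_right this hp
  have hlog1 : 1 ≤ Real.logb 2 n := by
    rw [Real.le_logb_iff_rpow_le (by norm_num) (by linarith)]
    simpa using hn2
  have hK50 : 50 ≤ K := by linarith
  have hn50 : 50 ≤ n := by rw [hnK]; nlinarith
  have hlog2 := log_bound hn50
  have hK280 : 280 ≤ K := by linarith
  have hlogK := log_bound hK50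
  have hlogsum : Real.logb 2 n = Real.logb 2 K + Real.logb 2 ν := by
    rw [hnK, Real.logb_mul (by linarith) (by linarith)]
  have hlogν : 0 ≤ Real.logb 2 ν := Real.logb_nonneg (by norm_num) hν1
  -- parameters
  set w : ℕ := ⌊14 * ν⌋₊ + 9 with hwd
  have hw1 : 14 * ν + 8 < w := by
    have := Nat.lt_floor_add_one (14 * ν)
    rw [hwd]; push_cast; linarith
  have hw2 : (w : ℝ) ≤ 23 * ν := by
    have := Nat.floor_le (by positivity : (0 : ℝ) ≤ 14 * ν)
    rw [hwd]; push_cast; linarith
  set s : ℕ := ⌊ν⌋₊ + 1 with hsd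
  have hs1 : ν < s := by
    have := Nat.lt_floor_add_one ν
    rw [hsd]; push_cast; linarith
  have hs2 : (s : ℝ) ≤ ν + 1 := by
    have := Nat.floor_le hν0.le
    rw [hsd]; push_cast; linarith
  have hexp := expander_of_jumbled hJ hp hν1 hβν hw1 hs1 hs2 rfl
  set L1 : ℕ := Nat.clog 2 s with hL1d
  have hL1a : s ≤ 2 ^ L1 := Nat.le_pow_clog (by norm_num) s
  have hL1b : (L1 : ℝ) ≤ Real.logb 2 ν + 2 := by
    have h2 : 2 ≤ s := by
      have : (1 : ℝ) < s := by linarith
      have : 1 < s := by exact_mod_cast this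
      omega
    have h1 : 2 ^ (L1 - 1) < s := by
      have := Nat.pow_pred_clog_lt_self (b := 2) (by norm_num) (x := s) (by omega)
      simpa [hL1d, Nat.pred_eq_sub_one] using this
    have h3 : (2 : ℝ) ^ (L1 - 1) ≤ 2 * ν := by
      have : ((2 ^ (L1 - 1) : ℕ) : ℝ) < s := by exact_mod_cast h1
      push_cast at this
      linarith
    have h4 : ((L1 - 1 : ℕ) : ℝ) ≤ Real.logb 2 (2 * ν) := by
      rw [Real.le_logb_iff_rpow_le (by norm_num) (by positivity)]
      rw [Real.rpow_natCast]
      exact h3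
    rw [Real.logb_mul (by norm_num) (by linarith)] at h4
    have h5 : Real.logb 2 2 = 1 := by simp
    rw [h5] at h4
    have h6 : (L1 : ℝ) ≤ ((L1 - 1 : ℕ) : ℝ) + 1 := by
      have : L1 ≤ (L1 - 1) + 1 := by omega
      exact_mod_cast this
    linarith
  set L2 : ℕ := (m + 1) / 2 with hL2d
  have hL2a : m ≤ 2 * L2 + 1 := by omega
  have hL2b : 2 * (L2 : ℝ) ≤ m + 1 := by
    have : 2 * L2 ≤ m + 1 := by omega
    exact_mod_cast this
  have hL1pos : 1 ≤ L1 := by
    have : 0 < Nat.clog 2 s := Nat.clog_pos (by norm_num) (by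
      have : (1 : ℝ) < s := by linarith
      have : 1 < s := by exact_mod_cast this
      omega)
    omega
  have hroom : ∀ l : ℕ, (2 * (l : ℝ) + 1) * 23 ≤ K → (2 * l + 1) * w ≤ Fintype.card V := by
    intro l hl
    have h1 : ((2 * l + 1 : ℕ) : ℝ) * w ≤ n := by
      push_cast
      calc (2 * (l : ℝ) + 1) * w ≤ (2 * (l : ℝ) + 1) * (23 * ν) :=
            mul_le_mul_of_nonneg_left hw2 (by positivity)
        _ = ((2 * (l : ℝ) + 1) * 23) * ν := by ring
        _ ≤ K * ν := mul_le_mul_of_nonneg_right hl hν0.le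
        _ = n := hnK.symm
    rw [hnd] at h1
    exact_mod_cast h1
  have hr1 : (2 * (L1 : ℝ) + 1) * 23 ≤ K := by nlinarith
  have hr2 : (2 * (L2 : ℝ) + 1) * 23 ≤ K := by nlinarith
  set L : ℕ := max L1 L2 with hLd
  have hr : (2 * L + 1) * w ≤ Fintype.card V := by
    rcases max_choice L1 L2 with h | h
    · rw [hLd, h]; exact hroom _ hr1
    · rw [hLd, h]; exact hroom _ hr2
  have hsL : s ≤ 2 ^ L :=
    hL1a.trans (Nat.pow_le_pow_right (by norm_num) (le_max_left _ _))
  refine clique_of_semiTransitive hG hexp (by omega) (by omega) L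
    (hL1pos.trans (le_max_left _ _)) hsL hr ?_
  refine hfree.mono ?_
  have : L2 ≤ L := le_max_right _ _
  omega

end

end Pool.Agent.MP_e3911d_co
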