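import Pool.Agent.Lib.MP_e3911d_co.Core
import Pool.Agent.Lib.MP_e3911d_co.Girth

/-!
# MP_e3911d_co: lower bounds for graphs of given girth without a semi-transitive orientation
-/

namespace Pool.Agent.MP_e3911d_co

open SimpleGraph

variable {V : Type*} {G : SimpleGraph V}

theorem not_short_of_le_egirth {g l : ℕ} (hG : (g : ℕ∞) ≤ G.egirth) (hl : 3 ≤ l) (hlg : l < g) :
    ¬ Short G l := by
  rintro ⟨p, hp, hadj⟩
  have hc : cycleGraph l ⊑ G := by
    obtain ⟨n, rfl⟩ : ∃ n, l = n + 2 := ⟨l - 2, by omega⟩
    have hnx : ∀ u v : Fin (n + 2), v - u = 1 → v = nx u := by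
      intro u v huv
      have h1 : v = u + 1 := by rw [← huv]; abel
      rw [h1]
      apply Fin.ext
      rw [Fin.val_add]
      show (u.1 + (1 : Fin (n + 2)).1) % (n + 2) = (u.1 + 1) % (n + 2)
      rfl
    refine ⟨⟨⟨p, ?_⟩, hp⟩⟩
    intro u v huv
    rw [cycleGraph_adj] at huv
    rcases huv with h | h
    · rw [hnx v u h]
      exact (hadj v).symm
    · rw [hnx u v h]
      exact hadj u
  rw [cycleGraph_isContained_iff (by omega)] at hc
  obtain ⟨v, w, hw, hwl⟩ := hc
  have h1 := hG.trans (egirth_le_length hw)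
  rw [hwl] at h1
  have h2 : g ≤ l := by exact_mod_cast h1
  omega

/-- Few colours compared to the girth. -/
theorem semiTransitive_of_coloring {g : ℕ} (hG : (g : ℕ∞) ≤ G.egirth) (c : V → ℕ)
    (hc : ∀ x, c x + 2 ≤ g) (hadj : ∀ x y, G.Adj x y → c x ≠ c y) : SemiTransitive G := by
  refine ⟨fun u v => G.Adj u v ∧ c u < c v, fun u v h => h.1, ?_, ?_, ?_, ?_⟩
  · intro u v h
    rcases Nat.lt_or_gt_of_ne (hadj u v h) with h1 | h1
    · exact Or.inl ⟨h, h1⟩
    · exact Or.inr ⟨h.symm, h1⟩
  · intro u v h1 h2
    exact lt_asymm h1.2 h2.2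
  · intro v hv
    have : ∀ a b, Relation.TransGen (fun u v => G.Adj u v ∧ c u < c v) a b → c a < c b := by
      intro a b hab
      induction hab with
      | single h => exact h.2
      | tail _ h ih => exact ih.trans h.2
    exact lt_irrefl _ (this v v hv)
  · intro k p hp hs he i j hij hj
    rcases Nat.lt_or_ge k 2 with hk | hk
    · have h1 : i = 0 := by omega
      have h2 : j = k := by omega
      subst h1 h2
      exact he
    · exfalso
      have h1 : ∀ i ≤ k, i ≤ c (p i) := by
        intro i
        induction i with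
        | zero => intro _; exact Nat.zero_le _
        | succ i ih =>
          intro hi
          have h2 := ih (by omega)
          have h3 := (hs i (by omega)).2
          omega
      have h2 := h1 k le_rfl
      have h3 := hc (p k)
      refine not_short_of_le_egirth hG (l := k + 1) (by omega) (by omega) ?_
      refine ⟨fun a => p a.1, ?_, ?_⟩
      · intro a b hab
        have ha := a.2
        have hb := b.2
        exact Fin.ext (hp a.1 b.1 (by omega) (by omega) hab)
      · intro a
        have ha := a.2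
        show G.Adj (p a.1) (p (nx a).1)
        by_cases h4 : a.1 + 1 < k + 1
        · have e : (nx a).1 = a.1 + 1 := Nat.mod_eq_of_lt h4
          rw [e]
          exact (hs a.1 (by omega)).1
        · have e : a.1 = k := by omega
          have e2 : (nx a).1 = 0 := by
            show (a.1 + 1) % (k + 1) = 0
            rw [e, Nat.mod_self]
          rw [e2, e]
          exact he.1.symm

/-- Greedy colouring. -/
theorem exists_coloring [DecidableEq V] (m : ℕ)
    (h : ∀ S : Finset V, S.Nonempty → ∃ x ∈ S, ∀ T ⊆ S, (∀ y ∈ T, G.Adj x y) → T.card ≤ m)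
    (S : Finset V) : ∃ c : V → ℕ, (∀ x ∈ S, c x ≤ m) ∧
      ∀ x ∈ S, ∀ y ∈ S, G.Adj x y → c x ≠ c y := by
  classical
  induction S using Finset.strongInduction with
  | H S ih =>
    rcases S.eq_empty_or_nonempty with hS | hS
    · subst hS
      exact ⟨fun _ => 0, by simp, by simp⟩
    · obtain ⟨x, hx, hxd⟩ := h S hS
      obtain ⟨c, hc1, hc2⟩ := ih (S.erase x) (Finset.erase_ssubset hx)
      set T := (S.erase x).filter (fun y => G.Adj x y) with hT
      have hTc : T.card ≤ m := by
        apply hxd T
        · exact (Finset.filter_subset _ _).trans (Finset.erase_subset _ _)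
        · intro y hy
          rw [hT, Finset.mem_filter] at hy
          exact hy.2
      have h1 : (T.image c).card < (Finset.range (m + 1)).card := by
        rw [Finset.card_range]
        exact lt_of_le_of_lt (Finset.card_image_le.trans hTc) (Nat.lt_succ_self m)
      obtain ⟨k, hk1, hk2⟩ := Finset.exists_mem_notMem_of_card_lt_card h1
      rw [Finset.mem_range] at hk1
      refine ⟨Function.update c x k, ?_, ?_⟩
      · intro y hy
        by_cases hyx : y = x
        · subst hyx
          rw [Function.update_self]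
          omega
        · rw [Function.update_of_ne hyx]
          exact hc1 y (Finset.mem_erase.2 ⟨hyx, hy⟩)
      · have key : ∀ y ∈ S, y ≠ x → G.Adj x y → k ≠ c y := by
          intro y hy hyx hxy hk
          apply hk2
          rw [Finset.mem_image]
          refine ⟨y, ?_, hk.symm⟩
          rw [hT, Finset.mem_filter]
          exact ⟨Finset.mem_erase.2 ⟨hyx, hy⟩, hxy⟩
        intro y hy z hz hyz
        by_cases hyx : y = x
        · subst hyx
          have hzy : z ≠ y := fun h => G.ne_of_adj hyz h.symm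
          rw [Function.update_self, Function.update_of_ne hzy]
          exact key z hz hzy hyz
        · by_cases hzx : z = x
          · subst hzx
            rw [Function.update_self, Function.update_of_ne hyx]
            exact (key y hy hyx hyz.symm).symm
          · rw [Function.update_of_ne hyx, Function.update_of_ne hzx]
            exact hc2 y (Finset.mem_erase.2 ⟨hyx, hy⟩) z (Finset.mem_erase.2 ⟨hzx, hz⟩) hyz

/-- A closed non-backtracking sequence contains a short closed sequence of distinct vertices. -/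
theorem short_of_closed (z : ℕ → V) {L : ℕ} (hL : 1 ≤ L) (hadj : ∀ i < L, G.Adj (z i) (z (i + 1)))
    (hnb : ∀ i, i + 2 ≤ L → z (i + 2) ≠ z i) (h0 : z 0 = z L) :
    ∃ l, 3 ≤ l ∧ l ≤ L ∧ Short G l := by
  classical
  have hex : ∃ l : ℕ, 1 ≤ l ∧ ∃ i, i + l ≤ L ∧ z i = z (i + l) :=
    ⟨L, hL, 0, by omega, by rw [Nat.zero_add]; exact h0⟩
  obtain ⟨l, ⟨hl1, i, hi, hz⟩, hmin⟩ : ∃ l : ℕ, (1 ≤ l ∧ ∃ i, i + l ≤ L ∧ z i = z (i + l)) ∧
      ∀ b < l, ¬ (1 ≤ b ∧ ∃ i, i + b ≤ L ∧ z i = z (i + b)) :=
    ⟨Nat.find hex, Nat.find_spec hex, fun b hb => Nat.find_min hex hb⟩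
  have hl3 : 3 ≤ l := by
    by_contra hcon
    have h1 : l = 1 ∨ l = 2 := by omega
    rcases h1 with h1 | h1
    · subst h1
      have := hadj i (by omega)
      rw [← hz] at this
      exact G.irrefl this
    · subst h1
      exact hnb i hi hz.symm
  refine ⟨l, hl3, by omega, fun a => z (i + a.1), ?_, ?_⟩
  · have key : ∀ a b : ℕ, a < b → b < l → z (i + a) ≠ z (i + b) := by
      intro a b hab hb he
      refine hmin (b - a) (by omega) ⟨by omega, i + a, by omega, ?_⟩
      have e : i + a + (b - a) = i + b := by omega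
      rw [e]
      exact he
    intro a b hab
    have ha := a.2
    have hb := b.2
    by_contra hne
    have hne' : a.1 ≠ b.1 := fun h => hne (Fin.ext h)
    rcases Nat.lt_or_gt_of_ne hne' with h | h
    · exact key a.1 b.1 h hb hab
    · exact key b.1 a.1 h ha hab.symm
  · intro a
    have ha := a.2
    show G.Adj (z (i + a.1)) (z (i + (nx a).1))
    by_cases h4 : a.1 + 1 < l
    · have e : (nx a).1 = a.1 + 1 := Nat.mod_eq_of_lt h4
      rw [e]
      exact hadj (i + a.1) (by omega)
    · have e : a.1 + 1 = l := by omega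
      have e2 : (nx a).1 = 0 := by
        show (a.1 + 1) % l = 0
        rw [e, Nat.mod_self]
      rw [e2, Nat.add_zero, hz]
      have h5 := hadj (i + a.1) (by omega)
      have e3 : i + a.1 + 1 = i + l := by omega
      rw [e3] at h5
      exact h5

/-- Non-backtracking sequences in `S`. -/
def NB (G : SimpleGraph V) (S : Finset V) (k : ℕ) (u v z : V) : Prop :=
  ∃ x : ℕ → V, x 0 = u ∧ x 1 = v ∧ x (k + 1) = z ∧ (∀ i ≤ k, G.Adj (x i) (x (i + 1))) ∧
    (∀ i < k, x (i + 2) ≠ x i) ∧ ∀ i ≤ k + 1, x i ∈ S

theorem nb_disjoint {S : Finset V} {k : ℕ} {v w w' z : V} (hww : w ≠ w')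
    (h1 : NB G S k v w z) (h2 : NB G S k v w' z) :
    ∃ l, 3 ≤ l ∧ l ≤ 2 * (k + 1) ∧ Short G l := by
  classical
  obtain ⟨x, hx0, hx1, hxz, hxa, hxn, -⟩ := h1
  obtain ⟨y, hy0, hy1, hyz, hya, hyn, -⟩ := h2
  have hex : ∃ j : ℕ, 1 ≤ j ∧ x j = y j := ⟨k + 1, by omega, by rw [hxz, hyz]⟩
  obtain ⟨j, ⟨hj1, hj⟩, hmin⟩ : ∃ j : ℕ, (1 ≤ j ∧ x j = y j) ∧
      ∀ b < j, ¬ (1 ≤ b ∧ x b = y b) :=
    ⟨Nat.find hex, Nat.find_spec hex, fun b hb => Nat.find_min hex hb⟩
  have hjk : j ≤ k + 1 := by
    by_contra hcon
    exact hmin (k + 1) (by omega) ⟨by omega, by rw [hxz, hyz]⟩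
  have hj2 : 2 ≤ j := by
    by_contra hcon
    have : j = 1 := by omega
    subst this
    rw [hx1, hy1] at hj
    exact hww hj
  set c : ℕ → V := fun i => if i ≤ j then x i else y (2 * j - i) with hc
  have hcx : ∀ i, i ≤ j → c i = x i := fun i hi => if_pos hi
  have hcy : ∀ i, j ≤ i → c i = y (2 * j - i) := by
    intro i hi
    by_cases h : i ≤ j
    · have : i = j := by omega
      subst this
      rw [hcx i h, hj]
      congr 1
      omega
    · exact if_neg h
  obtain ⟨l, hl3, hl, hs⟩ := short_of_closed (G := G) c (L := 2 * j) (by omega) (by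
    intro i hi
    by_cases h : i + 1 ≤ j
    · rw [hcx i (by omega), hcx (i + 1) h]
      exact hxa i (by omega)
    · rw [hcy i (by omega), hcy (i + 1) (by omega)]
      have e : 2 * j - i = 2 * j - (i + 1) + 1 := by omega
      rw [e]
      exact (hya _ (by omega)).symm) (by
    intro i hi
    by_cases h : i + 2 ≤ j
    · rw [hcx i (by omega), hcx (i + 2) h]
      exact hxn i (by omega)
    · by_cases h2 : j ≤ i
      · rw [hcy i h2, hcy (i + 2) (by omega)]
        have e : 2 * j - i = 2 * j - (i + 2) + 2 := by omega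
        rw [e]
        exact (hyn _ (by omega)).symm
      · have e1 : i = j - 1 := by omega
        rw [hcx i (by omega), hcy (i + 2) (by omega)]
        have e2 : 2 * j - (i + 2) = i := by omega
        rw [e2]
        intro he
        exact hmin i (by omega) ⟨by omega, he.symm⟩) (by
    rw [hcx 0 (by omega), hcy (2 * j) (by omega), Nat.sub_self, hx0, hy0])
  exact ⟨l, hl3, by omega, hs⟩

/-- The number of endpoints of non-backtracking sequences. -/
theorem nb_card [DecidableEq V] {S : Finset V} {m g : ℕ} (hG : (g : ℕ∞) ≤ G.egirth)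
    (hS : ∀ x ∈ S, ∃ T ⊆ S, (∀ y ∈ T, G.Adj x y) ∧ m + 1 ≤ T.card) (k : ℕ) :
    2 * k < g → ∀ u ∈ S, ∀ v ∈ S, G.Adj u v →
      ∃ T : Finset V, (∀ z ∈ T, NB G S k u v z) ∧ m ^ k ≤ T.card := by
  classical
  induction k with
  | zero =>
    intro _ u hu v hv huv
    refine ⟨{v}, ?_, by simp⟩
    intro z hz
    rw [Finset.mem_singleton] at hz
    subst hz
    refine ⟨fun i => if i = 0 then u else z, by simp, by simp, by simp, ?_, by simp, ?_⟩
    · intro i hi
      have : i = 0 := by omega
      subst this
      simpa using huv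
    · intro i hi
      by_cases h : i = 0
      · simp [h, hu]
      · simp [h, hv]
  | succ k ih =>
    intro hk u hu v hv huv
    obtain ⟨T, hTS, hTa, hTc⟩ := hS v hv
    have hT' : m ≤ (T.erase u).card := by
      have := Finset.pred_card_le_card_erase (s := T) (a := u)
      omega
    have hw : ∀ w ∈ T.erase u, ∃ R : Finset V, (∀ z ∈ R, NB G S k v w z) ∧ m ^ k ≤ R.card := by
      intro w hw
      rw [Finset.mem_erase] at hw
      exact ih (by omega) v hv w (hTS hw.2) (hTa w hw.2)
    choose! R hR1 hR2 using hw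
    refine ⟨(T.erase u).biUnion R, ?_, ?_⟩
    · intro z hz
      rw [Finset.mem_biUnion] at hz
      obtain ⟨w, hw, hz⟩ := hz
      obtain ⟨x, h0, h1, h2, h3, h4, h5⟩ := hR1 w hw z hz
      rw [Finset.mem_erase] at hw
      refine ⟨fun i => if i = 0 then u else x (i - 1), by simp, by simpa using h0, ?_, ?_, ?_, ?_⟩
      · simpa using h2
      · intro i hi
        by_cases h : i = 0
        · subst h
          simpa [h0] using huv
        · have e : i + 1 ≠ 0 := by omega
          simp only [h, if_false]
          have e2 : i + 1 - 1 = i - 1 + 1 := by omega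
          rw [if_neg e, e2]
          exact h3 (i - 1) (by omega)
      · intro i hi
        by_cases h : i = 0
        · subst h
          simp only [if_true]
          have e : (0 + 2 : ℕ) ≠ 0 := by omega
          rw [if_neg e]
          show x 1 ≠ u
          rw [h1]
          exact hw.1
        · have e : i + 2 ≠ 0 := by omega
          simp only [h, if_false]
          have e2 : i + 2 - 1 = i - 1 + 2 := by omega
          rw [if_neg e, e2]
          exact h4 (i - 1) (by omega)
      · intro i hi
        by_cases h : i = 0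
        · simp only [h, if_true]
          exact hu
        · simp only [h, if_false]
          exact h5 (i - 1) (by omega)
    · rw [Finset.card_biUnion]
      · calc m ^ (k + 1) = m * m ^ k := by rw [pow_succ, mul_comm]
          _ ≤ (T.erase u).card * m ^ k := Nat.mul_le_mul_right _ hT'
          _ = ∑ _w ∈ T.erase u, m ^ k := by rw [Finset.sum_const, smul_eq_mul]
          _ ≤ _ := Finset.sum_le_sum fun w hw => hR2 w hw
      · intro w hw w' hw' hne
        show Disjoint (R w) (R w')
        rw [Finset.disjoint_left]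
        intro z hz hz'
        obtain ⟨l, hl3, hl, hs⟩ := nb_disjoint hne (hR1 w hw z hz) (hR1 w' hw' z hz')
        exact not_short_of_le_egirth hG hl3 (by omega) hs

/-- Lower bounds for the number of vertices and for the maximum degree. -/
theorem lower [Fintype V] {g : ℕ} (hg : 2 ≤ g) (hG : (g : ℕ∞) ≤ G.egirth)
    (hs : ¬ SemiTransitive G) :
    (g - 2) ^ ((g - 1) / 2) ≤ Fintype.card V ∧ ∃ x, g - 1 ≤ (G.neighborSet x).ncard := by
  classical
  have hex : ∃ S : Finset V, S.Nonempty ∧
      ∀ x ∈ S, ∃ T ⊆ S, (∀ y ∈ T, G.Adj x y) ∧ g - 2 + 1 ≤ T.card := by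
    by_contra hcon
    apply hs
    obtain ⟨c, hc1, hc2⟩ := exists_coloring (G := G) (g - 2) (by
      intro S hS
      by_contra h
      apply hcon
      refine ⟨S, hS, fun x hx => ?_⟩
      by_contra h2
      apply h
      refine ⟨x, hx, fun T hT hTa => ?_⟩
      by_contra h3
      exact h2 ⟨T, hT, hTa, by omega⟩) Finset.univ
    refine semiTransitive_of_coloring hG c ?_ ?_
    · intro x
      have := hc1 x (Finset.mem_univ x)
      omega
    · intro x y hxy
      exact hc2 x (Finset.mem_univ x) y (Finset.mem_univ y) hxy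
  obtain ⟨S, ⟨u, hu⟩, hS⟩ := hex
  obtain ⟨T, hTS, hTa, hTc⟩ := hS u hu
  constructor
  · have hTne : T.Nonempty := Finset.card_pos.1 (by omega)
    obtain ⟨v, hv⟩ := hTne
    obtain ⟨R, -, hR⟩ := nb_card hG hS ((g - 1) / 2) (by omega) u hu v (hTS hv) (hTa v hv)
    exact hR.trans (Finset.card_le_univ R)
  · refine ⟨u, ?_⟩
    have h1 : T.card ≤ (G.neighborSet u).ncard := by
      rw [← Set.ncard_coe_finset]
      refine Set.ncard_le_ncard ?_ (Set.toFinite _)
      intro y hy
      exact hTa y hy
    omega

end Pool.Agent.MP_e3911d_co
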