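import Mathlib

/-!
# MP_e3911d_co: sparse graphs are 3-colourable; intervals of an ordering
-/

set_option autoImplicit false

open Finset

namespace Pool.Agent.Lib.MP_e3911d_co

theorem three_col {V : Type} [DecidableEq V] (G : SimpleGraph V) (T : Finset V)
    (h : ∀ T' ⊆ T, T'.Nonempty → ∀ D : Finset (Sym2 V),
      (∀ e ∈ D, e ∈ T'.sym2 ∧ e ∈ G.edgeSet) → 2 * D.card < 3 * T'.card) :
    ∃ c : V → Fin 3, ∀ u ∈ T, ∀ v ∈ T, G.Adj u v → c u ≠ c v := by
  classical
  induction T using Finset.strongInduction with
  | H T ih =>
    rcases T.eq_empty_or_nonempty with rfl | hT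
    · exact ⟨fun _ => 0, fun u hu => absurd hu (notMem_empty _)⟩
    · -- a vertex of degree at most 2
      set Pr := (T ×ˢ T).filter fun a => G.Adj a.1 a.2 with hPr
      set D := Pr.image fun a => s(a.1, a.2) with hD
      have hDc := h T (Subset.refl _) hT D (by
        intro e he
        obtain ⟨a, ha, rfl⟩ := mem_image.1 he
        obtain ⟨ha1, ha2⟩ := mem_filter.1 ha
        obtain ⟨ha3, ha4⟩ := mem_product.1 ha1
        exact ⟨mk_mem_sym2_iff.2 ⟨ha3, ha4⟩, ha2⟩)
      have hPD : Pr.card ≤ 2 * D.card := by
        refine card_le_mul_card_image Pr 2 ?_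
        intro e he
        obtain ⟨a, ha, rfl⟩ := mem_image.1 he
        have : (Pr.filter fun x => s(x.1, x.2) = s(a.1, a.2)) ⊆ {a, (a.2, a.1)} := by
          intro x hx
          have hx2 := (mem_filter.1 hx).2
          rw [Sym2.eq_iff] at hx2
          rcases hx2 with ⟨h1, h2⟩ | ⟨h1, h2⟩
          · exact mem_insert.2 (Or.inl (Prod.ext h1 h2))
          · exact mem_insert.2 (Or.inr (mem_singleton.2 (Prod.ext h1 h2)))
        exact (card_le_card this).trans card_le_two
      have hsum : Pr.card = ∑ v ∈ T, (T.filter fun u => G.Adj v u).card := by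
        rw [hPr, card_filter, sum_product]
        refine sum_congr rfl fun v _ => ?_
        rw [card_filter]
      have hex : ∃ v ∈ T, (T.filter fun u => G.Adj v u).card ≤ 2 := by
        by_contra hcon
        push Not at hcon
        have : 3 * T.card ≤ ∑ v ∈ T, (T.filter fun u => G.Adj v u).card := by
          have := card_nsmul_le_sum T (fun v => (T.filter fun u => G.Adj v u).card) 3
            (fun v hv => hcon v hv)
          rw [smul_eq_mul] at this
          omega
        omega
      obtain ⟨v, hv, hdeg⟩ := hex
      obtain ⟨c, hc⟩ := ih (T.erase v) (erase_ssubset hv) (fun T' hT' hne D' hD' =>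
        h T' (hT'.trans (erase_subset _ _)) hne D' hD')
      set used := (T.filter fun u => G.Adj v u).image c with hused
      have hu : used.card ≤ 2 := card_image_le.trans hdeg
      obtain ⟨x, hx⟩ : ∃ x : Fin 3, x ∉ used := by
        by_contra hcon
        push Not at hcon
        have : used = univ := eq_univ_iff_forall.2 hcon
        rw [this] at hu
        simp at hu
      refine ⟨Function.update c v x, ?_⟩
      intro a ha b hb hab
      have hne : a ≠ b := hab.ne
      by_cases h1 : a = v
      · subst h1
        have h2 : b ≠ a := hne.symm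
        rw [Function.update_self, Function.update_of_ne h2]
        intro hcon
        exact hx (mem_image.2 ⟨b, mem_filter.2 ⟨hb, hab⟩, hcon.symm⟩)
      · by_cases h2 : b = v
        · subst h2
          rw [Function.update_self, Function.update_of_ne h1]
          intro hcon
          exact hx (mem_image.2 ⟨a, mem_filter.2 ⟨ha, hab.symm⟩, hcon⟩)
        · rw [Function.update_of_ne h1, Function.update_of_ne h2]
          exact hc a (mem_erase.2 ⟨h1, ha⟩) b (mem_erase.2 ⟨h2, hb⟩) hab

theorem intervals {g N : ℕ} (w : ℕ) (r : Fin g × Fin N → ℕ) : ∀ (m : ℕ) (J : Finset (Fin g)),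
    J.card = m → ∀ U : Fin g → Finset (Fin N), (∀ j ∈ J, m * w ≤ (U j).card) →
    (∀ j ∈ J, ∀ a ∈ U j, ∀ b ∈ U j, r (j, a) = r (j, b) → a = b) →
    ∃ (σ : Fin m → Fin g) (W : Fin m → Finset (Fin N)), Function.Injective σ ∧
      (∀ i, σ i ∈ J) ∧ (∀ i, W i ⊆ U (σ i) ∧ (W i).card = w) ∧
      ∀ i i', i < i' → ∀ a ∈ W i, ∀ b ∈ W i', r (σ i, a) < r (σ i', b) := by
  classical
  intro m
  induction m with
  | zero =>
    intro J _ U _ _
    exact ⟨fun i => i.elim0, fun i => i.elim0, fun i => i.elim0, fun i => i.elim0,
      fun i => i.elim0, fun i => i.elim0⟩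
  | succ m ih =>
    intro J hJ U hU hinj
    have hex : ∃ t, ∃ j ∈ J, w ≤ ((U j).filter fun a => r (j, a) < t).card := by
      obtain ⟨j, hj⟩ : J.Nonempty := by
        rw [← card_pos, hJ]; omega
      refine ⟨((U j).sup fun a => r (j, a)) + 1, j, hj, ?_⟩
      rw [filter_true_of_mem]
      · have := hU j hj
        nlinarith
      · intro a ha
        have := le_sup (f := fun a => r (j, a)) ha
        omega
    set t := Nat.find hex with ht
    obtain ⟨j, hj, hjw⟩ := Nat.find_spec hex
    rw [← ht] at hjw
    have hle : ∀ j' ∈ J, ((U j').filter fun a => r (j', a) < t).card ≤ w := by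
      intro j' hj'
      rcases Nat.eq_zero_or_pos t with h0 | h0
      · rw [h0]
        have : ((U j').filter fun a => r (j', a) < 0) = ∅ := by
          apply filter_false_of_mem
          intro a _; omega
        rw [this]; simp
      · obtain ⟨t', ht'⟩ : ∃ t', t = t' + 1 := ⟨t - 1, by omega⟩
        have hmin := Nat.find_min hex (m := t') (by rw [← ht]; omega)
        push Not at hmin
        have h1 := hmin j' hj'
        have h2 : ((U j').filter fun a => r (j', a) < t) ⊆
            ((U j').filter fun a => r (j', a) < t') ∪ ((U j').filter fun a => r (j', a) = t') := by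
          intro a ha
          obtain ⟨ha1, ha2⟩ := mem_filter.1 ha
          rcases Nat.lt_or_ge (r (j', a)) t' with h | h
          · exact mem_union_left _ (mem_filter.2 ⟨ha1, h⟩)
          · exact mem_union_right _ (mem_filter.2 ⟨ha1, by omega⟩)
        have h3 : ((U j').filter fun a => r (j', a) = t').card ≤ 1 := by
          rw [card_le_one]
          intro a ha b hb
          obtain ⟨ha1, ha2⟩ := mem_filter.1 ha
          obtain ⟨hb1, hb2⟩ := mem_filter.1 hb
          exact hinj j' hj' a ha1 b hb1 (by rw [ha2, hb2])
        have h4 := (card_le_card h2).trans (card_union_le _ _)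
        omega
    obtain ⟨W0, hW0, hW0c⟩ := exists_subset_card_eq hjw
    obtain ⟨σ, W, hσ, hσJ, hW, hr⟩ := ih (J.erase j) (by rw [card_erase_of_mem hj, hJ]; omega)
      (fun j' => (U j').filter fun a => t ≤ r (j', a)) (by
        intro j' hj'
        have hj'' := mem_of_mem_erase hj'
        have h1 := hU j' hj''
        have h2 := hle j' hj''
        have h3 := card_filter_add_card_filter_not (s := U j') (fun a => r (j', a) < t)
        have h4 : ((U j').filter fun a => ¬ r (j', a) < t) =
            ((U j').filter fun a => t ≤ r (j', a)) := by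
          apply filter_congr
          intro a _
          exact not_lt
        rw [h4] at h3
        have : (m + 1) * w = m * w + w := by ring
        omega) (by
        intro j' hj' a ha b hb hab
        exact hinj j' (mem_of_mem_erase hj') a (mem_filter.1 ha).1 b (mem_filter.1 hb).1 hab)
    refine ⟨Fin.cons j σ, Fin.cons W0 W, ?_, ?_, ?_, ?_⟩
    · rw [Fin.cons_injective_iff]
      refine ⟨?_, hσ⟩
      rintro ⟨i, hi⟩
      exact (ne_of_mem_erase (hσJ i)) hi
    · intro i
      refine Fin.cases ?_ (fun i => ?_) i
      · exact hj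
      · exact mem_of_mem_erase (hσJ i)
    · intro i
      refine Fin.cases ?_ (fun i => ?_) i
      · exact ⟨hW0.trans (filter_subset _ _), hW0c⟩
      · exact ⟨(hW i).1.trans (filter_subset _ _), (hW i).2⟩
    · intro i i' hii a ha b hb
      revert hii a ha b hb
      refine Fin.cases ?_ (fun i => ?_) i
      · refine Fin.cases ?_ (fun i' => ?_) i'
        · intro h; exact absurd h (lt_irrefl _)
        · intro _ a ha b hb
          rw [Fin.cons_zero] at ha ⊢
          rw [Fin.cons_succ] at hb ⊢
          have h1 := (mem_filter.1 (hW0 ha)).2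
          have h2 := (mem_filter.1 ((hW i').1 hb)).2
          omega
      · refine Fin.cases ?_ (fun i' => ?_) i'
        · intro h; exact absurd h (by simp)
        · intro h a ha b hb
          rw [Fin.cons_succ] at ha hb
          rw [Fin.cons_succ, Fin.cons_succ]
          exact hr i i' (Fin.succ_lt_succ_iff.1 h) a ha b hb

end Pool.Agent.Lib.MP_e3911d_co
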