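import Pool.Agent.Lib.MP_e3911d_co.RandB
import Pool.Agent.Lib.MP_e3911d_co.Three

/-!
# MP_e3911d_co: critical graphs of girth and chromatic number `g`
-/

set_option autoImplicit false

open Finset

namespace Pool.Agent.Lib.MP_e3911d_co

section
variable {n N : ℕ}

/-- the multipartite graph of a set of pairs -/
def gr (B : Finset (Sym2 (Fin (n + 4) × Fin N))) : SimpleGraph (Fin (n + 4) × Fin N) where
  Adj u v := u.1 ≠ v.1 ∧ s(u, v) ∈ B
  symm := ⟨fun u v h => ⟨h.1.symm, by rw [Sym2.eq_swap]; exact h.2⟩⟩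
  loopless := ⟨fun u h => h.1 rfl⟩

theorem gr_adj (B : Finset (Sym2 (Fin (n + 4) × Fin N))) (u v : Fin (n + 4) × Fin N) :
    (gr B).Adj u v ↔ u.1 ≠ v.1 ∧ s(u, v) ∈ B := Iff.rfl

/-- first points of the short cycles -/
noncomputable def bad (A : Finset (Sym2 (Fin (n + 4) × Fin N))) : Finset (Fin (n + 4) × Fin N) :=
  (range (n + 1)).biUnion fun m => ((cycs n N m).filter fun y => Dy y ⊆ A).image fun y => y 0

theorem card_bad_le (A : Finset (Sym2 (Fin (n + 4) × Fin N))) :
    (bad A).card ≤ ∑ m ∈ range (n + 1), ((cycs n N m).filter fun y => Dy y ⊆ A).card := by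
  unfold bad
  refine card_biUnion_le.trans ?_
  exact sum_le_sum fun m _ => card_image_le

theorem Dy_sub {B : Finset (Sym2 (Fin (n + 4) × Fin N))} {m : ℕ}
    {y : Fin (m + 3) → Fin (n + 4) × Fin N} (h : ∀ i, (gr B).Adj (y i) (y (i + 1))) :
    Dy y ⊆ B := by
  intro e he
  unfold Dy at he
  obtain ⟨i, -, rfl⟩ := mem_image.1 he
  exact (h i).2

/-- girth -/
theorem girth_ge {A B : Finset (Sym2 (Fin (n + 4) × Fin N))} (hBA : B ⊆ A) {W : Type}
    (f : W → Fin (n + 4) × Fin N) (hf : Function.Injective f) (hR : ∀ a, f a ∉ bad A) :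
    ((n + 4 : ℕ) : ℕ∞) ≤ ((gr B).comap f).egirth := by
  by_contra hcon
  rw [not_le] at hcon
  obtain ⟨m, hm, y, hy, hadj⟩ := cyc_of_egirth_lt hcon
  refine hR (y 0) ?_
  unfold bad
  rw [mem_biUnion]
  refine ⟨m, mem_range.2 (by omega), mem_image.2 ⟨fun i => f (y i), mem_filter.2 ⟨?_, ?_⟩, rfl⟩⟩
  · exact (mem_cycs _).2 (hf.comp hy)
  · exact (Dy_sub (B := B) hadj).trans hBA

theorem colorable_gr (B : Finset (Sym2 (Fin (n + 4) × Fin N))) {W : Type}
    (f : W → Fin (n + 4) × Fin N) : ((gr B).comap f).Colorable (n + 4) :=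
  ⟨SimpleGraph.Coloring.mk (fun a => (f a).1) fun h => h.1⟩

/-- the whole graph -/
theorem not_semi_all {w : ℕ} {A : Finset (Sym2 (Fin (n + 4) × Fin N))}
    (hw : 2 * ((n + 4) * w) = N)
    (h1 : ∀ σ : Fin (n + 4) → Fin (n + 4), Function.Injective σ →
      ∀ W : Fin (n + 4) → Finset (Fin N), (∀ i, (W i).card = w) →
        ∃ y, (∀ i, y i ∈ W i) ∧ Cy σ y ⊆ A)
    (h2 : 2 * (∑ m ∈ range (n + 1), ((cycs n N m).filter fun y => Dy y ⊆ A).card) < N) :
    ¬ SemiTransitive ((gr A).comap (Subtype.val : {v // v ∉ bad A} → Fin (n + 4) × Fin N)) := by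
  classical
  have hbad : (bad A).card ≤ (n + 4) * w := by
    have := card_bad_le A
    omega
  have hg := girth_ge (Subset.refl A) (Subtype.val : {v // v ∉ bad A} → Fin (n + 4) × Fin N)
    Subtype.val_injective (fun a => a.2)
  refine not_semi (le_trans ?_ hg) n ?_
  · exact_mod_cast (by omega : 4 ≤ n + 4)
  intro r hr
  set r' : Fin (n + 4) × Fin N → ℕ := fun v => if h : v ∉ bad A then r ⟨v, h⟩ else 0 with hr'
  have hr'v : ∀ v (h : v ∉ bad A), r' v = r ⟨v, h⟩ := by
    intro v h
    simp only [hr']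
    rw [dif_pos h]
  have hside1 : ∀ j ∈ (univ : Finset (Fin (n + 4))),
      (n + 4) * w ≤ (univ.filter fun b : Fin N => (j, b) ∉ bad A).card := by
    intro j _
    have e1 : (univ.filter fun b : Fin N => ¬ (j, b) ∉ bad A).card ≤ (bad A).card := by
      apply card_le_card_of_injOn (fun b => (j, b))
      · intro b hb
        have := (mem_filter.1 hb).2
        exact not_not.1 this
      · intro b _ b' _ h
        exact congrArg Prod.snd h
    have e2 := card_filter_add_card_filter_not (s := (univ : Finset (Fin N)))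
      (p := fun b : Fin N => (j, b) ∉ bad A)
    rw [card_univ, Fintype.card_fin] at e2
    omega
  have hside2 : ∀ j ∈ (univ : Finset (Fin (n + 4))),
      ∀ a ∈ univ.filter (fun b : Fin N => (j, b) ∉ bad A),
      ∀ b ∈ univ.filter (fun b : Fin N => (j, b) ∉ bad A), r' (j, a) = r' (j, b) → a = b := by
    intro j _ a ha b hb hab
    have ha' := (mem_filter.1 ha).2
    have hb' := (mem_filter.1 hb).2
    rw [hr'v _ ha', hr'v _ hb'] at hab
    have := congrArg Subtype.val (hr hab)
    exact congrArg Prod.snd this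
  obtain ⟨σ, W, hσ, -, hW, hmono⟩ := intervals w r' (n + 4) univ (by simp)
    (fun j => univ.filter fun b => (j, b) ∉ bad A) hside1 hside2
  obtain ⟨y, hyW, hyA⟩ := h1 σ hσ W fun i => (hW i).2
  have hnb : ∀ i, (σ i, y i) ∉ bad A := fun i => (mem_filter.1 ((hW i).1 (hyW i))).2
  refine ⟨fun i => ⟨(σ i, y i), hnb i⟩, ?_, ?_⟩
  · intro i j hij
    have := hmono i j hij (y i) (hyW i) (y j) (hyW j)
    rwa [hr'v _ (hnb i), hr'v _ (hnb j)] at this
  · intro i
    refine ⟨?_, ?_⟩
    · intro h
      have h' : i = i + 1 := hσ h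
      have h3 : i + 0 = i + 1 := by rw [add_zero]; exact h'
      have h4 : (0 : Fin (n + 4)) = 1 := add_left_cancel h3
      have := congrArg Fin.val h4
      simp at this
    · apply hyA
      unfold Cy Dy
      exact mem_image.2 ⟨i, mem_univ _, rfl⟩

theorem main (m : ℕ) : ∃ (k : ℕ) (H : SimpleGraph (Fin k)), m < k ∧
    H.egirth = ((n + 4 : ℕ) : ℕ∞) ∧ H.chromaticNumber = ((n + 4 : ℕ) : ℕ∞) ∧
    ¬ SemiTransitive H ∧ (∀ H' : H.Subgraph, H' ≠ ⊤ → SemiTransitive H'.coe) ∧
    ∀ S : Finset (Fin k), S.card ^ 100 ≤ k → (H.induce (S : Set (Fin k))).Colorable 3 := by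
  classical
  obtain ⟨N, w, K, A, hmK, hsK, -, hw, h1, h2, h3⟩ := exists_good n m
  have hns := not_semi_all hw h1 h2
  -- the critical pair
  set P : Finset (Finset (Fin (n + 4) × Fin N) × Finset (Sym2 (Fin (n + 4) × Fin N))) :=
    univ.filter fun X => Disjoint X.1 (bad A) ∧ X.2 ⊆ A ∧
      ¬ SemiTransitive ((gr X.2).comap (Subtype.val : {v // v ∈ X.1} → Fin (n + 4) × Fin N))
    with hP
  have hPne : P.Nonempty := by
    refine ⟨((bad A)ᶜ, A), mem_filter.2 ⟨mem_univ _, ?_, Subset.refl _, ?_⟩⟩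
    · exact disjoint_compl_left
    · intro h
      apply hns
      have := h.comap (fun a : {v // v ∉ bad A} =>
        (⟨a.1, mem_compl.2 a.2⟩ : {v // v ∈ (bad A)ᶜ})) (fun a b hab =>
          Subtype.ext (congrArg (fun x => x.1) hab))
      exact this
  obtain ⟨⟨T, B⟩, hTB, hmin⟩ := exists_min_image P (fun X => X.1.card + X.2.card) hPne
  obtain ⟨-, hTbad, hBA, hnsT⟩ := mem_filter.1 hTB
  simp only at hTbad hBA hnsT
  set k := T.card with hk
  set e : Fin k ≃ {v // v ∈ T} := T.equivFin.symm with he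
  set f : Fin k → Fin (n + 4) × Fin N := fun i => (e i).1 with hf
  have hfinj : Function.Injective f := fun i j hij => e.injective (Subtype.ext hij)
  have hfT : ∀ i, f i ∈ T := fun i => (e i).2
  have hfb : ∀ i, f i ∉ bad A := fun i => disjoint_left.1 hTbad (hfT i)
  set H : SimpleGraph (Fin k) := (gr B).comap f with hH
  have hHadj : ∀ a b, H.Adj a b ↔ (f a).1 ≠ (f b).1 ∧ s(f a, f b) ∈ B := fun a b => Iff.rfl
  have hnsH : ¬ SemiTransitive H := by
    intro h
    apply hnsT
    have h4 := h.comap (fun v : {v // v ∈ T} => e.symm v) e.symm.injective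
    have h5 : H.comap (fun v : {v // v ∈ T} => e.symm v) =
        (gr B).comap (Subtype.val : {v // v ∈ T} → Fin (n + 4) × Fin N) := by
      ext a b
      simp only [SimpleGraph.comap_adj, hH, hf, Equiv.apply_symm_apply]
    rwa [h5] at h4
  have hgH : ((n + 4 : ℕ) : ℕ∞) ≤ H.egirth := girth_ge hBA f hfinj hfb
  have hcol : H.Colorable (n + 4) := colorable_gr B f
  -- small sets are 3-colourable
  have hthree : ∀ S : Finset (Fin k), S.card ≤ K →
      (H.induce (S : Set (Fin k))).Colorable 3 := by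
    intro S hS
    have hsp : ∀ T' ⊆ S.image f, T'.Nonempty → ∀ D : Finset (Sym2 (Fin (n + 4) × Fin N)),
        (∀ e ∈ D, e ∈ T'.sym2 ∧ e ∈ (gr B).edgeSet) → 2 * D.card < 3 * T'.card := by
      intro T' hT' hne D hD
      by_contra hcon
      rw [not_lt] at hcon
      refine h3 T' hne ?_ D ?_ hcon ?_
      · exact (card_le_card hT').trans (card_image_le.trans hS)
      · intro x hx
        exact (hD x hx).1
      · intro x hx
        have := (hD x hx).2
        apply hBA
        induction x using Sym2.ind with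
        | _ u v => exact (((gr B).mem_edgeSet).1 this).2
    obtain ⟨c, hc⟩ := three_col (gr B) (S.image f) hsp
    refine ⟨SimpleGraph.Coloring.mk (fun a => c (f a.1)) ?_⟩
    intro a b hab
    exact hc _ (mem_image_of_mem f (by exact_mod_cast a.2)) _
      (mem_image_of_mem f (by exact_mod_cast b.2)) hab
  have hkN : k ≤ (n + 4) * N := by
    rw [hk]
    refine (card_le_univ T).trans ?_
    rw [Fintype.card_prod, Fintype.card_fin, Fintype.card_fin]
  refine ⟨k, H, ?_, ?_, ?_, hnsH, ?_, fun S hS => hthree S (hsK _ (hS.trans hkN))⟩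
  · by_contra hcon
    rw [not_lt] at hcon
    apply hnsH
    have h4 := hthree univ (by rw [card_univ, Fintype.card_fin]; exact hcon.trans hmK)
    have h5 : H.Colorable 3 := by
      obtain ⟨c⟩ := h4
      exact ⟨SimpleGraph.Coloring.mk (fun a => c ⟨a, by simp⟩) fun {a b} hab => c.valid hab⟩
    refine semi_of_colorable 3 h5 (lt_of_lt_of_le ?_ hgH)
    exact_mod_cast (by omega : 3 < n + 4)
  · refine le_antisymm ?_ hgH
    by_contra hcon
    rw [not_le] at hcon
    exact hnsH (semi_of_colorable (n + 4) hcol hcon)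
  · rw [show n + 4 = (n + 3) + 1 by rfl]
    push_cast
    have := (SimpleGraph.chromaticNumber_eq_iff_colorable_not_colorable (G := H)
      (n := n + 3)).2 ⟨hcol, fun h => hnsH (semi_of_colorable (n + 3) h
        (lt_of_lt_of_le (by exact_mod_cast Nat.lt_succ_self (n + 3)) hgH))⟩
    rw [this]
    push_cast
    rfl
  · intro H' hH'
    set T' : Finset (Fin (n + 4) × Fin N) := univ.filter fun v => ∃ a ∈ H'.verts, f a = v with hT'
    set B' : Finset (Sym2 (Fin (n + 4) × Fin N)) :=
      univ.filter fun x => ∃ a b, H'.Adj a b ∧ s(f a, f b) = x with hB'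
    have hT'T : T' ⊆ T := by
      intro v hv
      obtain ⟨a, -, rfl⟩ := (mem_filter.1 hv).2
      exact hfT a
    have hB'B : B' ⊆ B := by
      intro x hx
      obtain ⟨a, b, hab, rfl⟩ := (mem_filter.1 hx).2
      exact (H'.adj_sub hab).2
    have hB'adj : ∀ a b, s(f a, f b) ∈ B' → H'.Adj a b := by
      intro a b hab
      obtain ⟨a', b', h4, h5⟩ := (mem_filter.1 hab).2
      rw [Sym2.eq_iff] at h5
      rcases h5 with ⟨h6, h7⟩ | ⟨h6, h7⟩
      · rw [← hfinj h6, ← hfinj h7]; exact h4
      · rw [← hfinj h6, ← hfinj h7]; exact h4.symm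
    have hne : ¬ (T' = T ∧ B' = B) := by
      rintro ⟨hTT, hBB⟩
      apply hH'
      apply SimpleGraph.Subgraph.ext
      · ext a
        constructor
        · intro _; trivial
        · intro _
          have : f a ∈ T' := by rw [hTT]; exact hfT a
          obtain ⟨b, hb, hab⟩ := (mem_filter.1 this).2
          rw [← hfinj hab]
          exact hb
      · ext a b
        constructor
        · intro h; exact H'.adj_sub h
        · intro h
          have h4 : H.Adj a b := h
          apply hB'adj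
          rw [hBB]
          exact ((hHadj a b).1 h4).2
    have hlt : T'.card + B'.card < T.card + B.card := by
      by_contra hcon
      rw [not_lt] at hcon
      have e1 := card_le_card hT'T
      have e2 := card_le_card hB'B
      exact hne ⟨eq_of_subset_of_card_le hT'T (by omega),
        eq_of_subset_of_card_le hB'B (by omega)⟩
    have hsemi : SemiTransitive ((gr B').comap
        (Subtype.val : {v // v ∈ T'} → Fin (n + 4) × Fin N)) := by
      by_contra hcon
      have : (T', B') ∈ P := by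
        refine mem_filter.2 ⟨mem_univ _, ?_, hB'B.trans hBA, hcon⟩
        exact disjoint_of_subset_left hT'T hTbad
      have := hmin _ this
      simp only at this
      omega
    have h6 := hsemi.comap (fun a : H'.verts =>
      (⟨f a.1, mem_filter.2 ⟨mem_univ _, a.1, a.2, rfl⟩⟩ : {v // v ∈ T'})) (fun a b hab => by
        have := congrArg Subtype.val hab
        exact Subtype.ext (hfinj this))
    have h7 : H'.coe = ((gr B').comap
        (Subtype.val : {v // v ∈ T'} → Fin (n + 4) × Fin N)).comap (fun a : H'.verts =>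
      (⟨f a.1, mem_filter.2 ⟨mem_univ _, a.1, a.2, rfl⟩⟩ : {v // v ∈ T'})) := by
      ext a b
      constructor
      · intro h
        have h8 : H'.Adj a.1 b.1 := h
        exact ⟨(H'.adj_sub h8).1, mem_filter.2 ⟨mem_univ _, a.1, b.1, h8, rfl⟩⟩
      · intro h
        exact hB'adj a.1 b.1 h.2
    rw [h7]
    exact h6

end

end Pool.Agent.Lib.MP_e3911d_co
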