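import Mathlib

/-!
# MP_e3911d_co: choice of the parameters
-/

namespace Pool.Agent.MP_e3911d_co

theorem clog_le_self (a : ℕ) : Nat.clog 2 a ≤ a :=
  Nat.clog_le_of_le_pow (Nat.lt_two_pow_self).le

theorem two_pow_clog_le {a : ℕ} (ha : 1 ≤ a) : 2 ^ Nat.clog 2 a ≤ 2 * a := by
  rcases Nat.lt_or_ge 1 a with h | h
  · have h1 := Nat.pow_pred_clog_lt_self (b := 2) (by norm_num) h
    have h2 : 1 ≤ Nat.clog 2 a := Nat.clog_pos (by norm_num) h
    obtain ⟨k, hk⟩ : ∃ k, Nat.clog 2 a = k + 1 := ⟨Nat.clog 2 a - 1, by omega⟩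
    rw [hk, Nat.pred_succ] at h1
    rw [hk, pow_succ]
    omega
  · have : a = 1 := by omega
    subst this
    simp

theorem params {g : ℕ} (hg : 5 ≤ g) : ∃ a t : ℕ, 1 ≤ a ∧ 1 ≤ t ∧ 4 * t + 2 ≤ 2 ^ a ∧
    (2 * (1024 * a * 2 ^ a)) ^ g ≤ 2 ^ t ∧ 2 ^ t ≤ (4096 * a * 2 ^ a) ^ g ∧
    2 ^ a ≤ 54 * g * a := by
  have hex : ∃ a : ℕ, 4 * (g * (11 + a + Nat.clog 2 a)) + 2 ≤ 2 ^ a := by
    refine ⟨2 * g + 20, ?_⟩
    have h1 := clog_le_self (2 * g + 20)
    have h2 : g < 2 ^ g := Nat.lt_two_pow_self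
    have h3 : 2 ^ (2 * g + 20) = 1048576 * (2 ^ g * 2 ^ g) := by
      rw [pow_add, two_mul, pow_add]
      norm_num
      ring
    rw [h3]
    calc 4 * (g * (11 + (2 * g + 20) + Nat.clog 2 (2 * g + 20))) + 2
        ≤ 4 * (g * (11 + (2 * g + 20) + (2 * g + 20))) + 2 := by gcongr
      _ ≤ 1048576 * (g * g) := by nlinarith
      _ ≤ 1048576 * (2 ^ g * 2 ^ g) := by gcongr
  classical
  obtain ⟨a, ha, hmin⟩ : ∃ a : ℕ, 4 * (g * (11 + a + Nat.clog 2 a)) + 2 ≤ 2 ^ a ∧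
      ∀ b < a, ¬ 4 * (g * (11 + b + Nat.clog 2 b)) + 2 ≤ 2 ^ b :=
    ⟨Nat.find hex, Nat.find_spec hex, fun b hb => Nat.find_min hex hb⟩
  have ha2 : 2 ≤ a := by
    by_contra hcon
    have h1 : a = 0 ∨ a = 1 := by omega
    rcases h1 with h1 | h1
    · subst h1
      norm_num at ha
      omega
    · subst h1
      norm_num at ha
      omega
  refine ⟨a, g * (11 + a + Nat.clog 2 a), by omega, by nlinarith, ha, ?_, ?_, ?_⟩
  · have h1 : a ≤ 2 ^ Nat.clog 2 a := Nat.le_pow_clog (by norm_num) a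
    calc (2 * (1024 * a * 2 ^ a)) ^ g ≤ (2 * (1024 * 2 ^ Nat.clog 2 a * 2 ^ a)) ^ g := by gcongr
      _ = (2 ^ (11 + a + Nat.clog 2 a)) ^ g := by
          congr 1
          rw [pow_add, pow_add]
          norm_num
          ring
      _ = 2 ^ (g * (11 + a + Nat.clog 2 a)) := by rw [← pow_mul, mul_comm]
  · have h1 := two_pow_clog_le (a := a) (by omega)
    calc 2 ^ (g * (11 + a + Nat.clog 2 a)) = (2 ^ (11 + a + Nat.clog 2 a)) ^ g := by
          rw [← pow_mul, mul_comm]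
      _ = (2 ^ 11 * 2 ^ a * 2 ^ Nat.clog 2 a) ^ g := by rw [pow_add, pow_add]
      _ ≤ (2 ^ 11 * 2 ^ a * (2 * a)) ^ g := by gcongr
      _ = (4096 * a * 2 ^ a) ^ g := by
          congr 1
          norm_num
          ring
  · have h1 := hmin (a - 1) (by omega)
    rw [not_le] at h1
    have h2 := clog_le_self (a - 1)
    obtain ⟨b, rfl⟩ : ∃ b, a = b + 1 := ⟨a - 1, by omega⟩
    rw [Nat.add_sub_cancel] at h1 h2
    rw [pow_succ]
    have h3 : 4 * (g * (11 + b + Nat.clog 2 b)) + 2 ≤ 4 * (g * (11 + b + b)) + 2 := by gcongr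
    nlinarith

theorem log_bounds {g : ℕ} (hg : 5 ≤ g) : (1386 : ℝ) / 1000 ≤ Real.log g := by
  have h1 : Real.log 4 ≤ Real.log g := by
    apply Real.log_le_log (by norm_num)
    have : (5 : ℝ) ≤ g := by exact_mod_cast hg
    linarith
  have h2 : Real.log 4 = 2 * Real.log 2 := by
    have : (4 : ℝ) = 2 ^ 2 := by norm_num
    rw [this, Real.log_pow]
    norm_num
  have h3 := Real.log_two_gt_d9
  linarith

theorem a_le_log {a g : ℕ} (hg : 5 ≤ g) (ha : 1 ≤ a) (h : 2 ^ a ≤ 54 * g * a) :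
    (a : ℝ) ≤ 10 * Real.log g := by
  have hG := log_bounds hg
  have hg0 : (0 : ℝ) < g := by
    have : (5 : ℝ) ≤ g := by exact_mod_cast hg
    linarith
  have ha0 : (0 : ℝ) < a := by exact_mod_cast ha
  have h1 : (2 : ℝ) ^ a ≤ 270 * g * (a / 5) := by
    have : (2 : ℝ) ^ a ≤ 54 * g * a := by exact_mod_cast h
    linarith
  have h2 := Real.log_le_log (by positivity) h1
  rw [Real.log_pow, Real.log_mul (by positivity) (by positivity),
    Real.log_mul (by norm_num) (by positivity)] at h2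
  have h3 := Real.log_le_sub_one_of_pos (show (0 : ℝ) < a / 5 by positivity)
  have h4 : Real.log 270 ≤ 9 * Real.log 2 := by
    have h5 : Real.log 512 = 9 * Real.log 2 := by
      have : (512 : ℝ) = 2 ^ 9 := by norm_num
      rw [this, Real.log_pow]
      norm_num
    rw [← h5]
    exact Real.log_le_log (by norm_num) (by norm_num)
  have h5 := Real.log_two_gt_d9
  have h6 := Real.log_two_lt_d9
  have h7 : (a : ℝ) * (69314 / 100000) ≤ a * Real.log 2 :=
    mul_le_mul_of_nonneg_left (by linarith) ha0.le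
  linarith

theorem final_bounds {a t g : ℕ} (hg : 5 ≤ g) (ha : 1 ≤ a) (h : 2 ^ a ≤ 54 * g * a)
    (ht : 2 ^ t ≤ (4096 * a * 2 ^ a) ^ g) :
    9 * ((1024 * a * 2 ^ a : ℕ) : ℝ) ≤ 10 ^ 9 * g * (Real.log g) ^ 2 ∧
    ((64 * 2 ^ t * 2 ^ a + g : ℕ) : ℝ) ≤ (10 ^ 9 * g * (Real.log g) ^ 2) ^ g := by
  have hG := log_bounds hg
  have hal := a_le_log hg ha h
  have hg5 : (5 : ℝ) ≤ g := by exact_mod_cast hg
  have ha1 : (1 : ℝ) ≤ a := by exact_mod_cast ha
  have h' : (2 : ℝ) ^ a ≤ 54 * g * a := by exact_mod_cast h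
  have ht' : (2 : ℝ) ^ t ≤ (4096 * a * 2 ^ a) ^ g := by exact_mod_cast ht
  set G := Real.log g with hGd
  set X : ℝ := g * G ^ 2 with hX
  have ha2 : (a : ℝ) ^ 2 ≤ 100 * G ^ 2 := by nlinarith
  have hX1 : 1 ≤ X := by
    rw [hX]
    nlinarith
  have hga : (g : ℝ) * a ^ 2 ≤ 100 * X := by
    rw [hX]
    nlinarith
  have hY : 4096 * (a : ℝ) * 2 ^ a ≤ 22118400 * X := by
    calc 4096 * (a : ℝ) * 2 ^ a ≤ 4096 * (a : ℝ) * (54 * g * a) := by gcongr
      _ = 221184 * ((g : ℝ) * a ^ 2) := by ring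
      _ ≤ 221184 * (100 * X) := by gcongr
      _ = 22118400 * X := by ring
  have e1 : 10 ^ 9 * (g : ℝ) * G ^ 2 = 10 ^ 9 * X := by rw [hX]; ring
  rw [e1]
  constructor
  · push_cast
    nlinarith
  · have h1 : (2 : ℝ) ^ t ≤ (22118400 * X) ^ g :=
      ht'.trans (pow_le_pow_left₀ (by positivity) hY g)
    have hGg : G ≤ g := by
      have := Real.log_le_sub_one_of_pos (show (0 : ℝ) < g by linarith)
      rw [hGd]
      linarith
    have hg2 : (g : ℝ) * g ≤ 4 ^ g := by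
      have h2 : (g : ℝ) ≤ 2 ^ g := by
        have : g < 2 ^ g := Nat.lt_two_pow_self
        exact_mod_cast this.le
      have h3 : (4 : ℝ) ^ g = 2 ^ g * 2 ^ g := by
        rw [← mul_pow]
        norm_num
      rw [h3]
      exact mul_le_mul h2 h2 (by positivity) (by positivity)
    have h4 : 64 * (2 : ℝ) ^ a ≤ 34560 * 4 ^ g := by
      calc 64 * (2 : ℝ) ^ a ≤ 64 * (54 * g * a) := by gcongr
        _ ≤ 64 * (54 * g * (10 * g)) := by
            gcongr
            linarith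
        _ = 34560 * ((g : ℝ) * g) := by ring
        _ ≤ 34560 * 4 ^ g := by gcongr
    have h5 : (1 : ℝ) ≤ (22118400 * X) ^ g := one_le_pow₀ (by linarith)
    have h6 : (g : ℝ) ≤ 4 ^ g := by nlinarith
    have h7 : (34561 : ℝ) ≤ 10 ^ g := by
      calc (34561 : ℝ) ≤ 10 ^ 5 := by norm_num
        _ ≤ 10 ^ g := pow_le_pow_right₀ (by norm_num) hg
    push_cast
    calc 64 * (2 : ℝ) ^ t * 2 ^ a + g = 2 ^ t * (64 * 2 ^ a) + g * 1 := by ring
      _ ≤ (22118400 * X) ^ g * (34560 * 4 ^ g) + 4 ^ g * (22118400 * X) ^ g := by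
          gcongr
      _ = 34561 * (4 ^ g * (22118400 * X) ^ g) := by ring
      _ ≤ 10 ^ g * (4 ^ g * (22118400 * X) ^ g) := by gcongr
      _ = (884736000 * X) ^ g := by
          rw [← mul_pow, ← mul_pow]
          congr 1
          ring
      _ ≤ (10 ^ 9 * X) ^ g := by
          gcongr
          norm_num

end Pool.Agent.MP_e3911d_co
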