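import Pool.Agent.Lib.MP_e3911d_co.Jumbled

/-!
# MP_e3911d_co: the expander mixing lemma
-/

namespace Pool.Agent.MP_e3911d_co

open Matrix

theorem bilin_bound {V : Type*} [Fintype V] [DecidableEq V] (A : Matrix V V ℝ)
    (hA : A.IsHermitian) (l : ℝ)
    (h : ∀ (μ : ℝ) (f : V → ℝ), f ≠ 0 → A *ᵥ f = μ • f → |μ| ≤ l) (x y : V → ℝ) :
    |x ⬝ᵥ (A *ᵥ y)| ≤ l * Real.sqrt ((x ⬝ᵥ x) * (y ⬝ᵥ y)) := by
  set b := hA.eigenvectorBasis with hb
  let X : EuclideanSpace ℝ V := WithLp.toLp 2 x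
  let Y : EuclideanSpace ℝ V := WithLp.toLp 2 y
  let AY : EuclideanSpace ℝ V := WithLp.toLp 2 (A *ᵥ y)
  have hin : ∀ u v : V → ℝ, inner ℝ (WithLp.toLp 2 u : EuclideanSpace ℝ V)
      (WithLp.toLp 2 v : EuclideanSpace ℝ V) = u ⬝ᵥ v := by
    intro u v
    rw [EuclideanSpace.inner_toLp_toLp, star_trivial, dotProduct_comm]
  have hbj : ∀ j, inner ℝ (b j) AY = hA.eigenvalues j * inner ℝ (b j) Y := by
    intro j
    have h1 : b j = WithLp.toLp 2 (⇑(b j) : V → ℝ) := rfl
    rw [h1, hin, hin, dotProduct_mulVec, ← mulVec_transpose]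
    have h2 : Aᵀ = A := by
      have := hA.eq
      rwa [conjTranspose_eq_transpose_of_trivial] at this
    rw [h2]
    have h3 := hA.mulVec_eigenvectorBasis j
    rw [← hb] at h3
    rw [h3, smul_dotProduct, smul_eq_mul]
  have hmain : x ⬝ᵥ (A *ᵥ y) = ∑ j, inner ℝ X (b j) * (hA.eigenvalues j * inner ℝ (b j) Y) := by
    rw [← hin, ← b.sum_inner_mul_inner]
    refine Finset.sum_congr rfl fun j _ => ?_
    rw [← hbj]
  have hev : ∀ j, |hA.eigenvalues j| ≤ l := by
    intro j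
    refine h _ (⇑(b j)) ?_ (by have := hA.mulVec_eigenvectorBasis j; rwa [← hb] at this)
    intro h0
    have h1 : b j = 0 := by
      ext i
      exact congrFun h0 i
    exact b.toBasis.ne_zero j (by simpa using h1)
  have hcs : ∑ j, |inner ℝ X (b j)| * |inner ℝ (b j) Y| ≤
      Real.sqrt (∑ j, |inner ℝ X (b j)| ^ 2) * Real.sqrt (∑ j, |inner ℝ (b j) Y| ^ 2) :=
    Real.sum_mul_le_sqrt_mul_sqrt _ _ _
  have hPX : ∑ j, |inner ℝ X (b j)| ^ 2 = x ⬝ᵥ x := by
    rw [← hin, ← b.sum_inner_mul_inner]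
    refine Finset.sum_congr rfl fun j _ => ?_
    rw [sq_abs, sq]
    congr 1
    exact real_inner_comm _ _
  have hPY : ∑ j, |inner ℝ (b j) Y| ^ 2 = y ⬝ᵥ y := by
    rw [← hin, ← b.sum_inner_mul_inner]
    refine Finset.sum_congr rfl fun j _ => ?_
    rw [sq_abs, sq]
    congr 1
    exact real_inner_comm _ _
  rw [hPX, hPY, ← Real.sqrt_mul (by rw [← hPX]; positivity)] at hcs
  rw [hmain]
  refine (Finset.abs_sum_le_sum_abs _ _).trans ?_
  calc ∑ j, |inner ℝ X (b j) * (hA.eigenvalues j * inner ℝ (b j) Y)|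
      ≤ ∑ j, l * (|inner ℝ X (b j)| * |inner ℝ (b j) Y|) := by
        refine Finset.sum_le_sum fun j _ => ?_
        rw [abs_mul, abs_mul]
        have h1 : |hA.eigenvalues j| * (|inner ℝ X (b j)| * |inner ℝ (b j) Y|) ≤
            l * (|inner ℝ X (b j)| * |inner ℝ (b j) Y|) :=
          mul_le_mul_of_nonneg_right (hev j) (by positivity)
        linarith
    _ = l * ∑ j, |inner ℝ X (b j)| * |inner ℝ (b j) Y| := by rw [Finset.mul_sum]
    _ ≤ l * Real.sqrt ((x ⬝ᵥ x) * (y ⬝ᵥ y)) := by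
        rcases isEmpty_or_nonempty V with hV | ⟨⟨v⟩⟩
        · simp
        · exact mul_le_mul_of_nonneg_left hcs ((abs_nonneg _).trans (hev v))

/-- Expander mixing lemma. -/
theorem jumbled_of_spectral {V : Type*} [Fintype V] [DecidableEq V] (G : SimpleGraph V)
    [DecidableRel G.Adj] (d : ℕ) (hreg : G.IsRegularOfDegree d) (l : ℝ) (hl : 0 ≤ l)
    (h : ∀ (μ : ℝ) (f : V → ℝ), f ≠ 0 → ∑ v, f v = 0 → G.adjMatrix ℝ *ᵥ f = μ • f → |μ| ≤ l) :
    Jumbled G ((d : ℝ) / Fintype.card V) l := by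
  classical
  rcases isEmpty_or_nonempty V with hV | hV
  · intro S T _
    have hS : S = ∅ := Finset.eq_empty_of_isEmpty S
    subst hS
    simp [edges]
  set n : ℝ := (Fintype.card V : ℝ) with hn
  have hn0 : 0 < n := by rw [hn]; exact_mod_cast Fintype.card_pos
  set J : Matrix V V ℝ := Matrix.of (fun _ _ => (1 : ℝ)) with hJ
  set A : Matrix V V ℝ := G.adjMatrix ℝ - ((d : ℝ) / n) • J with hA
  have hJf : ∀ f : V → ℝ, J *ᵥ f = fun _ => ∑ v, f v := by
    intro f
    ext v
    simp [hJ, mulVec, dotProduct]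
  have hAf : ∀ f : V → ℝ, A *ᵥ f = G.adjMatrix ℝ *ᵥ f - ((d : ℝ) / n) • (fun _ => ∑ v, f v) := by
    intro f
    rw [hA, sub_mulVec, smul_mulVec, hJf]
  have hAh : A.IsHermitian := by
    rw [hA]
    refine Matrix.IsHermitian.sub ?_ ?_
    · rw [Matrix.IsHermitian, conjTranspose_eq_transpose_of_trivial]
      exact SimpleGraph.transpose_adjMatrix ..
    · rw [Matrix.IsHermitian, conjTranspose_eq_transpose_of_trivial]
      ext i j
      simp [hJ]
  have hsum : ∀ f : V → ℝ, ∑ v, (G.adjMatrix ℝ *ᵥ f) v = d * ∑ v, f v := by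
    intro f
    simp only [mulVec, dotProduct, SimpleGraph.adjMatrix_apply]
    rw [Finset.sum_comm, Finset.mul_sum]
    refine Finset.sum_congr rfl fun v _ => ?_
    rw [← Finset.sum_mul]
    congr 1
    rw [Finset.sum_boole]
    have h1 : (Finset.univ.filter (fun u => G.Adj u v)) = G.neighborFinset v := by
      ext u
      simp [G.adj_comm]
    rw [h1, SimpleGraph.card_neighborFinset_eq_degree, hreg v]
  have hb := bilin_bound A hAh l (by
    intro μ f hf hμ
    have h1 : ∑ v, (A *ᵥ f) v = 0 := by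
      rw [hAf]
      simp only [Pi.sub_apply, Pi.smul_apply, smul_eq_mul, Finset.sum_sub_distrib, hsum,
        Finset.sum_const, nsmul_eq_mul, Finset.card_univ]
      rw [← hn]
      field_simp
      ring
    rw [hμ] at h1
    simp only [Pi.smul_apply, smul_eq_mul, ← Finset.mul_sum] at h1
    rcases mul_eq_zero.1 h1 with h2 | h2
    · rw [h2]; simpa using hl
    · apply h μ f hf h2
      rw [hAf, h2] at hμ
      rw [← hμ]
      ext v
      simp)
  intro S T hdis
  have h2 := hb (fun v => if v ∈ S then 1 else 0) (fun v => if v ∈ T then 1 else 0)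
  have h3 : (fun v => if v ∈ S then (1 : ℝ) else 0) ⬝ᵥ (fun v => if v ∈ S then (1 : ℝ) else 0) =
      S.card := by
    simp [dotProduct]
  have h4 : (fun v => if v ∈ T then (1 : ℝ) else 0) ⬝ᵥ (fun v => if v ∈ T then (1 : ℝ) else 0) =
      T.card := by
    simp [dotProduct]
  rw [h3, h4] at h2
  have h5 : (fun v => if v ∈ S then (1 : ℝ) else 0) ⬝ᵥ
      (A *ᵥ (fun v => if v ∈ T then (1 : ℝ) else 0)) =
      (edges G S T : ℝ) - (d : ℝ) / n * (S.card * T.card) := by
    rw [hAf, dotProduct_sub, edges_eq_sum]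
    congr 1
    · simp only [dotProduct, mulVec, SimpleGraph.adjMatrix_apply, nb]
      push_cast
      simp only [ite_mul, one_mul, zero_mul, mul_ite, mul_one, mul_zero]
      rw [Finset.sum_ite_mem, Finset.univ_inter]
      refine Finset.sum_congr rfl fun u _ => ?_
      rw [Finset.sum_ite_mem, Finset.univ_inter, Finset.card_filter]
      push_cast
      rfl
    · simp [dotProduct, Finset.sum_ite_mem]
      ring
  rw [h5] at h2
  exact h2

end Pool.Agent.MP_e3911d_co
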