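import Mathlib

/-!
# MP_e3911d_co: semi-transitive orientations, girth and colourings
-/

set_option autoImplicit false

open Finset

namespace Pool.Agent.Lib.MP_e3911d_co

/-- `G` has a semi-transitive orientation -/
def SemiTransitive {V : Type} (G : SimpleGraph V) : Prop :=
  ∃ D : V → V → Prop,
    (∀ u v, D u v → G.Adj u v) ∧
    (∀ u v, G.Adj u v → (D u v ∨ D v u)) ∧
    (∀ u v, D u v → ¬ D v u) ∧
    (∀ v, ¬ Relation.TransGen D v v) ∧
    (∀ k : ℕ, ∀ p : ℕ → V,
      (∀ i j, i ≤ k → j ≤ k → p i = p j → i = j) →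
      (∀ i, i < k → D (p i) (p (i + 1))) →
      D (p 0) (p k) →
      ∀ i j, i < j → j ≤ k → D (p i) (p j))

theorem SemiTransitive.comap {V W : Type} {G : SimpleGraph V} (h : SemiTransitive G)
    (f : W → V) (hf : Function.Injective f) : SemiTransitive (G.comap f) := by
  obtain ⟨D, h1, h2, h3, h4, h5⟩ := h
  refine ⟨fun a b => D (f a) (f b), fun u v huv => h1 _ _ huv, fun u v huv => h2 _ _ huv,
    fun u v huv => h3 _ _ huv, ?_, ?_⟩
  · intro v hv
    exact h4 (f v) (Relation.TransGen.lift f (fun a b hab => hab) v v hv)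
  · intro k p hp hD h0 i j hij hj
    exact h5 k (fun n => f (p n)) (fun i j hi hj h => hp i j hi hj (hf h)) hD h0 i j hij hj

theorem Fin_add_one_val {n : ℕ} (i : Fin (n + 3)) (h : i.val + 1 < n + 3) :
    (i + 1).val = i.val + 1 := by
  rw [Fin.val_add_one_of_lt']
  omega

theorem Fin_last_add_one {n : ℕ} (i : Fin (n + 3)) (h : ¬ i.val + 1 < n + 3) : i + 1 = 0 := by
  have : i = Fin.last (n + 2) := by
    apply Fin.ext
    have := i.isLt
    simp [Fin.last]
    omega
  rw [this]
  exact Fin.last_add_one (n + 2)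

/-- a cyclic sequence gives a bound for the girth -/
theorem egirth_le_of_cyc {V : Type} {G : SimpleGraph V} {n : ℕ} (y : Fin (n + 3) → V)
    (hy : Function.Injective y) (hadj : ∀ i, G.Adj (y i) (y (i + 1))) :
    G.egirth ≤ ((n + 3 : ℕ) : ℕ∞) := by
  have h1 : (SimpleGraph.cycleGraph (n + 3)).IsContained G := by
    refine ⟨⟨⟨y, ?_⟩, hy⟩⟩
    intro a b hab
    rcases SimpleGraph.cycleGraph_adj.1 hab with h | h
    · have : a = b + 1 := by rw [← h]; abel
      rw [this]; exact (hadj b).symm
    · have : b = a + 1 := by rw [← h]; abel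
      rw [this]; exact hadj a
  obtain ⟨v, p, hp, hl⟩ := (SimpleGraph.cycleGraph_isContained_iff (by omega)).1 h1
  rw [← hl]
  exact SimpleGraph.egirth_le_length hp

/-- small girth gives a short cyclic sequence -/
theorem cyc_of_egirth_lt {V : Type} {G : SimpleGraph V} {g : ℕ}
    (h : G.egirth < (g : ℕ∞)) : ∃ n : ℕ, n + 3 < g ∧ ∃ y : Fin (n + 3) → V,
      Function.Injective y ∧ ∀ i, G.Adj (y i) (y (i + 1)) := by
  have hna : ¬ G.IsAcyclic := by
    intro ha
    rw [SimpleGraph.egirth_eq_top.2 ha] at h
    exact absurd h (by simp)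
  obtain ⟨a, w, hw, hl⟩ := SimpleGraph.exists_egirth_eq_length.2 hna
  have h3 := hw.three_le_length
  have hlt : w.length < g := by
    rw [hl] at h
    exact_mod_cast h
  obtain ⟨n, hn⟩ : ∃ n, w.length = n + 3 := ⟨w.length - 3, by omega⟩
  refine ⟨n, by omega, ?_⟩
  have h1 : (SimpleGraph.cycleGraph (n + 3)).IsContained G :=
    (SimpleGraph.cycleGraph_isContained_iff (by omega)).2 ⟨a, w, hw, hn⟩
  obtain ⟨f⟩ := h1
  refine ⟨f, f.injective, fun i => ?_⟩
  refine f.toHom.map_adj ?_
  exact SimpleGraph.cycleGraph_adj.2 (Or.inr (by abel))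

/-- a path with an edge between its ends -/
theorem egirth_le_of_path {V : Type} {G : SimpleGraph V} (k : ℕ) (hk : 2 ≤ k) (p : ℕ → V)
    (hp : ∀ i j, i ≤ k → j ≤ k → p i = p j → i = j) (hadj : ∀ i, i < k → G.Adj (p i) (p (i + 1)))
    (h0 : G.Adj (p k) (p 0)) : G.egirth ≤ ((k + 1 : ℕ) : ℕ∞) := by
  obtain ⟨n, rfl⟩ : ∃ n, k = n + 2 := ⟨k - 2, by omega⟩
  refine egirth_le_of_cyc (n := n) (fun i => p i.val) ?_ ?_
  · intro a b hab
    apply Fin.ext
    exact hp _ _ (by have := a.isLt; omega) (by have := b.isLt; omega) hab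
  · intro i
    by_cases h : i.val + 1 < n + 3
    · rw [Fin_add_one_val i h]
      exact hadj _ (by omega)
    · have h1 : i.val = n + 2 := by have := i.isLt; omega
      rw [Fin_last_add_one i h, h1]
      exact h0

/-- colouring with fewer colours than the girth -/
theorem semi_of_colorable {V : Type} {G : SimpleGraph V} (c : ℕ) (hc : G.Colorable c)
    (hg : (c : ℕ∞) < G.egirth) : SemiTransitive G := by
  obtain ⟨C⟩ := hc
  have hmono : ∀ a b, Relation.TransGen (fun u v => G.Adj u v ∧ C u < C v) a b → C a < C b := by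
    intro a b h
    induction h with
    | single h => exact h.2
    | tail _ h ih => exact lt_trans ih h.2
  refine ⟨fun u v => G.Adj u v ∧ C u < C v, fun u v h => h.1, ?_, ?_, ?_, ?_⟩
  · intro u v huv
    rcases lt_or_gt_of_ne (C.valid huv) with h | h
    · exact Or.inl ⟨huv, h⟩
    · exact Or.inr ⟨huv.symm, h⟩
  · rintro u v ⟨_, h1⟩ ⟨_, h2⟩
    exact absurd h1 (not_lt.2 h2.le)
  · intro v hv
    exact lt_irrefl _ (hmono v v hv)
  · intro k p hp hD h0 i j hij hj
    by_cases hk : 2 ≤ k
    · exfalso
      have h1 : ∀ m, m ≤ k → m ≤ (C (p m)).val := by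
        intro m
        induction m with
        | zero => intro _; exact Nat.zero_le _
        | succ m ih =>
          intro hm
          have h2 := ih (by omega)
          have h3 : (C (p m)).val < (C (p (m + 1))).val := (hD m (by omega)).2
          omega
      have h2 := h1 k le_rfl
      have h3 := (C (p k)).isLt
      have h4 := egirth_le_of_path k hk p hp (fun i hi => (hD i hi).1) h0.1.symm
      have h5 : ((k + 1 : ℕ) : ℕ∞) ≤ (c : ℕ∞) := by exact_mod_cast (by omega : k + 1 ≤ c)
      exact absurd (lt_of_lt_of_le hg (h4.trans h5)) (lt_irrefl _)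
    · have hk1 : k = 1 := by omega
      subst hk1
      have : i = 0 := by omega
      subst this
      have : j = 1 := by omega
      subst this
      exact h0

/-- monotone cycles for every ordering exclude semi-transitive orientations -/
theorem not_semi {V : Type} [Finite V] {G : SimpleGraph V} (hg : (4 : ℕ∞) ≤ G.egirth) (n : ℕ)
    (h : ∀ r : V → ℕ, Function.Injective r → ∃ y : Fin (n + 4) → V,
      (∀ i j, i < j → r (y i) < r (y j)) ∧ ∀ i, G.Adj (y i) (y (i + 1))) :
    ¬ SemiTransitive G := by
  classical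
  rintro ⟨D, h1, h2, h3, h4, h5⟩
  have := Fintype.ofFinite V
  -- ranking
  set r0 : V → ℕ := fun v => (univ.filter fun u => Relation.TransGen D u v).card with hr0
  have hr0lt : ∀ u v, D u v → r0 u < r0 v := by
    intro u v huv
    apply card_lt_card
    rw [ssubset_iff_of_subset]
    · exact ⟨u, mem_filter.2 ⟨mem_univ _, Relation.TransGen.single huv⟩, fun h =>
        h4 u (mem_filter.1 h).2⟩
    · intro w hw
      exact mem_filter.2 ⟨mem_univ _, (mem_filter.1 hw).2.tail huv⟩
  set N := Fintype.card V with hN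
  set idx := Fintype.equivFin V with hidx
  set r : V → ℕ := fun v => r0 v * N + (idx v).val with hr
  have hrlt : ∀ u v, D u v → r u < r v := by
    intro u v huv
    have e1 := hr0lt u v huv
    have e2 := (idx u).isLt
    have e3 : (r0 u + 1) * N ≤ r0 v * N := Nat.mul_le_mul_right _ e1
    simp only [hr]
    nlinarith
  have hrinj : Function.Injective r := by
    intro u v huv
    simp only [hr] at huv
    have e1 := (idx u).isLt
    have e2 := (idx v).isLt
    have e3 : (idx u).val = (idx v).val := by
      have f1 : (r0 u * N + (idx u).val) % N = (idx u).val := by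
        rw [Nat.mul_add_mod_self_right]; exact Nat.mod_eq_of_lt e1
      have f2 : (r0 v * N + (idx v).val) % N = (idx v).val := by
        rw [Nat.mul_add_mod_self_right]; exact Nat.mod_eq_of_lt e2
      rw [← f1, ← f2, huv]
    exact idx.injective (Fin.ext e3)
  obtain ⟨y, hy, hadj⟩ := h r hrinj
  have hD : ∀ i j, i < j → G.Adj (y i) (y j) → D (y i) (y j) := by
    intro i j hij ha
    rcases h2 _ _ ha with h | h
    · exact h
    · exact absurd (hrlt _ _ h) (not_lt.2 (hy i j hij).le)
  have hyinj : Function.Injective y := by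
    intro a b hab
    rcases lt_trichotomy a b with h | h | h
    · have := hy _ _ h; rw [hab] at this; exact absurd this (lt_irrefl _)
    · exact h
    · have := hy _ _ h; rw [hab] at this; exact absurd this (lt_irrefl _)
  set p : ℕ → V := fun m => if h : m < n + 4 then y ⟨m, h⟩ else y 0 with hp
  have hpv : ∀ m (h : m < n + 4), p m = y ⟨m, h⟩ := by
    intro m hm
    simp only [hp]
    rw [dif_pos hm]
  have key := h5 (n + 3) p ?_ ?_ ?_ 0 2 (by omega) (by omega)
  · have e1 : G.Adj (p 0) (p 2) := h1 _ _ key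
    have e2 : G.Adj (p 0) (p 1) := by
      rw [hpv 0 (by omega), hpv 1 (by omega)]
      have := hadj ⟨0, by omega⟩
      convert this using 2
      apply Fin.ext
      rw [Fin_add_one_val (n := n + 1) ⟨0, by omega⟩ (by simp)]
    have e3 : G.Adj (p 1) (p 2) := by
      rw [hpv 1 (by omega), hpv 2 (by omega)]
      have := hadj ⟨1, by omega⟩
      convert this using 2
      apply Fin.ext
      rw [Fin_add_one_val (n := n + 1) ⟨1, by omega⟩ (by simp)]
    have e4 := egirth_le_of_path (G := G) 2 le_rfl p ?_ ?_ e1.symm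
    · have : (4 : ℕ∞) ≤ 3 := hg.trans e4
      exact absurd this (by decide)
    · intro i j hi hj hij
      rw [hpv i (by omega), hpv j (by omega)] at hij
      have := hyinj hij
      exact Fin.mk.inj_iff.1 this
    · intro i hi
      interval_cases i
      · exact e2
      · exact e3
  · intro i j hi hj hij
    rw [hpv i (by omega), hpv j (by omega)] at hij
    exact Fin.mk.inj_iff.1 (hyinj hij)
  · intro i hi
    rw [hpv i (by omega), hpv (i + 1) (by omega)]
    apply hD
    · simp
    · have := hadj ⟨i, by omega⟩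
      convert this using 2
      apply Fin.ext
      rw [Fin_add_one_val (n := n + 1) ⟨i, by omega⟩ (by simp; omega)]
  · rw [hpv 0 (by omega), hpv (n + 3) (by omega)]
    apply hD
    · rw [Fin.lt_def]; simp
    · have := hadj ⟨n + 3, by omega⟩
      rw [Fin_last_add_one (n := n + 1) ⟨n + 3, by omega⟩ (by simp)] at this
      exact this.symm

end Pool.Agent.Lib.MP_e3911d_co
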