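import Pool.Agent.Lib.MP_e3911d_co.Janson
import Pool.Agent.Lib.MP_e3911d_co.Semi

/-!
# MP_e3911d_co: transversal cycles in a random multipartite graph
-/

set_option autoImplicit false

open Finset

namespace Pool.Agent.Lib.MP_e3911d_co

theorem one_add_one_ne {m : ℕ} : (1 : Fin (m + 3)) + 1 ≠ 0 := by
  intro h
  have := congrArg Fin.val h
  rw [Fin.val_add] at this
  have h1 : ((1 : Fin (m + 3)) : ℕ) = 1 := by simp
  rw [h1] at this
  have h2 : (1 + 1) % (m + 3) = 2 := Nat.mod_eq_of_lt (by omega)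
  rw [h2] at this
  simp at this

theorem succ_swap {m : ℕ} {i j : Fin (m + 3)} (h1 : i = j + 1) (h2 : i + 1 = j) : False := by
  rw [h1] at h2
  apply one_add_one_ne (m := m)
  have : j + (1 + 1) = j + 0 := by rw [add_zero, ← add_assoc]; exact h2
  exact add_left_cancel this

/-- edges of the cyclic sequence `y` -/
def Dy {V : Type} [DecidableEq V] {m : ℕ} (y : Fin (m + 3) → V) : Finset (Sym2 V) :=
  univ.image fun i => s(y i, y (i + 1))

theorem card_Dy {V : Type} [DecidableEq V] {m : ℕ} (y : Fin (m + 3) → V)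
    (hy : Function.Injective y) : (Dy y).card = m + 3 := by
  unfold Dy
  rw [card_image_of_injective, card_univ, Fintype.card_fin]
  intro i j hij
  simp only at hij
  rw [Sym2.eq_iff] at hij
  rcases hij with ⟨h1, _⟩ | ⟨h1, h2⟩
  · exact hy h1
  · exact (succ_swap (hy h1) (hy h2)).elim

/-- edges of the transversal cycle with the points `(σ i, y i)` -/
def Cy {n N : ℕ} (σ : Fin (n + 4) → Fin (n + 4)) (y : Fin (n + 4) → Fin N) :
    Finset (Sym2 (Fin (n + 4) × Fin N)) :=
  Dy (m := n + 1) fun i => (σ i, y i)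

section
variable {n N : ℕ} {σ : Fin (n + 4) → Fin (n + 4)}

theorem card_Cy (hσ : Function.Injective σ) (y : Fin (n + 4) → Fin N) :
    (Cy σ y).card = n + 4 :=
  card_Dy (m := n + 1) _ fun i j hij => hσ (congrArg Prod.fst hij)

/-- places where `y` and `z` agree -/
def ag (y z : Fin (n + 4) → Fin N) : Finset (Fin (n + 4)) := univ.filter fun i => y i = z i

theorem card_inter_le (hσ : Function.Injective σ) (y z : Fin (n + 4) → Fin N) :
    (Cy σ y ∩ Cy σ z).card ≤ ((ag y z).filter fun i => i + 1 ∈ ag y z).card := by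
  have : Cy σ y ∩ Cy σ z ⊆ ((ag y z).filter fun i => i + 1 ∈ ag y z).image
      fun i => s((σ i, y i), (σ (i + 1), y (i + 1))) := by
    intro e he
    obtain ⟨he1, he2⟩ := mem_inter.1 he
    obtain ⟨i, -, rfl⟩ := mem_image.1 he1
    obtain ⟨j, -, hj⟩ := mem_image.1 he2
    simp only at hj
    rw [Sym2.eq_iff] at hj
    rcases hj with ⟨h1, h2⟩ | ⟨h1, h2⟩
    · have hij : j = i := hσ (congrArg Prod.fst h1)
      subst hij
      have h3 := congrArg Prod.snd h1
      have h4 := congrArg Prod.snd h2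
      simp only at h3 h4
      refine mem_image.2 ⟨j, mem_filter.2 ⟨mem_filter.2 ⟨mem_univ _, h3.symm⟩,
        mem_filter.2 ⟨mem_univ _, h4.symm⟩⟩, rfl⟩
    · exact (succ_swap (m := n + 1) (hσ (congrArg Prod.fst h1)) (hσ (congrArg Prod.fst h2))).elim
  exact (card_le_card this).trans card_image_le

theorem card_ag_filter_lt {y z : Fin (n + 4) → Fin N} (hne : y ≠ z)
    (h1 : (ag y z).Nonempty) :
    ((ag y z).filter fun i => i + 1 ∈ ag y z).card < (ag y z).card := by
  apply card_lt_card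
  refine ⟨filter_subset _ _, fun hsub => hne ?_⟩
  have hcl : ∀ i ∈ ag y z, i + 1 ∈ ag y z := fun i hi => (mem_filter.1 (hsub hi)).2
  obtain ⟨i0, hi0⟩ := h1
  have hs : ∀ k : ℕ, Fin.ofNat (n + 4) (k + 1) = Fin.ofNat (n + 4) k + 1 := by
    intro k
    apply Fin.ext
    rw [Fin.val_add]
    simp [Fin.ofNat]
  have h0 : Fin.ofNat (n + 4) 0 = 0 := rfl
  have hk : ∀ k : ℕ, i0 + Fin.ofNat (n + 4) k ∈ ag y z := by
    intro k
    induction k with
    | zero => rw [h0, add_zero]; exact hi0
    | succ k ih =>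
      have := hcl _ ih
      rw [add_assoc] at this
      rw [hs]
      exact this
  funext j
  have h2 := hk (j - i0).val
  have h5 : Fin.ofNat (n + 4) (j - i0).val = j - i0 :=
    Fin.ext (Nat.mod_eq_of_lt (j - i0).isLt)
  rw [h5] at h2
  have h3 : i0 + (j - i0) = j := by abel
  rw [h3] at h2
  exact (mem_filter.1 h2).2

theorem card_union_ge (hσ : Function.Injective σ) {y z : Fin (n + 4) → Fin N} (hne : y ≠ z)
    (hd : ¬ Disjoint (Cy σ z) (Cy σ y)) : 2 ≤ (ag y z).card ∧ (ag y z).card ≤ n + 4 ∧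
      (n + 4) + 1 + (n + 4 - (ag y z).card) ≤ (Cy σ y ∪ Cy σ z).card := by
  have h1 : 0 < (Cy σ y ∩ Cy σ z).card := by
    rw [card_pos, inter_comm]
    exact not_disjoint_iff_nonempty_inter.1 hd
  have h2 := card_inter_le hσ y z
  have h3 : (ag y z).Nonempty := by
    have : 0 < ((ag y z).filter fun i => i + 1 ∈ ag y z).card := by omega
    obtain ⟨i, hi⟩ := card_pos.1 this
    exact ⟨i, (mem_filter.1 hi).1⟩
  have h4 := card_ag_filter_lt hne h3
  have h5 := card_union_add_card_inter (Cy σ y) (Cy σ z)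
  rw [card_Cy hσ, card_Cy hσ] at h5
  have h6 : (ag y z).card ≤ n + 4 := by
    have := card_le_univ (ag y z)
    rwa [Fintype.card_fin] at this
  refine ⟨by omega, h6, by omega⟩

theorem sum_ag_le {p : ℝ} (hp0 : 0 ≤ p) (hNp : 1 ≤ (N : ℝ) * p) (y : Fin (n + 4) → Fin N) :
    ∑ z ∈ univ.filter (fun z : Fin (n + 4) → Fin N => 2 ≤ (ag y z).card),
      p ^ (n + 4 - (ag y z).card) ≤ 2 ^ (n + 4) * ((N : ℝ) * p) ^ (n + 2) := by
  classical
  rw [← sum_fiberwise_of_maps_to (t := (univ : Finset (Finset (Fin (n + 4)))).filter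
    fun I => 2 ≤ I.card) (g := fun z => ag y z)
    (fun z hz => mem_filter.2 ⟨mem_univ _, (mem_filter.1 hz).2⟩)]
  have key : ∀ I ∈ (univ : Finset (Finset (Fin (n + 4)))).filter (fun I => 2 ≤ I.card),
      ∑ z ∈ (univ.filter (fun z : Fin (n + 4) → Fin N => 2 ≤ (ag y z).card)).filter
        (fun z => ag y z = I), p ^ (n + 4 - (ag y z).card) ≤ ((N : ℝ) * p) ^ (n + 2) := by
    intro I hI
    have hI2 := (mem_filter.1 hI).2
    have e1 : ∑ z ∈ (univ.filter (fun z : Fin (n + 4) → Fin N => 2 ≤ (ag y z).card)).filter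
        (fun z => ag y z = I), p ^ (n + 4 - (ag y z).card) =
        (((univ.filter (fun z : Fin (n + 4) → Fin N => 2 ≤ (ag y z).card)).filter
        (fun z => ag y z = I)).card : ℝ) * p ^ (n + 4 - I.card) := by
      rw [← nsmul_eq_mul, ← sum_const]
      refine sum_congr rfl fun z hz => ?_
      rw [(mem_filter.1 hz).2]
    have e2 : ((univ.filter (fun z : Fin (n + 4) → Fin N => 2 ≤ (ag y z).card)).filter
        (fun z => ag y z = I)).card ≤ N ^ (n + 4 - I.card) := by
      have hsub : ((univ.filter (fun z : Fin (n + 4) → Fin N => 2 ≤ (ag y z).card)).filter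
          (fun z => ag y z = I)) ⊆ Fintype.piFinset fun i => if i ∈ I then {y i} else univ := by
        intro z hz
        have hz2 := (mem_filter.1 hz).2
        rw [Fintype.mem_piFinset]
        intro i
        by_cases hi : i ∈ I
        · rw [if_pos hi, mem_singleton]
          rw [← hz2] at hi
          exact (mem_filter.1 hi).2.symm
        · rw [if_neg hi]; exact mem_univ _
      refine (card_le_card hsub).trans ?_
      rw [Fintype.card_piFinset]
      have : ∀ i, (if i ∈ I then ({y i} : Finset (Fin N)) else univ).card =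
          if i ∈ I then 1 else N := by
        intro i
        split_ifs <;> simp
      simp only [this]
      rw [prod_ite, prod_const_one, one_mul, prod_const]
      apply le_of_eq
      congr 1
      have h3 : (univ.filter fun i => i ∉ I) = Iᶜ := by ext; simp
      rw [h3, card_compl, Fintype.card_fin]
    rw [e1]
    calc _ ≤ ((N ^ (n + 4 - I.card) : ℕ) : ℝ) * p ^ (n + 4 - I.card) :=
          mul_le_mul_of_nonneg_right (by exact_mod_cast e2) (pow_nonneg hp0 _)
      _ = ((N : ℝ) * p) ^ (n + 4 - I.card) := by rw [mul_pow]; push_cast; ring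
      _ ≤ ((N : ℝ) * p) ^ (n + 2) := pow_le_pow_right₀ hNp (by omega)
  refine (sum_le_sum key).trans ?_
  rw [sum_const, nsmul_eq_mul]
  refine mul_le_mul_of_nonneg_right ?_ (pow_nonneg (by linarith) _)
  have : ((univ : Finset (Finset (Fin (n + 4)))).filter (fun I => 2 ≤ I.card)).card ≤
      2 ^ (n + 4) := by
    refine (card_filter_le _ _).trans ?_
    rw [card_univ, Fintype.card_finset, Fintype.card_fin]
  exact_mod_cast this

/-- no transversal cycle in a given box: Janson -/
theorem no_cycle_box {p : ℝ} (hp0 : 0 ≤ p) (hp1 : p ≤ 1) (hNp : 1 ≤ (N : ℝ) * p)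
    (hsm : p * (2 ^ (n + 4) * ((N : ℝ) * p) ^ (n + 2)) ≤ 1 / 2)
    (hσ : Function.Injective σ) (w : ℕ) (W : Fin (n + 4) → Finset (Fin N))
    (hW : ∀ i, (W i).card = w) :
    Ex p (non (Cy σ) (Fintype.piFinset W)) ≤
      Real.exp (-(((w : ℝ) * p) ^ (n + 4)) / 2) := by
  classical
  have h := janson (p := p) hp0 hp1 (Cy (N := N) σ) (Fintype.piFinset W) ?_
  · refine h.trans (le_of_eq ?_)
    congr 1
    have : ∑ m ∈ Fintype.piFinset W, p ^ (Cy σ m).card = ((w : ℝ) * p) ^ (n + 4) := by
      rw [sum_congr rfl fun m _ => by rw [card_Cy hσ m], sum_const, nsmul_eq_mul,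
        Fintype.card_piFinset, prod_congr rfl fun i _ => hW i, prod_const, card_univ,
        Fintype.card_fin, mul_pow]
      push_cast
      ring
    rw [this]
  · intro y _
    have h1 : ∑ z ∈ ((Fintype.piFinset W).erase y).filter
        (fun z => ¬ Disjoint (Cy σ z) (Cy σ y)), p ^ (Cy σ y ∪ Cy σ z).card ≤
        ∑ z ∈ ((Fintype.piFinset W).erase y).filter
        (fun z => ¬ Disjoint (Cy σ z) (Cy σ y)),
          p ^ (n + 4) * (p * p ^ (n + 4 - (ag y z).card)) := by
      refine sum_le_sum fun z hz => ?_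
      obtain ⟨hz1, hz2⟩ := mem_filter.1 hz
      have hne : y ≠ z := (ne_of_mem_erase hz1).symm
      obtain ⟨-, -, h4⟩ := card_union_ge hσ hne hz2
      have : p ^ (n + 4) * (p * p ^ (n + 4 - (ag y z).card)) =
          p ^ ((n + 4) + 1 + (n + 4 - (ag y z).card)) := by
        rw [pow_add p (n + 4 + 1) _, pow_succ]; ring
      rw [this]
      exact pow_le_pow_of_le_one hp0 hp1 h4
    refine h1.trans ?_
    rw [← mul_sum, ← mul_sum, card_Cy hσ]
    have h2 : ∑ z ∈ ((Fintype.piFinset W).erase y).filter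
        (fun z => ¬ Disjoint (Cy σ z) (Cy σ y)), p ^ (n + 4 - (ag y z).card) ≤
        2 ^ (n + 4) * ((N : ℝ) * p) ^ (n + 2) := by
      refine le_trans (sum_le_sum_of_subset_of_nonneg ?_ fun _ _ _ => pow_nonneg hp0 _)
        (sum_ag_le hp0 hNp y)
      intro z hz
      obtain ⟨hz1, hz2⟩ := mem_filter.1 hz
      exact mem_filter.2 ⟨mem_univ _, (card_union_ge hσ (ne_of_mem_erase hz1).symm hz2).1⟩
    have h3 : p * ∑ z ∈ ((Fintype.piFinset W).erase y).filter
        (fun z => ¬ Disjoint (Cy σ z) (Cy σ y)), p ^ (n + 4 - (ag y z).card) ≤ 1 / 2 :=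
      (mul_le_mul_of_nonneg_left h2 hp0).trans hsm
    have h4 : 0 ≤ p ^ (n + 4) := pow_nonneg hp0 _
    nlinarith [mul_le_mul_of_nonneg_left h3 h4]

end

end Pool.Agent.Lib.MP_e3911d_co
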