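import Pool.Agent.Lib.MP_e3911d_co.RandA

/-!
# MP_e3911d_co: the random graph
-/

set_option autoImplicit false

open Finset

namespace Pool.Agent.Lib.MP_e3911d_co

section
variable {n N : ℕ}

/-- the boxes -/
noncomputable def boxes (n N w : ℕ) :
    Finset ((Fin (n + 4) → Fin (n + 4)) × (Fin (n + 4) → Finset (Fin N))) := by
  classical
  exact (univ.filter fun σ => Function.Injective σ) ×ˢ
    (Fintype.piFinset fun _ => powersetCard w univ)

theorem mem_boxes {w : ℕ} (σ : Fin (n + 4) → Fin (n + 4)) (W : Fin (n + 4) → Finset (Fin N)) :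
    (σ, W) ∈ boxes n N w ↔ Function.Injective σ ∧ ∀ i, (W i).card = w := by
  classical
  unfold boxes
  rw [mem_product, mem_filter, Fintype.mem_piFinset]
  simp [mem_powersetCard]

theorem card_boxes (w : ℕ) : (boxes n N w).card ≤ (n + 4) ^ (n + 4) * (2 ^ N) ^ (n + 4) := by
  classical
  unfold boxes
  rw [card_product]
  refine Nat.mul_le_mul ?_ ?_
  · refine (card_filter_le _ _).trans ?_
    rw [card_univ, Fintype.card_fun, Fintype.card_fin]
  · rw [Fintype.card_piFinset, prod_const, card_univ, Fintype.card_fin, card_powersetCard,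
      card_univ, Fintype.card_fin]
    exact Nat.pow_le_pow_left (Nat.choose_le_two_pow N w) _

theorem ev1 (w : ℕ) (l : ℝ) (hl : 1 ≤ l) (hN : (N : ℝ) = l ^ (4 * n + 14))
    (hw : 2 * ((n : ℝ) + 4) * (w : ℝ) = (N : ℝ))
    (h1 : 2 * (2 * ((n : ℝ) + 4)) ^ (n + 4) * (((n : ℝ) + 4) ^ 2 + ((n : ℝ) + 4) + 2) ≤ l)
    (h2 : (2 : ℝ) ^ (n + 5) ≤ l) :
    Ex (1 / l ^ (4 * n + 10)) (fun A => ∑ i ∈ boxes n N w,
      non (Cy i.1) (Fintype.piFinset i.2) A) ≤ 1 / 4 := by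
  have hl0 : 0 < l := by linarith
  set p := 1 / l ^ (4 * n + 10) with hp
  have hp0 : 0 ≤ p := by positivity
  have hp1 : p ≤ 1 := by
    rw [hp, div_le_one (by positivity)]
    exact one_le_pow₀ hl
  have hNp : (N : ℝ) * p = l ^ 4 := by
    rw [hN, hp]
    rw [show 4 * n + 14 = (4 * n + 10) + 4 by ring, pow_add]
    field_simp
  have hN1 : 1 ≤ (N : ℝ) := by rw [hN]; exact one_le_pow₀ hl
  have hNp1 : 1 ≤ (N : ℝ) * p := by rw [hNp]; exact one_le_pow₀ hl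
  have hsm : p * (2 ^ (n + 4) * ((N : ℝ) * p) ^ (n + 2)) ≤ 1 / 2 := by
    rw [hNp, hp]
    have e1 : l ^ (4 * n + 10) = (l ^ 4) ^ (n + 2) * l ^ 2 := by
      rw [← pow_mul, ← pow_add]; congr 1
    rw [e1]
    have e2 : 1 / ((l ^ 4) ^ (n + 2) * l ^ 2) * (2 ^ (n + 4) * (l ^ 4) ^ (n + 2)) =
        2 ^ (n + 4) / l ^ 2 := by
      field_simp
    rw [e2, div_le_iff₀ (by positivity)]
    have e3 : (2 : ℝ) ^ (n + 5) = 2 * 2 ^ (n + 4) := by ring
    nlinarith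
  have hg : (0 : ℝ) < (n : ℝ) + 4 := by positivity
  have hwp : (w : ℝ) * p = l ^ 4 / (2 * ((n : ℝ) + 4)) := by
    rw [eq_div_iff (by positivity), ← hNp, ← hw]; ring
  have hexp : (((w : ℝ) * p) ^ (n + 4)) / 2 ≥
      (((n : ℝ) + 4) ^ 2 + ((n : ℝ) + 4) + 2) * N := by
    rw [hwp, div_pow, ge_iff_le, div_div, le_div_iff₀ (by positivity)]
    have e1 : (l ^ 4) ^ (n + 4) = l ^ 2 * N := by
      rw [hN, ← pow_mul, ← pow_add]; congr 1; ring
    rw [e1]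
    have e2 : l ≤ l ^ 2 := by nlinarith
    have e3 := mul_le_mul_of_nonneg_right (h1.trans e2) (by linarith : (0 : ℝ) ≤ N)
    linarith
  rw [Ex_sum]
  have hterm : ∀ i ∈ boxes n N w, Ex p (non (Cy i.1) (Fintype.piFinset i.2)) ≤
      Real.exp (-((((n : ℝ) + 4) ^ 2 + ((n : ℝ) + 4) + 2) * N)) := by
    rintro ⟨σ, W⟩ hi
    obtain ⟨hσ, hW⟩ := (mem_boxes σ W).1 hi
    refine (no_cycle_box hp0 hp1 hNp1 hsm hσ w W hW).trans ?_
    apply Real.exp_le_exp.2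
    linarith
  refine (sum_le_sum hterm).trans ?_
  rw [sum_const, nsmul_eq_mul]
  have hcard : ((boxes n N w).card : ℝ) ≤ Real.exp (((n : ℝ) + 4) ^ 2 + ((n : ℝ) + 4) * N) := by
    have e1 : ((boxes n N w).card : ℝ) ≤ ((n : ℝ) + 4) ^ (n + 4) * (2 ^ N) ^ (n + 4) := by
      exact_mod_cast card_boxes (n := n) (N := N) w
    refine e1.trans ?_
    rw [Real.exp_add]
    have e2 : ((n : ℝ) + 4) ^ (n + 4) ≤ Real.exp (((n : ℝ) + 4) ^ 2) := by
      have f1 : (n : ℝ) + 4 ≤ Real.exp ((n : ℝ) + 4) := by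
        have := Real.add_one_le_exp ((n : ℝ) + 4)
        linarith
      have f2 : Real.exp (((n : ℝ) + 4) ^ 2) = Real.exp ((n : ℝ) + 4) ^ (n + 4) := by
        rw [← Real.exp_nat_mul]
        congr 1
        push_cast
        ring
      rw [f2]
      exact pow_le_pow_left₀ hg.le f1 _
    have e3 : ((2 : ℝ) ^ N) ^ (n + 4) ≤ Real.exp (((n : ℝ) + 4) * N) := by
      have f1 : (2 : ℝ) ≤ Real.exp 1 := by
        have := Real.add_one_le_exp 1
        linarith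
      have f2 : Real.exp (((n : ℝ) + 4) * N) = (Real.exp 1 ^ N) ^ (n + 4) := by
        rw [← pow_mul, ← Real.exp_nat_mul]
        congr 1
        push_cast
        ring
      rw [f2]
      exact pow_le_pow_left₀ (by positivity) (pow_le_pow_left₀ (by norm_num) f1 _) _
    exact mul_le_mul e2 e3 (by positivity) (Real.exp_pos _).le
  refine (mul_le_mul_of_nonneg_right hcard (Real.exp_pos _).le).trans ?_
  rw [← Real.exp_add]
  have h4 : ((n : ℝ) + 4) ^ 2 + ((n : ℝ) + 4) * N +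
      -((((n : ℝ) + 4) ^ 2 + ((n : ℝ) + 4) + 2) * N) ≤ -2 := by nlinarith [sq_nonneg ((n : ℝ) + 4)]
  refine (Real.exp_le_exp.2 h4).trans ?_
  rw [Real.exp_neg, inv_le_comm₀ (Real.exp_pos _) (by norm_num)]
  have h5 : (2 : ℝ) ≤ Real.exp 1 := by
    have := Real.add_one_le_exp 1
    linarith
  have h6 : Real.exp 2 = Real.exp 1 * Real.exp 1 := by rw [← Real.exp_add]; norm_num
  rw [h6]
  nlinarith

/-- the cyclic sequences of length `m + 3` -/
noncomputable def cycs (n N m : ℕ) : Finset (Fin (m + 3) → Fin (n + 4) × Fin N) := by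
  classical
  exact univ.filter fun y => Function.Injective y

theorem mem_cycs {m : ℕ} (y : Fin (m + 3) → Fin (n + 4) × Fin N) :
    y ∈ cycs n N m ↔ Function.Injective y := by
  classical
  unfold cycs
  rw [mem_filter]
  simp

theorem card_cycs (m : ℕ) : (cycs n N m).card ≤ ((n + 4) * N) ^ (m + 3) := by
  classical
  unfold cycs
  refine (card_filter_le _ _).trans ?_
  rw [card_univ, Fintype.card_fun, Fintype.card_prod, Fintype.card_fin, Fintype.card_fin,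
    Fintype.card_fin]

theorem ev2 (l : ℝ) (hl : 1 ≤ l) (hN : (N : ℝ) = l ^ (4 * n + 14))
    (h3 : 8 * ((n : ℝ) + 4) ^ (n + 4) ≤ l) :
    Ex (1 / l ^ (4 * n + 10)) (fun A => (2 / (N : ℝ)) * ∑ m ∈ range (n + 1),
      ∑ y ∈ cycs n N m, ind (Dy y) A) ≤ 1 / 4 := by
  have hl0 : 0 < l := by linarith
  set p := 1 / l ^ (4 * n + 10) with hp
  have hp0 : 0 ≤ p := by positivity
  have hNp : (N : ℝ) * p = l ^ 4 := by
    rw [hN, hp]
    rw [show 4 * n + 14 = (4 * n + 10) + 4 by ring, pow_add]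
    field_simp
  have hN1 : 1 ≤ (N : ℝ) := by rw [hN]; exact one_le_pow₀ hl
  have hN0 : 0 < (N : ℝ) := by linarith
  have hg : (1 : ℝ) ≤ (n : ℝ) + 4 := by
    have : (0 : ℝ) ≤ (n : ℝ) := Nat.cast_nonneg _
    linarith
  rw [Ex_smul, Ex_sum]
  have hterm : ∀ m ∈ range (n + 1), Ex p (fun A => ∑ y ∈ cycs n N m, ind (Dy y) A) ≤
      (((n : ℝ) + 4) * l ^ 4) ^ (n + 3) := by
    intro m hm
    rw [Ex_sum]
    have e1 : ∀ y ∈ cycs n N m, Ex p (ind (Dy y)) = p ^ (m + 3) := by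
      intro y hy
      rw [Ex_ind, card_Dy y ((mem_cycs y).1 hy)]
    rw [sum_congr rfl e1, sum_const, nsmul_eq_mul]
    have e2 : ((cycs n N m).card : ℝ) ≤ (((n : ℝ) + 4) * N) ^ (m + 3) := by
      exact_mod_cast card_cycs (n := n) (N := N) m
    calc ((cycs n N m).card : ℝ) * p ^ (m + 3) ≤ (((n : ℝ) + 4) * N) ^ (m + 3) * p ^ (m + 3) :=
          mul_le_mul_of_nonneg_right e2 (pow_nonneg hp0 _)
      _ = (((n : ℝ) + 4) * l ^ 4) ^ (m + 3) := by rw [← mul_pow, mul_assoc, hNp]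
      _ ≤ _ := by
        apply pow_le_pow_right₀
        · have : 1 ≤ l ^ 4 := one_le_pow₀ hl
          nlinarith
        · have := mem_range.1 hm
          omega
  have h4 : ∑ m ∈ range (n + 1), Ex p (fun A => ∑ y ∈ cycs n N m, ind (Dy y) A) ≤
      ((n : ℝ) + 1) * (((n : ℝ) + 4) * l ^ 4) ^ (n + 3) := by
    refine (sum_le_sum hterm).trans ?_
    rw [sum_const, card_range, nsmul_eq_mul]
    push_cast
    exact le_refl _
  have h5 : (((n : ℝ) + 4) * l ^ 4) ^ (n + 3) * l ^ 2 = ((n : ℝ) + 4) ^ (n + 3) * N := by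
    rw [hN, mul_pow, ← pow_mul, mul_assoc, ← pow_add]
    congr 2
  have h6 : (2 / (N : ℝ)) * (((n : ℝ) + 1) * (((n : ℝ) + 4) * l ^ 4) ^ (n + 3)) ≤ 1 / 4 := by
    have e1 : (((n : ℝ) + 4) * l ^ 4) ^ (n + 3) = ((n : ℝ) + 4) ^ (n + 3) * N / l ^ 2 := by
      rw [eq_div_iff (by positivity), h5]
    rw [e1]
    have e2 : (2 / (N : ℝ)) * (((n : ℝ) + 1) * (((n : ℝ) + 4) ^ (n + 3) * N / l ^ 2)) =
        2 * (((n : ℝ) + 1) * ((n : ℝ) + 4) ^ (n + 3)) / l ^ 2 := by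
      field_simp
    rw [e2, div_le_iff₀ (by positivity)]
    have e3 : ((n : ℝ) + 1) * ((n : ℝ) + 4) ^ (n + 3) ≤ ((n : ℝ) + 4) ^ (n + 4) := by
      have : ((n : ℝ) + 4) ^ (n + 4) = ((n : ℝ) + 4) * ((n : ℝ) + 4) ^ (n + 3) := by ring
      rw [this]
      exact mul_le_mul_of_nonneg_right (by linarith) (by positivity)
    have e4 : l ≤ l ^ 2 := by nlinarith
    linarith
  exact (mul_le_mul_of_nonneg_left h4 (by positivity)).trans h6

theorem ev3 (K : ℕ) (l : ℝ) (hl : 1 ≤ l) (hN : (N : ℝ) = l ^ (4 * n + 14))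
    (h4 : 4 * ((n : ℝ) + 4) * (K : ℝ) ^ 5 ≤ l ^ (2 * n + 1)) :
    Ex (1 / l ^ (4 * n + 10)) (fun A : Finset (Sym2 (Fin (n + 4) × Fin N)) => ∑ t ∈ Icc 1 K,
      ∑ T ∈ powersetCard t (univ : Finset (Fin (n + 4) × Fin N)),
        ∑ D ∈ powersetCard ((3 * t + 1) / 2) T.sym2, ind D A) ≤ 1 / 4 := by
  have hl0 : 0 < l := by linarith
  set p := 1 / l ^ (4 * n + 10) with hp
  have hp0 : 0 ≤ p := by positivity
  set ρ := 1 / l ^ (2 * n + 5) with hρ
  have hρ0 : 0 ≤ ρ := by positivity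
  have hρ1 : ρ ≤ 1 := by
    rw [hρ, div_le_one (by positivity)]
    exact one_le_pow₀ hl
  have hpρ : p = ρ ^ 2 := by
    rw [hp, hρ, div_pow, one_pow, ← pow_mul]
    congr 2
    ring
  have hg : (1 : ℝ) ≤ (n : ℝ) + 4 := by
    have : (0 : ℝ) ≤ (n : ℝ) := Nat.cast_nonneg _
    linarith
  -- the ratio
  have hx : (((n : ℝ) + 4) * N) * (K : ℝ) ^ 4 * ρ ^ 3 =
      (((n : ℝ) + 4) * (K : ℝ) ^ 4) / l ^ (2 * n + 1) := by
    have e1 : (N : ℝ) * ρ ^ 3 = 1 / l ^ (2 * n + 1) := by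
      rw [hN, hρ, div_pow, one_pow, ← pow_mul, mul_one_div, div_eq_div_iff (by positivity)
        (by positivity), ← pow_add, one_mul]
      congr 1
      ring
    calc _ = (((n : ℝ) + 4) * (K : ℝ) ^ 4) * ((N : ℝ) * ρ ^ 3) := by ring
      _ = _ := by rw [e1, mul_one_div]
  have hx0 : 0 ≤ (((n : ℝ) + 4) * N) * (K : ℝ) ^ 4 * ρ ^ 3 := by positivity
  rcases Nat.eq_zero_or_pos K with hK0 | hK0
  · rw [hK0]
    simp only [Icc_eq_empty (by norm_num : ¬ (1 : ℕ) ≤ 0), sum_empty]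
    have := Ex_smul (p := p) 0 (fun _ : Finset (Sym2 (Fin (n + 4) × Fin N)) => (1 : ℝ))
    simp only [zero_mul] at this
    rw [this]
    norm_num
  have hK1 : (1 : ℝ) ≤ (K : ℝ) := by exact_mod_cast hK0
  have hx1 : (((n : ℝ) + 4) * (K : ℝ) ^ 4) / l ^ (2 * n + 1) ≤ 1 := by
    rw [div_le_one (by positivity)]
    have e1 : (K : ℝ) ^ 4 ≤ (K : ℝ) ^ 5 := pow_le_pow_right₀ hK1 (by norm_num)
    have e2 : ((n : ℝ) + 4) * (K : ℝ) ^ 4 ≤ ((n : ℝ) + 4) * (K : ℝ) ^ 5 :=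
      mul_le_mul_of_nonneg_left e1 (by linarith)
    have e3 : 0 ≤ ((n : ℝ) + 4) * (K : ℝ) ^ 5 := by positivity
    linarith
  rw [Ex_sum]
  have hterm : ∀ t ∈ Icc 1 K, Ex p (fun A : Finset (Sym2 (Fin (n + 4) × Fin N)) =>
      ∑ T ∈ powersetCard t (univ : Finset (Fin (n + 4) × Fin N)),
        ∑ D ∈ powersetCard ((3 * t + 1) / 2) T.sym2, ind D A) ≤
      (((n : ℝ) + 4) * (K : ℝ) ^ 4) / l ^ (2 * n + 1) := by
    intro t ht
    obtain ⟨ht1, ht2⟩ := mem_Icc.1 ht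
    rw [Ex_sum]
    have e1 : ∀ T ∈ powersetCard t (univ : Finset (Fin (n + 4) × Fin N)),
        Ex p (fun A => ∑ D ∈ powersetCard ((3 * t + 1) / 2) T.sym2, ind D A) ≤
        (K : ℝ) ^ (4 * t) * ρ ^ (3 * t) := by
      intro T hT
      have hTc := (mem_powersetCard.1 hT).2
      rw [Ex_sum]
      have e2 : ∀ D ∈ powersetCard ((3 * t + 1) / 2) T.sym2,
          Ex p (ind D) ≤ ρ ^ (3 * t) := by
        intro D hD
        rw [Ex_ind, hpρ, ← pow_mul]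
        refine pow_le_pow_of_le_one hρ0 hρ1 ?_
        rw [(mem_powersetCard.1 hD).2]
        omega
      refine (sum_le_sum e2).trans ?_
      rw [sum_const, nsmul_eq_mul]
      refine mul_le_mul_of_nonneg_right ?_ (pow_nonneg hρ0 _)
      have e3 : (powersetCard ((3 * t + 1) / 2) T.sym2).card ≤ K ^ (4 * t) := by
        rw [card_powersetCard, card_sym2, hTc]
        have f0 : (t + 1).choose 2 ≤ K ^ 2 := by
          rw [Nat.choose_two_right]
          have f1 : (t + 1) * (t + 1 - 1) ≤ 2 * K ^ 2 := by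
            have : t + 1 ≤ 2 * K := by omega
            have f2 : t + 1 - 1 ≤ K := by omega
            calc _ ≤ 2 * K * K := Nat.mul_le_mul this f2
              _ = _ := by ring
          omega
        calc _ ≤ ((t + 1).choose 2) ^ ((3 * t + 1) / 2) := Nat.choose_le_pow _ _
          _ ≤ (K ^ 2) ^ ((3 * t + 1) / 2) := Nat.pow_le_pow_left f0 _
          _ = K ^ (2 * ((3 * t + 1) / 2)) := by rw [← pow_mul]
          _ ≤ K ^ (4 * t) := Nat.pow_le_pow_right hK0 (by omega)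
      exact_mod_cast e3
    refine (sum_le_sum e1).trans ?_
    rw [sum_const, nsmul_eq_mul, card_powersetCard, card_univ, Fintype.card_prod,
      Fintype.card_fin, Fintype.card_fin]
    have e4 : ((((n + 4) * N).choose t : ℕ) : ℝ) ≤ (((n : ℝ) + 4) * N) ^ t := by
      exact_mod_cast Nat.choose_le_pow ((n + 4) * N) t
    calc ((((n + 4) * N).choose t : ℕ) : ℝ) * ((K : ℝ) ^ (4 * t) * ρ ^ (3 * t)) ≤
          (((n : ℝ) + 4) * N) ^ t * ((K : ℝ) ^ (4 * t) * ρ ^ (3 * t)) :=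
          mul_le_mul_of_nonneg_right e4 (by positivity)
      _ = ((((n : ℝ) + 4) * N) * (K : ℝ) ^ 4 * ρ ^ 3) ^ t := by
          rw [mul_pow _ (ρ ^ 3), mul_pow _ ((K : ℝ) ^ 4), pow_mul, pow_mul]; ring
      _ ≤ (((n : ℝ) + 4) * N) * (K : ℝ) ^ 4 * ρ ^ 3 := by
          exact pow_le_of_le_one hx0 (by rw [hx]; exact hx1) (by omega)
      _ = _ := hx
  refine (sum_le_sum hterm).trans ?_
  rw [sum_const, nsmul_eq_mul, Nat.card_Icc]
  have h6 : ((K + 1 - 1 : ℕ) : ℝ) = (K : ℝ) := by simp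
  rw [h6, mul_div_assoc', div_le_iff₀ (by positivity)]
  have h7 : (K : ℝ) * (((n : ℝ) + 4) * (K : ℝ) ^ 4) = ((n : ℝ) + 4) * (K : ℝ) ^ 5 := by ring
  rw [h7]
  linarith

end

theorem pow_aux (n L s : ℕ) (hL1 : 1 ≤ L) (h5 : (4 * (n + 4)) ^ 20 * (n + 4) ≤ L)
    (hs : s ^ 100 ≤ (n + 4) * L ^ (4 * n + 14)) : 4 * (n + 4) * s ^ 5 ≤ L ^ (2 * n + 1) := by
  by_contra hcon
  rw [not_le] at hcon
  have e1 : (L ^ (2 * n + 1)) ^ 20 < (4 * (n + 4) * s ^ 5) ^ 20 :=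
    Nat.pow_lt_pow_left hcon (by norm_num)
  have e2 : (4 * (n + 4) * s ^ 5) ^ 20 = (4 * (n + 4)) ^ 20 * s ^ 100 := by
    rw [mul_pow, ← pow_mul]
  have e3 : (4 * (n + 4)) ^ 20 * s ^ 100 ≤ (4 * (n + 4)) ^ 20 * ((n + 4) * L ^ (4 * n + 14)) :=
    Nat.mul_le_mul_left _ hs
  have e4 : (4 * (n + 4)) ^ 20 * ((n + 4) * L ^ (4 * n + 14)) ≤ L * L ^ (4 * n + 14) := by
    rw [← mul_assoc]
    exact Nat.mul_le_mul_right _ h5
  have e5 : L * L ^ (4 * n + 14) ≤ (L ^ (2 * n + 1)) ^ 20 := by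
    rw [← pow_succ', ← pow_mul]
    exact Nat.pow_le_pow_right hL1 (by omega)
  exact absurd e1 (not_lt.2 ((e2.le.trans e3).trans (e4.trans e5)))

/-- the parameters -/
theorem exists_params (n m : ℕ) : ∃ L N w K : ℕ, 1 ≤ L ∧ N = L ^ (4 * n + 14) ∧
    2 * (2 * (n + 4)) ^ (n + 4) * ((n + 4) ^ 2 + (n + 4) + 2) ≤ L ∧ 2 ^ (n + 5) ≤ L ∧
    8 * (n + 4) ^ (n + 4) ≤ L ∧ 4 * (n + 4) * K ^ 5 ≤ L ^ (2 * n + 1) ∧ m ≤ K ∧
    (∀ s : ℕ, s ^ 100 ≤ (n + 4) * N → s ≤ K) ∧ 2 * ((n + 4) * w) = N := by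
  set M : ℕ := 2 * (2 * (n + 4)) ^ (n + 4) * ((n + 4) ^ 2 + (n + 4) + 2) +
    2 ^ (n + 5) + 8 * (n + 4) ^ (n + 4) + 4 * (n + 4) * m ^ 5 +
    (4 * (n + 4)) ^ 20 * (n + 4) with hM
  have hsum : ∀ a b c d e : ℕ, a ≤ a + b + c + d + e ∧ b ≤ a + b + c + d + e ∧
      c ≤ a + b + c + d + e ∧ d ≤ a + b + c + d + e ∧ e ≤ a + b + c + d + e := by
    intro a b c d e; omega
  obtain ⟨L, hL⟩ : ∃ L, L = (2 * (n + 4)) * M := ⟨_, rfl⟩
  have hML : M ≤ L := by
    rw [hL]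
    exact Nat.le_mul_of_pos_left _ (by omega)
  have h1 : 2 * (2 * (n + 4)) ^ (n + 4) * ((n + 4) ^ 2 + (n + 4) + 2) ≤ L :=
    le_trans (hsum _ _ _ _ _).1 hML
  have h2 : 2 ^ (n + 5) ≤ L := le_trans (hsum _ _ _ _ _).2.1 hML
  have h3 : 8 * (n + 4) ^ (n + 4) ≤ L := le_trans (hsum _ _ _ _ _).2.2.1 hML
  have h4 : 4 * (n + 4) * m ^ 5 ≤ L := le_trans (hsum _ _ _ _ _).2.2.2.1 hML
  have h5 : (4 * (n + 4)) ^ 20 * (n + 4) ≤ L := le_trans (hsum _ _ _ _ _).2.2.2.2 hML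
  have hL1 : 1 ≤ L := le_trans Nat.one_le_two_pow h2
  have hLL : L ≤ L ^ (2 * n + 1) := Nat.le_self_pow (by omega) _
  obtain ⟨K, hKP, hKg⟩ : ∃ K, 4 * (n + 4) * K ^ 5 ≤ L ^ (2 * n + 1) ∧
      ∀ s : ℕ, 4 * (n + 4) * s ^ 5 ≤ L ^ (2 * n + 1) → s ≤ K := by
    have hself : ∀ s : ℕ, s ≤ 4 * (n + 4) * s ^ 5 := by
      intro s
      have e1 : s ≤ s ^ 5 := Nat.le_self_pow (by norm_num) s
      exact e1.trans (Nat.le_mul_of_pos_left _ (by omega))
    refine ⟨Nat.findGreatest (fun K => 4 * (n + 4) * K ^ 5 ≤ L ^ (2 * n + 1))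
      (L ^ (2 * n + 1)), ?_, fun s hs => Nat.le_findGreatest ((hself s).trans hs) hs⟩
    exact Nat.findGreatest_spec (P := fun K => 4 * (n + 4) * K ^ 5 ≤ L ^ (2 * n + 1))
      (m := 0) (n := L ^ (2 * n + 1)) (Nat.zero_le _) (by simp)
  obtain ⟨w, hw⟩ : 2 * (n + 4) ∣ L ^ (4 * n + 14) := by
    refine Dvd.dvd.trans ?_ (dvd_pow_self L (by omega))
    rw [hL]
    exact Dvd.intro _ rfl
  exact ⟨L, L ^ (4 * n + 14), w, K, hL1, rfl, h1, h2, h3, hKP, hKg m (h4.trans hLL),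
    fun s hs => hKg s (pow_aux n L s hL1 h5 hs), by rw [hw]; ring⟩

/-- the random graph has the three properties -/
theorem exists_good (n m : ℕ) : ∃ (N w K : ℕ) (A : Finset (Sym2 (Fin (n + 4) × Fin N))),
    m ≤ K ∧ (∀ s : ℕ, s ^ 100 ≤ (n + 4) * N → s ≤ K) ∧
    0 < w ∧ 2 * ((n + 4) * w) = N ∧
    (∀ σ : Fin (n + 4) → Fin (n + 4), Function.Injective σ → ∀ W : Fin (n + 4) → Finset (Fin N),
      (∀ i, (W i).card = w) → ∃ y, (∀ i, y i ∈ W i) ∧ Cy σ y ⊆ A) ∧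
    (2 * (∑ m ∈ range (n + 1), ((cycs n N m).filter fun y => Dy y ⊆ A).card) < N) ∧
    ∀ T : Finset (Fin (n + 4) × Fin N), T.Nonempty → T.card ≤ K → ∀ D ⊆ T.sym2,
      3 * T.card ≤ 2 * D.card → ¬ D ⊆ A := by
  classical
  obtain ⟨L, N, w, K, hL1, hN, h1, h2, h3, hKP, hmK, hsK, hw'⟩ := exists_params n m
  have hNpos : 0 < N := by rw [hN]; exact Nat.pow_pos hL1
  have hw0 : 0 < w := by
    rcases Nat.eq_zero_or_pos w with h | h
    · rw [h] at hw'; omega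
    · exact h
  have hNr : (N : ℝ) = (L : ℝ) ^ (4 * n + 14) := by rw [hN]; push_cast; ring
  have hLr : (1 : ℝ) ≤ (L : ℝ) := by exact_mod_cast hL1
  have hwr : 2 * ((n : ℝ) + 4) * (w : ℝ) = (N : ℝ) := by
    rw [mul_assoc]
    exact_mod_cast hw'
  have E1 := ev1 (n := n) (N := N) w (L : ℝ) hLr hNr hwr
    (by exact_mod_cast h1) (by exact_mod_cast h2)
  have E2 := ev2 (n := n) (N := N) (L : ℝ) hLr hNr (by exact_mod_cast h3)
  have E3 := ev3 (n := n) (N := N) K (L : ℝ) hLr hNr (by exact_mod_cast hKP)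
  set p := 1 / (L : ℝ) ^ (4 * n + 10) with hp
  have hp0 : 0 ≤ p := by positivity
  have hp1 : p ≤ 1 := by
    rw [hp, div_le_one (by positivity)]
    exact one_le_pow₀ hLr
  set B1 : Finset (Sym2 (Fin (n + 4) × Fin N)) → ℝ := fun A => ∑ i ∈ boxes n N w,
      non (Cy i.1) (Fintype.piFinset i.2) A with hB1
  set B2 : Finset (Sym2 (Fin (n + 4) × Fin N)) → ℝ := fun A => (2 / (N : ℝ)) *
    ∑ m ∈ range (n + 1), ∑ y ∈ cycs n N m, ind (Dy y) A with hB2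
  set B3 : Finset (Sym2 (Fin (n + 4) × Fin N)) → ℝ := fun A => ∑ t ∈ Icc 1 K,
      ∑ T ∈ powersetCard t (univ : Finset (Fin (n + 4) × Fin N)),
        ∑ D ∈ powersetCard ((3 * t + 1) / 2) T.sym2, ind D A with hB3
  obtain ⟨A, hA⟩ : ∃ A, B1 A + B2 A + B3 A < 1 := by
    by_contra hcon
    push Not at hcon
    have e1 := Ex_mono (p := p) hp0 hp1 hcon
    rw [Ex_one] at e1
    have e2 : Ex p (fun A => B1 A + B2 A + B3 A) = Ex p B1 + Ex p B2 + Ex p B3 := by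
      rw [Ex_add (fun A => B1 A + B2 A) B3, Ex_add B1 B2]
    rw [e2] at e1
    linarith
  have n1 : 0 ≤ B1 A := sum_nonneg fun _ _ => non_nonneg _ _ _
  have n2 : 0 ≤ B2 A := mul_nonneg (by positivity)
    (sum_nonneg fun _ _ => sum_nonneg fun _ _ => ind_nonneg _ _)
  have n3 : 0 ≤ B3 A := sum_nonneg fun _ _ => sum_nonneg fun _ _ =>
    sum_nonneg fun _ _ => ind_nonneg _ _
  refine ⟨N, w, K, A, hmK, hsK, hw0, hw', ?_, ?_, ?_⟩
  · intro σ hσ W hW
    by_contra hcon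
    push Not at hcon
    have e1 : non (Cy σ) (Fintype.piFinset W) A = 1 := by
      unfold non
      rw [if_pos]
      intro y hy
      exact hcon y (fun i => Fintype.mem_piFinset.1 hy i)
    have e2 : non (Cy σ) (Fintype.piFinset W) A ≤ B1 A :=
      single_le_sum (f := fun i : (Fin (n + 4) → Fin (n + 4)) × (Fin (n + 4) → Finset (Fin N)) =>
        non (Cy i.1) (Fintype.piFinset i.2) A) (fun _ _ => non_nonneg _ _ _)
        ((mem_boxes σ W).2 ⟨hσ, hW⟩)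
    linarith
  · have e1 : B2 A < 1 := by linarith
    have hN0 : (0 : ℝ) < (N : ℝ) := by exact_mod_cast hNpos
    have e2 : ∀ m ∈ range (n + 1), ∑ y ∈ cycs n N m, ind (Dy y) A =
        (((cycs n N m).filter fun y => Dy y ⊆ A).card : ℝ) := by
      intro m _
      unfold ind
      rw [card_filter]
      push_cast
      rfl
    simp only [hB2] at e1
    rw [sum_congr rfl e2, div_mul_eq_mul_div, div_lt_one hN0] at e1
    exact_mod_cast e1
  · intro T hT hTK D hD hDc hDA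
    obtain ⟨D', hD'D, hD'c⟩ := exists_subset_card_eq (s := D) (n := (3 * T.card + 1) / 2)
      (by omega)
    have e1 : ind D' A = 1 := by unfold ind; rw [if_pos (hD'D.trans hDA)]
    have e2 : ind D' A ≤ B3 A := by
      have g1 : ∑ T' ∈ powersetCard T.card (univ : Finset (Fin (n + 4) × Fin N)),
          ∑ D ∈ powersetCard ((3 * T.card + 1) / 2) T'.sym2, ind D A ≤ B3 A :=
        single_le_sum (f := fun t => ∑ T' ∈ powersetCard t
          (univ : Finset (Fin (n + 4) × Fin N)),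
          ∑ D ∈ powersetCard ((3 * t + 1) / 2) T'.sym2, ind D A)
          (s := Icc 1 K) (fun _ _ => sum_nonneg fun _ _ => sum_nonneg fun _ _ => ind_nonneg _ _)
          (mem_Icc.2 ⟨card_pos.2 hT, hTK⟩)
      have g2 := single_le_sum (f := fun T' : Finset (Fin (n + 4) × Fin N) =>
        ∑ D ∈ powersetCard ((3 * T.card + 1) / 2) T'.sym2, ind D A)
        (s := powersetCard T.card (univ : Finset (Fin (n + 4) × Fin N)))
        (fun _ _ => sum_nonneg fun _ _ => ind_nonneg _ _)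
        (mem_powersetCard.2 ⟨subset_univ T, rfl⟩)
      have g3 := single_le_sum (f := fun D : Finset (Sym2 (Fin (n + 4) × Fin N)) => ind D A)
        (s := powersetCard ((3 * T.card + 1) / 2) T.sym2)
        (fun _ _ => ind_nonneg _ _) (mem_powersetCard.2 ⟨hD'D.trans hD, hD'c⟩)
      exact g3.trans (g2.trans g1)
    linarith

end Pool.Agent.Lib.MP_e3911d_co
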