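import Pool.Agent.Lib.MP_e3911d_co.Exist
import Pool.Agent.Lib.MP_e3911d_co.Par

/-!
# MP_e3911d_co: small graphs of given girth without a semi-transitive orientation
-/

namespace Pool.Agent.MP_e3911d_co

open SimpleGraph

theorem neighborSet_cycleGraph {g : ℕ} (hg : 5 ≤ g) (x : Fin g) :
    ((cycleGraph g).neighborSet x).ncard ≤ 2 := by
  obtain ⟨n, rfl⟩ : ∃ n, g = n + 3 := ⟨g - 3, by omega⟩
  have h1 : (cycleGraph (n + 3)).degree x = 2 := cycleGraph_degree_three_le
  have h2 : ((cycleGraph (n + 3)).neighborSet x).ncard = (cycleGraph (n + 3)).degree x := by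
    rw [← card_neighborFinset_eq_degree, neighborFinset, Set.ncard_eq_toFinset_card']
  rw [h2, h1]

theorem small {g : ℕ} (hg : 5 ≤ g) : ∃ (n : ℕ) (G : SimpleGraph (Fin n)),
    G.egirth = (g : ℕ∞) ∧ ¬ SemiTransitive G ∧
    (n : ℝ) ≤ (10 ^ 9 * g * (Real.log g) ^ 2) ^ g ∧
    ∀ x, ((G.neighborSet x).ncard : ℝ) ≤ 10 ^ 9 * g * (Real.log g) ^ 2 := by
  classical
  obtain ⟨a, t, ha, ht, h1, h2, h3, h4⟩ := params hg
  obtain ⟨m, H, hm, hsh, hns, hdeg⟩ := exists_graph (g := g) (by omega) ha ht h1 h2
  obtain ⟨b1, b2⟩ := final_bounds (t := t) hg ha h4 h3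
  set K : SimpleGraph (Fin m ⊕ Fin g) := H ⊕g cycleGraph g with hK
  let ψ : K ≃g K.map finSumFinEquiv.toEmbedding := SimpleGraph.Iso.map finSumFinEquiv K
  refine ⟨m + g, K.map finSumFinEquiv.toEmbedding, ?_, ?_, ?_, ?_⟩
  · rw [← ψ.egirth_eq]
    exact egirth_sum_cycleGraph (by omega) hsh
  · intro hs
    apply hns
    have h5 : SemiTransitive K := hs.of_embedding ψ.toEmbedding
    exact h5.of_embedding (Embedding.sumInl : H ↪g K)
  · refine le_trans ?_ b2
    exact_mod_cast Nat.add_le_add_right hm g
  · intro x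
    have h5 : ((K.map finSumFinEquiv.toEmbedding).neighborSet x).ncard =
        (K.neighborSet (finSumFinEquiv.symm x)).ncard := by
      have h6 : (K.map finSumFinEquiv.toEmbedding).neighborSet x =
          finSumFinEquiv '' (K.neighborSet (finSumFinEquiv.symm x)) := by
        ext y
        rw [mem_neighborSet]
        constructor
        · intro h
          refine ⟨finSumFinEquiv.symm y, ?_, Equiv.apply_symm_apply _ _⟩
          rw [mem_neighborSet]
          have := ψ.symm.map_adj_iff.2 h
          exact this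
        · rintro ⟨z, hz, rfl⟩
          rw [mem_neighborSet] at hz
          have := ψ.map_adj_iff.2 hz
          have e : ψ (finSumFinEquiv.symm x) = x := finSumFinEquiv.apply_symm_apply x
          rw [e] at this
          exact this
      rw [h6, Set.ncard_image_of_injective _ finSumFinEquiv.injective]
    rw [h5]
    have hX : (2 : ℝ) ≤ 9 * ((1024 * a * 2 ^ a : ℕ) : ℝ) := by
      have h7 : 1 ≤ 1024 * a * 2 ^ a := by
        have : 1 ≤ 2 ^ a := Nat.one_le_two_pow
        nlinarith
      have h8 : (1 : ℝ) ≤ ((1024 * a * 2 ^ a : ℕ) : ℝ) := by exact_mod_cast h7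
      linarith
    refine le_trans ?_ b1
    rcases finSumFinEquiv.symm x with y | y
    · have h6 : K.neighborSet (Sum.inl y) = Sum.inl '' (H.neighborSet y) := by
        ext z
        rcases z with z | z <;> simp [hK]
      rw [h6, Set.ncard_image_of_injective _ Sum.inl_injective]
      exact hdeg y
    · have h6 : K.neighborSet (Sum.inr y) = Sum.inr '' ((cycleGraph g).neighborSet y) := by
        ext z
        rcases z with z | z <;> simp [hK]
      rw [h6, Set.ncard_image_of_injective _ Sum.inr_injective]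
      have h9 : (((cycleGraph g).neighborSet y).ncard : ℝ) ≤ 2 := by
        exact_mod_cast neighborSet_cycleGraph hg y
      linarith

end Pool.Agent.MP_e3911d_co
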